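import Pool.Agent.helper968_nsop1.Rel

/-!
Completing partial choices, and free amalgams.
-/

namespace H968F

open Classical Finset

variable {V : Type}

/-- Replace the choices. -/
def Rels.setS (r : Rels V) (o : V → V → V → Prop) : Rels V := { r with S := o }

@[simp] theorem Rels.setS_G (r : Rels V) (o : V → V → V → Prop) : (r.setS o).G = r.G := rfl
@[simp] theorem Rels.setS_P (r : Rels V) (o : V → V → V → Prop) : (r.setS o).P = r.P := rfl
@[simp] theorem Rels.setS_C (r : Rels V) (o : V → V → V → Prop) : (r.setS o).C = r.C := rfl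
@[simp] theorem Rels.setS_K (r : Rels V) (o : V → V → V → Prop) : (r.setS o).K = r.K := rfl
@[simp] theorem Rels.setS_S (r : Rels V) (o : V → V → V → Prop) : (r.setS o).S = o := rfl

theorem Ax0.setS {r : Rels V} {U : Set V} (h : Ax0 r U) (o : V → V → V → Prop) :
    Ax0 (r.setS o) U where
  gr := h.gr
  PC := h.PC
  iso := h.iso
  KG := h.KG
  Kex := h.Kex
  Kun := h.Kun

/-- Partial choices on weakly closed subsets extend to a structure satisfying the axioms. -/
theorem complete {r : Rels V} {B : Finset V} (hB : Ax0 r (B : Set V)) (K : V → Finset V)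
    (hK : ∀ x ∈ B, r.P x → WC r.G (K x) B)
    (hact : ∀ x ∈ B, r.P x → PAct r (r.S x) (K x : Set V) (B : Set V)) :
    ∃ o : V → V → V → Prop, Ax (r.setS o) (B : Set V) ∧
      ∀ x ∈ B, r.P x → ∀ z ∈ K x, ∀ c ∈ B, (o x z c ↔ r.S x z c) := by
  have h1 : ∀ x : V, ∃ p : V → V → Prop, x ∈ B → r.P x → Act r p (B : Set V) ∧
      ∀ z ∈ K x, ∀ c ∈ B, (p z c ↔ r.S x z c) := by
    intro x
    by_cases hx : x ∈ B
    · by_cases hp : r.P x
      · obtain ⟨p, hp1, hp2⟩ := PAct.extend hB (hK x hx hp) (hact x hx hp)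
        exact ⟨p, fun _ _ => ⟨hp1, hp2⟩⟩
      · exact ⟨fun _ _ => False, fun _ h => absurd h hp⟩
    · exact ⟨fun _ _ => False, fun h => absurd h hx⟩
  choose p hp using h1
  refine ⟨fun x z c => r.P x ∧ p x z c, ⟨hB.setS _, ?_, ?_⟩, ?_⟩
  · intro x _ v _ w _ h
    exact h.1
  · intro x hx hpx
    have h2 := (hp x hx hpx).1
    exact {
      col := fun z hz c hc h => h2.col z hz c hc h.2
      two := fun z hz a ha b hb c hc h3 h4 h5 => h2.two z hz a ha b hb c hc h3.2 h4.2 h5.2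
      cov := fun z hz w hw hzw => by
        rcases h2.cov z hz w hw hzw with ⟨c, k1, k2, k3⟩ | ⟨c, k1, k2, k3⟩
        · exact Or.inl ⟨c, k1, k2, hpx, k3⟩
        · exact Or.inr ⟨c, k1, k2, hpx, k3⟩ }
  · intro x hx hpx z hz c hc
    rw [← (hp x hx hpx).2 z hz c hc]
    exact ⟨fun h => h.2, fun h => ⟨hpx, h⟩⟩

/-- The relations `G` and `K` on `S ∪ T` are free over `S ∩ T`. -/
structure FreeR (r : Rels V) (S T : Finset V) : Prop where
  G : Free r.G S T
  K : ∀ z ∈ S ∪ T, ∀ w ∈ S ∪ T, ∀ c ∈ S ∪ T, r.K z w c →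
    (z ∈ S ∧ w ∈ S ∧ c ∈ S) ∨ (z ∈ T ∧ w ∈ T ∧ c ∈ T)

theorem FreeR.symm {r : Rels V} {S T : Finset V} (h : FreeR r S T) : FreeR r T S where
  G := h.G.symm
  K z hz w hw c hc h1 := by
    rw [Finset.union_comm] at hz hw hc
    exact (h.K z hz w hw c hc h1).symm

theorem FreeR.ax0 {r : Rels V} {S T : Finset V} (h : FreeR r S T) (hS : Ax0 r (S : Set V))
    (hT : Ax0 r (T : Set V)) (hcS : ClR r (S ∩ T) (S : Set V))
    (hcT : ClR r (S ∩ T) (T : Set V)) : Ax0 r ((S ∪ T : Finset V) : Set V) where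
  gr := h.G.gr hS.gr hT.gr hcS.cl hcT.cl
  PC x hx h1 := by
    rcases Finset.mem_union.1 (Finset.mem_coe.1 hx) with h2 | h2
    · exact hS.PC x h2 h1
    · exact hT.PC x h2 h1
  iso u hu v hv huv := by
    rcases h.G u hu v hv huv with ⟨a, b⟩ | ⟨a, b⟩
    · exact hS.iso u a v b huv
    · exact hT.iso u a v b huv
  KG z hz w hw c hc h1 := by
    rcases h.K z hz w hw c hc h1 with ⟨h2, h3, h4⟩ | ⟨h2, h3, h4⟩
    · exact hS.KG z h2 w h3 c h4 h1
    · exact hT.KG z h2 w h3 c h4 h1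
  Kex z hz w hw h1 := by
    rcases h.G z hz w hw h1 with ⟨a, b⟩ | ⟨a, b⟩
    · obtain ⟨c, h2, h3⟩ := hS.Kex z a w b h1
      exact ⟨c, by exact_mod_cast Finset.mem_union_left T h2, h3⟩
    · obtain ⟨c, h2, h3⟩ := hT.Kex z a w b h1
      exact ⟨c, by exact_mod_cast Finset.mem_union_right S h2, h3⟩
  Kun z hz w hw c hc c' hc' h1 h1' := by
    rcases h.K z hz w hw c hc h1 with ⟨h2, h3, h4⟩ | ⟨h2, h3, h4⟩
    · rcases h.K z hz w hw c' hc' h1' with ⟨h2', h3', h4'⟩ | ⟨h2', h3', h4'⟩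
      · exact hS.Kun z h2 w h3 c h4 c' h4' h1 h1'
      · have h5 := hcT.K z (Finset.mem_inter.2 ⟨h2, h2'⟩) w (Finset.mem_inter.2 ⟨h3, h3'⟩) c' h4' h1'
        exact hS.Kun z h2 w h3 c h4 c' (Finset.mem_inter.1 h5).1 h1 h1'
    · rcases h.K z hz w hw c' hc' h1' with ⟨h2', h3', h4'⟩ | ⟨h2', h3', h4'⟩
      · have h5 := hcT.K z (Finset.mem_inter.2 ⟨h2', h2⟩) w (Finset.mem_inter.2 ⟨h3', h3⟩) c h4 h1
        exact hS.Kun z h2' w h3' c (Finset.mem_inter.1 h5).1 c' h4' h1 h1'
      · exact hT.Kun z h2 w h3 c h4 c' h4' h1 h1'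

/-- Free amalgams of structures satisfying the axioms. -/
theorem amalg {r : Rels V} {S T : Finset V} (h : FreeR r S T) (hS : Ax r (S : Set V))
    (hT : Ax r (T : Set V)) (hcS : ClR r (S ∩ T) (S : Set V))
    (hcT : ClR r (S ∩ T) (T : Set V))
    (hO : ∀ x ∈ S ∪ T, ∀ z ∈ S ∪ T, ∀ c ∈ S ∪ T, r.S x z c →
      (x ∈ S ∧ z ∈ S ∧ c ∈ S) ∨ (x ∈ T ∧ z ∈ T ∧ c ∈ T)) :
    ∃ o : V → V → V → Prop, Ax (r.setS o) ((S ∪ T : Finset V) : Set V) ∧
      (∀ x ∈ S, ∀ z ∈ S, ∀ c ∈ S, (o x z c ↔ r.S x z c)) ∧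
      (∀ x ∈ T, ∀ z ∈ T, ∀ c ∈ T, (o x z c ↔ r.S x z c)) ∧
      ClR (r.setS o) S ((S ∪ T : Finset V) : Set V) ∧
      ClR (r.setS o) T ((S ∪ T : Finset V) : Set V) := by
  have h0 : Ax0 r ((S ∪ T : Finset V) : Set V) := h.ax0 hS.toAx0 hT.toAx0 hcS hcT
  have hcS' : Cl r.G S ((S ∪ T : Finset V) : Set V) := h.G.closed hcT.cl
  have hcT' : Cl r.G T ((S ∪ T : Finset V) : Set V) := by
    rw [Finset.union_comm]
    have := hcS.cl
    rw [Finset.inter_comm] at this
    exact h.G.symm.closed this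
  have hKS : ∀ z ∈ S, ∀ w ∈ S, ∀ c ∈ S ∪ T, r.K z w c → c ∈ S := by
    intro z hz w hw c hc h1
    rcases h.K z (Finset.mem_union_left _ hz) w (Finset.mem_union_left _ hw) c hc h1 with
      ⟨_, _, h2⟩ | ⟨h2, h3, h4⟩
    · exact h2
    · exact (Finset.mem_inter.1 (hcT.K z (Finset.mem_inter.2 ⟨hz, h2⟩) w
        (Finset.mem_inter.2 ⟨hw, h3⟩) c h4 h1)).1
  have hKT : ∀ z ∈ T, ∀ w ∈ T, ∀ c ∈ S ∪ T, r.K z w c → c ∈ T := by
    intro z hz w hw c hc h1
    rcases h.K z (Finset.mem_union_right _ hz) w (Finset.mem_union_right _ hw) c hc h1 with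
      ⟨h2, h3, h4⟩ | ⟨_, _, h2⟩
    · exact (Finset.mem_inter.1 (hcS.K z (Finset.mem_inter.2 ⟨h2, hz⟩) w
        (Finset.mem_inter.2 ⟨h3, hw⟩) c h4 h1)).2
    · exact h2
  have hSS : ∀ x ∈ S, ∀ z ∈ S, ∀ c ∈ S ∪ T, r.S x z c → c ∈ S := by
    intro x hx z hz c hc h1
    rcases hO x (Finset.mem_union_left _ hx) z (Finset.mem_union_left _ hz) c hc h1 with
      ⟨_, _, h2⟩ | ⟨h2, h3, h4⟩
    · exact h2
    · exact (Finset.mem_inter.1 (hcT.S x (Finset.mem_inter.2 ⟨hx, h2⟩) z
        (Finset.mem_inter.2 ⟨hz, h3⟩) c h4 h1)).1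
  have hST : ∀ x ∈ T, ∀ z ∈ T, ∀ c ∈ S ∪ T, r.S x z c → c ∈ T := by
    intro x hx z hz c hc h1
    rcases hO x (Finset.mem_union_right _ hx) z (Finset.mem_union_right _ hz) c hc h1 with
      ⟨h2, h3, h4⟩ | ⟨_, _, h2⟩
    · exact (Finset.mem_inter.1 (hcS.S x (Finset.mem_inter.2 ⟨h2, hx⟩) z
        (Finset.mem_inter.2 ⟨h3, hz⟩) c h4 h1)).2
    · exact h2
  have pS : ∀ x ∈ S, r.P x → PAct r (r.S x) (S : Set V) ((S ∪ T : Finset V) : Set V) := by
    intro x hx hp
    have h1 := hS.act x hx hp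
    exact {
      col := fun z hz c hc h2 => h1.col z hz c (hSS x hx z hz c hc h2) h2
      two := fun z hz a ha b hb c hc h2 h3 h4 => h1.two z hz a (hSS x hx z hz a ha h2) b
        (hSS x hx z hz b hb h3) c (hSS x hx z hz c hc h4) h2 h3 h4
      cov := fun z hz w hw hzw => by
        rcases h1.cov z hz w hw hzw with ⟨c, k1, k2, k3⟩ | ⟨c, k1, k2, k3⟩
        · exact Or.inl ⟨c, by exact_mod_cast Finset.mem_union_left T k1, k2, k3⟩
        · exact Or.inr ⟨c, by exact_mod_cast Finset.mem_union_left T k1, k2, k3⟩ }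
  have pT : ∀ x ∈ T, r.P x → PAct r (r.S x) (T : Set V) ((S ∪ T : Finset V) : Set V) := by
    intro x hx hp
    have h1 := hT.act x hx hp
    exact {
      col := fun z hz c hc h2 => h1.col z hz c (hST x hx z hz c hc h2) h2
      two := fun z hz a ha b hb c hc h2 h3 h4 => h1.two z hz a (hST x hx z hz a ha h2) b
        (hST x hx z hz b hb h3) c (hST x hx z hz c hc h4) h2 h3 h4
      cov := fun z hz w hw hzw => by
        rcases h1.cov z hz w hw hzw with ⟨c, k1, k2, k3⟩ | ⟨c, k1, k2, k3⟩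
        · exact Or.inl ⟨c, by exact_mod_cast Finset.mem_union_right S k1, k2, k3⟩
        · exact Or.inr ⟨c, by exact_mod_cast Finset.mem_union_right S k1, k2, k3⟩ }
  obtain ⟨o, ho1, ho2⟩ := complete h0
    (fun x => if x ∈ S then (if x ∈ T then S ∪ T else S) else T) (by
      intro x hx hp
      by_cases h1 : x ∈ S
      · by_cases h2 : x ∈ T
        · simp only [h1, h2, if_true]
          exact WC.refl _
        · simp only [h1, h2, if_true, if_false]
          exact hcS'.wc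
      · simp only [h1, if_false]
        exact hcT'.wc) (by
      intro x hx hp
      by_cases h1 : x ∈ S
      · by_cases h2 : x ∈ T
        · simp only [h1, h2, if_true]
          have p1 := pS x h1 hp
          have p2 := pT x h2 hp
          exact {
            col := fun z hz c hc h3 => by
              rcases Finset.mem_union.1 (Finset.mem_coe.1 hz) with h4 | h4
              · exact p1.col z h4 c hc h3
              · exact p2.col z h4 c hc h3
            two := fun z hz a ha b hb c hc h3 h4 h5 => by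
              rcases Finset.mem_union.1 (Finset.mem_coe.1 hz) with h6 | h6
              · exact p1.two z h6 a ha b hb c hc h3 h4 h5
              · exact p2.two z h6 a ha b hb c hc h3 h4 h5
            cov := fun z hz w hw hzw => by
              rcases h.G z (Finset.mem_coe.1 hz) w (Finset.mem_coe.1 hw) hzw with
                ⟨h6, h7⟩ | ⟨h6, h7⟩
              · exact p1.cov z h6 w h7 hzw
              · exact p2.cov z h6 w h7 hzw }
        · simp only [h1, h2, if_true, if_false]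
          exact pS x h1 hp
      · simp only [h1, if_false]
        have h2 : x ∈ T := by
          rcases Finset.mem_union.1 (Finset.mem_coe.1 hx) with h3 | h3
          · exact absurd h3 h1
          · exact h3
        exact pT x h2 hp)
  have hoS : ∀ x ∈ S, ∀ z ∈ S, ∀ c ∈ S ∪ T, (o x z c ↔ r.S x z c) := by
    intro x hx z hz c hc
    have hxu : x ∈ S ∪ T := Finset.mem_union_left _ hx
    have hzu : z ∈ S ∪ T := Finset.mem_union_left _ hz
    by_cases hp : r.P x
    · have h3 := ho2 x hxu hp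
      by_cases h2 : x ∈ T
      · simp only [hx, h2, if_true] at h3
        exact h3 z hzu c hc
      · simp only [hx, h2, if_true, if_false] at h3
        exact h3 z hz c hc
    · exact ⟨fun h4 => absurd (ho1.SP x hxu z hzu c hc h4) hp,
        fun h4 => absurd (hS.SP x hx z hz c (hSS x hx z hz c hc h4) h4) hp⟩
  have hoT : ∀ x ∈ T, ∀ z ∈ T, ∀ c ∈ S ∪ T, (o x z c ↔ r.S x z c) := by
    intro x hx z hz c hc
    have hxu : x ∈ S ∪ T := Finset.mem_union_right _ hx
    have hzu : z ∈ S ∪ T := Finset.mem_union_right _ hz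
    by_cases hp : r.P x
    · have h3 := ho2 x hxu hp
      by_cases h2 : x ∈ S
      · simp only [hx, h2, if_true] at h3
        exact h3 z hzu c hc
      · simp only [h2, if_false] at h3
        exact h3 z hz c hc
    · exact ⟨fun h4 => absurd (ho1.SP x hxu z hzu c hc h4) hp,
        fun h4 => absurd (hT.SP x hx z hz c (hST x hx z hz c hc h4) h4) hp⟩
  refine ⟨o, ho1, fun x hx z hz c hc => hoS x hx z hz c (Finset.mem_union_left _ hc),
    fun x hx z hz c hc => hoT x hx z hz c (Finset.mem_union_right _ hc), ⟨hcS', ?_, ?_⟩,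
    ⟨hcT', ?_, ?_⟩⟩
  · intro z hz w hw c hc h1
    exact hKS z hz w hw c (Finset.mem_coe.1 hc) h1
  · intro z hz w hw c hc h1
    exact hSS z hz w hw c (Finset.mem_coe.1 hc) ((hoS z hz w hw c (Finset.mem_coe.1 hc)).1 h1)
  · intro z hz w hw c hc h1
    exact hKT z hz w hw c (Finset.mem_coe.1 hc) h1
  · intro z hz w hw c hc h1
    exact hST z hz w hw c (Finset.mem_coe.1 hc) ((hoT z hz w hw c (Finset.mem_coe.1 hc)).1 h1)

end H968F
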