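import Pool.Agent.helper968_nsop1.Base

/-!
Amalgamation on an infinite set; transport of the axioms (by helper322).
-/

namespace H968F

open Classical Finset

theorem RefOn.ax {F V : Type} {q : Rels F} {r : Rels V} {B : Finset F} {e : F → V}
    (h : RefOn q r (B : Set F) e) (hq : Ax q (B : Set F)) :
    Ax r ((B.image e : Finset V) : Set V) where
  gr := by
    intro X hX hne
    have hX' : X ⊆ B.image e := by exact_mod_cast hX
    obtain ⟨Y, hY, rfl⟩ := Finset.subset_image_iff.1 hX'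
    have hY' : (Y : Set F) ⊆ B := hY
    rw [h.dl hY', Finset.card_image_of_injOn (h.inj.mono hY')]
    exact hq.gr Y hY' (Finset.image_nonempty.1 hne)
  PC := by
    intro x hx h1 h2
    obtain ⟨x, hx', rfl⟩ := Finset.mem_image.1 (Finset.mem_coe.1 hx)
    exact hq.PC x hx' ((h.P x hx').1 h1) ((h.C x hx').1 h2)
  iso := by
    intro u hu v hv huv
    obtain ⟨x, hx, rfl⟩ := Finset.mem_image.1 (Finset.mem_coe.1 hu)
    obtain ⟨y, hy, rfl⟩ := Finset.mem_image.1 (Finset.mem_coe.1 hv)
    rw [h.G x hx y hy] at huv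
    rw [h.P x hx, h.C x hx]
    exact hq.iso x hx y hy huv
  KG := by
    intro z hz w hw c hc hK
    obtain ⟨z, hz', rfl⟩ := Finset.mem_image.1 (Finset.mem_coe.1 hz)
    obtain ⟨w, hw', rfl⟩ := Finset.mem_image.1 (Finset.mem_coe.1 hw)
    obtain ⟨c, hc', rfl⟩ := Finset.mem_image.1 (Finset.mem_coe.1 hc)
    rw [h.K z hz' w hw' c hc'] at hK
    rw [h.G z hz' w hw', h.C c hc']
    exact hq.KG z hz' w hw' c hc' hK
  Kex := by
    intro z hz w hw hzw
    obtain ⟨z, hz', rfl⟩ := Finset.mem_image.1 (Finset.mem_coe.1 hz)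
    obtain ⟨w, hw', rfl⟩ := Finset.mem_image.1 (Finset.mem_coe.1 hw)
    rw [h.G z hz' w hw'] at hzw
    obtain ⟨c, hc, h1⟩ := hq.Kex z hz' w hw' hzw
    exact ⟨e c, Finset.mem_coe.2 (Finset.mem_image_of_mem e hc), (h.K z hz' w hw' c hc).2 h1⟩
  Kun := by
    intro z hz w hw c hc c' hc' h1 h2
    obtain ⟨z, hz', rfl⟩ := Finset.mem_image.1 (Finset.mem_coe.1 hz)
    obtain ⟨w, hw', rfl⟩ := Finset.mem_image.1 (Finset.mem_coe.1 hw)
    obtain ⟨c, hc1, rfl⟩ := Finset.mem_image.1 (Finset.mem_coe.1 hc)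
    obtain ⟨c', hc1', rfl⟩ := Finset.mem_image.1 (Finset.mem_coe.1 hc')
    rw [hq.Kun z hz' w hw' c hc1 c' hc1' ((h.K z hz' w hw' c hc1).1 h1)
      ((h.K z hz' w hw' c' hc1').1 h2)]
  SP := by
    intro x hx z hz c hc h1
    obtain ⟨x, hx', rfl⟩ := Finset.mem_image.1 (Finset.mem_coe.1 hx)
    obtain ⟨z, hz', rfl⟩ := Finset.mem_image.1 (Finset.mem_coe.1 hz)
    obtain ⟨c, hc', rfl⟩ := Finset.mem_image.1 (Finset.mem_coe.1 hc)
    rw [h.P x hx']
    exact hq.SP x hx' z hz' c hc' ((h.S x hx' z hz' c hc').1 h1)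
  act := by
    intro x hx hp
    obtain ⟨x, hx', rfl⟩ := Finset.mem_image.1 (Finset.mem_coe.1 hx)
    rw [h.P x hx'] at hp
    have hact := hq.act x hx' hp
    refine ⟨?_, ?_, ?_⟩
    · intro z hz c hc h1
      obtain ⟨z, hz', rfl⟩ := Finset.mem_image.1 (Finset.mem_coe.1 hz)
      obtain ⟨c, hc', rfl⟩ := Finset.mem_image.1 (Finset.mem_coe.1 hc)
      rw [h.C c hc', h.P z hz', h.C z hz']
      exact hact.col z hz' c hc' ((h.S x hx' z hz' c hc').1 h1)
    · intro z hz a ha b hb c hc h1 h2 h3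
      obtain ⟨z, hz', rfl⟩ := Finset.mem_image.1 (Finset.mem_coe.1 hz)
      obtain ⟨a, ha', rfl⟩ := Finset.mem_image.1 (Finset.mem_coe.1 ha)
      obtain ⟨b, hb', rfl⟩ := Finset.mem_image.1 (Finset.mem_coe.1 hb)
      obtain ⟨c, hc', rfl⟩ := Finset.mem_image.1 (Finset.mem_coe.1 hc)
      rcases hact.two z hz' a ha' b hb' c hc' ((h.S x hx' z hz' a ha').1 h1)
        ((h.S x hx' z hz' b hb').1 h2) ((h.S x hx' z hz' c hc').1 h3) with h4 | h4 | h4
      · exact Or.inl (by rw [h4])
      · exact Or.inr (Or.inl (by rw [h4]))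
      · exact Or.inr (Or.inr (by rw [h4]))
    · intro z hz w hw hG
      obtain ⟨z, hz', rfl⟩ := Finset.mem_image.1 (Finset.mem_coe.1 hz)
      obtain ⟨w, hw', rfl⟩ := Finset.mem_image.1 (Finset.mem_coe.1 hw)
      rcases hact.cov z hz' w hw' ((h.G z hz' w hw').1 hG) with ⟨c, hc, h1, h2⟩ | ⟨c, hc, h1, h2⟩
      · exact Or.inl ⟨e c, Finset.mem_coe.2 (Finset.mem_image_of_mem e hc),
          (h.K z hz' w hw' c hc).2 h1, (h.S x hx' z hz' c hc).2 h2⟩
      · exact Or.inr ⟨e c, Finset.mem_coe.2 (Finset.mem_image_of_mem e hc),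
          (h.K w hw' z hz' c hc).2 h1, (h.S x hx' w hw' c hc).2 h2⟩

namespace AmN

/-- The union of the structure `Q` on `D` and the image of `q` on `B`. -/
def amR {F V : Type} (Q : Rels V) (D : Finset V) (q : Rels F) (B : Finset F) (e : F → V)
    (he : Set.InjOn e (B : Set F)) : Rels V where
  G :=
    { Adj := fun u v => (u ∈ D ∧ v ∈ D ∧ Q.G.Adj u v) ∨
        ∃ x ∈ B, ∃ y ∈ B, u = e x ∧ v = e y ∧ q.G.Adj x y
      symm := by
        constructor
        rintro u v (⟨h1, h2, h3⟩ | ⟨x, hx, y, hy, h1, h2, h3⟩)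
        · exact Or.inl ⟨h2, h1, h3.symm⟩
        · exact Or.inr ⟨y, hy, x, hx, h2, h1, h3.symm⟩
      loopless := by
        constructor
        rintro u (⟨h1, h2, h3⟩ | ⟨x, hx, y, hy, h1, h2, h3⟩)
        · exact Q.G.loopless.irrefl u h3
        · have : x = y := he hx hy (h1.symm.trans h2)
          subst this
          exact q.G.loopless.irrefl x h3 }
  P := fun u => (u ∈ D ∧ Q.P u) ∨ ∃ x ∈ B, u = e x ∧ q.P x
  C := fun u => (u ∈ D ∧ Q.C u) ∨ ∃ x ∈ B, u = e x ∧ q.C x
  K := fun x v w => (x ∈ D ∧ v ∈ D ∧ w ∈ D ∧ Q.K x v w) ∨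
    ∃ x' ∈ B, ∃ v' ∈ B, ∃ w' ∈ B, x = e x' ∧ v = e v' ∧ w = e w' ∧ q.K x' v' w'
  S := fun x v w => (x ∈ D ∧ v ∈ D ∧ w ∈ D ∧ Q.S x v w) ∨
    ∃ x' ∈ B, ∃ v' ∈ B, ∃ w' ∈ B, x = e x' ∧ v = e v' ∧ w = e w' ∧ q.S x' v' w'

section

variable {F V : Type} {Q : Rels V} {D : Finset V} {q : Rels F} {A B : Finset F} {e : F → V}
  {he : Set.InjOn e (B : Set F)}

theorem amR_left (hg : RefOn q Q (A : Set F) e)
    (hout : ∀ x ∈ B, e x ∈ D → x ∈ A) :
    RefOn Q (amR Q D q B e he) (D : Set V) id where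
  inj := Set.injOn_id _
  P x hx := by
    constructor
    · rintro (⟨_, h⟩ | ⟨y, hy, h1, h2⟩)
      · exact h
      · have h3 : y ∈ A := hout y hy (by rw [← h1]; exact hx)
        have := (hg.P y h3).2 h2
        rw [← h1] at this
        exact this
    · intro h
      exact Or.inl ⟨hx, h⟩
  C x hx := by
    constructor
    · rintro (⟨_, h⟩ | ⟨y, hy, h1, h2⟩)
      · exact h
      · have h3 : y ∈ A := hout y hy (by rw [← h1]; exact hx)
        have := (hg.C y h3).2 h2
        rw [← h1] at this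
        exact this
    · intro h
      exact Or.inl ⟨hx, h⟩
  G x hx y hy := by
    constructor
    · rintro (⟨_, _, h⟩ | ⟨x', hx', y', hy', h1, h2, h3⟩)
      · exact h
      · have hx1 : x' ∈ A := hout x' hx' (by rw [← h1]; exact hx)
        have hy1 : y' ∈ A := hout y' hy' (by rw [← h2]; exact hy)
        have := (hg.G x' hx1 y' hy1).2 h3
        rw [← h1, ← h2] at this
        exact this
    · intro h
      exact Or.inl ⟨hx, hy, h⟩
  K x hx v hv w hw := by
    constructor
    · rintro (⟨_, _, _, h⟩ | ⟨x', hx', v', hv', w', hw', h1, h2, h3, h4⟩)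
      · exact h
      · have hx1 : x' ∈ A := hout x' hx' (by rw [← h1]; exact hx)
        have hv1 : v' ∈ A := hout v' hv' (by rw [← h2]; exact hv)
        have hw1 : w' ∈ A := hout w' hw' (by rw [← h3]; exact hw)
        have := (hg.K x' hx1 v' hv1 w' hw1).2 h4
        rw [← h1, ← h2, ← h3] at this
        exact this
    · intro h
      exact Or.inl ⟨hx, hv, hw, h⟩
  S x hx v hv w hw := by
    constructor
    · rintro (⟨_, _, _, h⟩ | ⟨x', hx', v', hv', w', hw', h1, h2, h3, h4⟩)
      · exact h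
      · have hx1 : x' ∈ A := hout x' hx' (by rw [← h1]; exact hx)
        have hv1 : v' ∈ A := hout v' hv' (by rw [← h2]; exact hv)
        have hw1 : w' ∈ A := hout w' hw' (by rw [← h3]; exact hw)
        have := (hg.S x' hx1 v' hv1 w' hw1).2 h4
        rw [← h1, ← h2, ← h3] at this
        exact this
    · intro h
      exact Or.inl ⟨hx, hv, hw, h⟩

theorem amR_right (hg : RefOn q Q (A : Set F) e) (hout : ∀ x ∈ B, e x ∈ D → x ∈ A) :
    RefOn q (amR Q D q B e he) (B : Set F) e where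
  inj := he
  P x hx := by
    constructor
    · rintro (⟨h1, h2⟩ | ⟨y, hy, h1, h2⟩)
      · exact (hg.P x (hout x hx h1)).1 h2
      · have : x = y := he hx hy h1
        subst this
        exact h2
    · intro h
      exact Or.inr ⟨x, hx, rfl, h⟩
  C x hx := by
    constructor
    · rintro (⟨h1, h2⟩ | ⟨y, hy, h1, h2⟩)
      · exact (hg.C x (hout x hx h1)).1 h2
      · have : x = y := he hx hy h1
        subst this
        exact h2
    · intro h
      exact Or.inr ⟨x, hx, rfl, h⟩
  G x hx y hy := by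
    constructor
    · rintro (⟨h1, h2, h3⟩ | ⟨x', hx', y', hy', h1, h2, h3⟩)
      · exact (hg.G x (hout x hx h1) y (hout y hy h2)).1 h3
      · have hx1 : x = x' := he hx hx' h1
        have hy1 : y = y' := he hy hy' h2
        subst hx1 hy1
        exact h3
    · intro h
      exact Or.inr ⟨x, hx, y, hy, rfl, rfl, h⟩
  K x hx v hv w hw := by
    constructor
    · rintro (⟨h1, h2, h3, h4⟩ | ⟨x', hx', v', hv', w', hw', h1, h2, h3, h4⟩)
      · exact (hg.K x (hout x hx h1) v (hout v hv h2) w (hout w hw h3)).1 h4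
      · have hx1 : x = x' := he hx hx' h1
        have hv1 : v = v' := he hv hv' h2
        have hw1 : w = w' := he hw hw' h3
        subst hx1 hv1 hw1
        exact h4
    · intro h
      exact Or.inr ⟨x, hx, v, hv, w, hw, rfl, rfl, rfl, h⟩
  S x hx v hv w hw := by
    constructor
    · rintro (⟨h1, h2, h3, h4⟩ | ⟨x', hx', v', hv', w', hw', h1, h2, h3, h4⟩)
      · exact (hg.S x (hout x hx h1) v (hout v hv h2) w (hout w hw h3)).1 h4
      · have hx1 : x = x' := he hx hx' h1
        have hv1 : v = v' := he hv hv' h2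
        have hw1 : w = w' := he hw hw' h3
        subst hx1 hv1 hw1
        exact h4
    · intro h
      exact Or.inr ⟨x, hx, v, hv, w, hw, rfl, rfl, rfl, h⟩

theorem amR_free : FreeR (amR Q D q B e he) D (B.image e) where
  G := by
    rintro u _ v _ (⟨h1, h2, _⟩ | ⟨x, hx, y, hy, h1, h2, _⟩)
    · exact Or.inl ⟨h1, h2⟩
    · right
      rw [h1, h2]
      exact ⟨Finset.mem_image_of_mem e hx, Finset.mem_image_of_mem e hy⟩
  K := by
    rintro z _ w _ c _ (⟨h1, h2, h3, _⟩ | ⟨z', hz', w', hw', c', hc', h1, h2, h3, _⟩)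
    · exact Or.inl ⟨h1, h2, h3⟩
    · right
      rw [h1, h2, h3]
      exact ⟨Finset.mem_image_of_mem e hz', Finset.mem_image_of_mem e hw',
        Finset.mem_image_of_mem e hc'⟩

end

/-- The embedding of `B` extending `g`, fresh outside `D`. -/
theorem exists_fresh {F V : Type} [Infinite V] (D : Finset V) (A B : Finset F) (g : F → V)
    (hg : Set.InjOn g (A : Set F)) (hD : ∀ x ∈ A, g x ∈ D) :
    ∃ e : F → V, (∀ x ∈ A, e x = g x) ∧ Set.InjOn e (B : Set F) ∧
      ∀ x ∈ B, e x ∈ D → x ∈ A := by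
  let idx : F → ℕ := fun x => if h : x ∈ B then (B.equivFin ⟨x, h⟩).val else 0
  have hidx : ∀ x ∈ B, ∀ y ∈ B, idx x = idx y → x = y := by
    intro x hx y hy hxy
    simp only [idx, dif_pos hx, dif_pos hy] at hxy
    have h1 := B.equivFin.injective (Fin.ext hxy)
    exact congrArg Subtype.val h1
  have hinf : ((D : Set V)ᶜ).Infinite := D.finite_toSet.infinite_compl
  let emb := hinf.natEmbedding
  have hemb : ∀ n, (emb n : V) ∉ D := fun n h => (emb n).2 (Finset.mem_coe.2 h)
  refine ⟨fun x => if x ∈ A then g x else emb (idx x), ?_, ?_, ?_⟩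
  · intro x hx
    simp [hx]
  · intro x hx y hy hxy
    simp only at hxy
    by_cases h1 : x ∈ A
    · by_cases h2 : y ∈ A
      · simp only [h1, h2, if_true] at hxy
        exact hg h1 h2 hxy
      · simp only [h1, h2, if_true, if_false] at hxy
        exact absurd (hD x h1) (by rw [hxy]; exact hemb _)
    · by_cases h2 : y ∈ A
      · simp only [h1, h2, if_true, if_false] at hxy
        exact absurd (hD y h2) (by rw [← hxy]; exact hemb _)
      · simp only [h1, h2, if_false] at hxy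
        exact hidx x hx y hy (emb.injective (Subtype.ext hxy))
  · intro x hx hxD
    by_contra h1
    simp only [h1, if_false] at hxD
    exact hemb _ hxD

theorem amalg_gen {F V : Type} (Q : Rels V) (D : Finset V) (hQ : Ax Q (D : Set V)) (q : Rels F)
    (A B : Finset F) (hq : Ax q (B : Set F)) (hAB : ClR q A (B : Set F)) (g : F → V)
    (hg : RefOn q Q (A : Set F) g) (hgc : ClR Q (A.image g) (D : Set V)) (e : F → V)
    (he1 : ∀ x ∈ A, e x = g x) (he2 : Set.InjOn e (B : Set F))
    (he3 : ∀ x ∈ B, e x ∈ D → x ∈ A) :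
    ∃ Q' : Rels V, RefOn Q Q' (D : Set V) id ∧ RefOn q Q' (B : Set F) e ∧
      D ∩ B.image e = A.image g ∧
      Ax Q' ((D ∪ B.image e : Finset V) : Set V) ∧
      ClR Q' D ((D ∪ B.image e : Finset V) : Set V) ∧
      ClR Q' (B.image e) ((D ∪ B.image e : Finset V) : Set V) := by
  have hA : A ⊆ B := by exact_mod_cast hAB.cl.sub
  have hgD : ∀ x ∈ A, g x ∈ D := fun x hx =>
    Finset.mem_coe.1 (hgc.cl.sub (Finset.mem_coe.2 (Finset.mem_image_of_mem g hx)))
  have hge : RefOn q Q (A : Set F) e :=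
    { inj := fun x hx y hy hxy => hg.inj hx hy (by rw [← he1 x hx, ← he1 y hy]; exact hxy)
      P := fun x hx => by rw [he1 x hx]; exact hg.P x hx
      C := fun x hx => by rw [he1 x hx]; exact hg.C x hx
      G := fun x hx y hy => by rw [he1 x hx, he1 y hy]; exact hg.G x hx y hy
      K := fun x hx v hv w hw => by
        rw [he1 x hx, he1 v hv, he1 w hw]; exact hg.K x hx v hv w hw
      S := fun x hx v hv w hw => by
        rw [he1 x hx, he1 v hv, he1 w hw]; exact hg.S x hx v hv w hw }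
  have himg : A.image e = A.image g := Finset.image_congr fun x hx => he1 x hx
  have hint : D ∩ B.image e = A.image g := by
    ext u
    rw [Finset.mem_inter, Finset.mem_image, Finset.mem_image]
    constructor
    · rintro ⟨h1, x, hx, rfl⟩
      have h2 := he3 x hx h1
      exact ⟨x, h2, (he1 x h2).symm⟩
    · rintro ⟨x, hx, rfl⟩
      exact ⟨hgD x hx, x, hA hx, he1 x hx⟩
  let r : Rels V := amR Q D q B e he2
  have hL : RefOn Q r (D : Set V) id := amR_left hge he3
  have hR : RefOn q r (B : Set F) e := amR_right hge he3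
  have hfree : FreeR r D (B.image e) := amR_free
  have hAxD : Ax r (D : Set V) := by
    have := hL.ax hQ
    rwa [Finset.image_id] at this
  have hAxT : Ax r ((B.image e : Finset V) : Set V) := hR.ax hq
  have hcS : ClR r (D ∩ B.image e) (D : Set V) := by
    have := hL.clR hgc
    rw [Finset.image_id, Finset.image_id] at this
    rwa [hint]
  have hcT : ClR r (D ∩ B.image e) ((B.image e : Finset V) : Set V) := by
    have := hR.clR hAB
    rw [himg] at this
    rwa [hint]
  obtain ⟨o, ho1, ho2, ho3, ho4, ho5⟩ := amalg hfree hAxD hAxT hcS hcT (by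
    rintro x _ v _ w _ (⟨h1, h2, h3, h4⟩ | ⟨x', hx', v', hv', w', hw', h1, h2, h3, h4⟩)
    · exact Or.inl ⟨h1, h2, h3⟩
    · right
      rw [h1, h2, h3]
      exact ⟨Finset.mem_image_of_mem e hx', Finset.mem_image_of_mem e hv',
        Finset.mem_image_of_mem e hw'⟩)
  refine ⟨r.setS o, ?_, ?_, hint, ho1, ho4, ho5⟩
  · exact
      { inj := hL.inj
        P := hL.P
        C := hL.C
        G := hL.G
        K := hL.K
        S := fun x hx v hv w hw => (ho2 x hx v hv w hw).trans (hL.S x hx v hv w hw) }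
  · exact
      { inj := hR.inj
        P := hR.P
        C := hR.C
        G := hR.G
        K := hR.K
        S := fun x hx v hv w hw =>
          (ho3 (e x) (Finset.mem_image_of_mem e hx) (e v) (Finset.mem_image_of_mem e hv) (e w)
            (Finset.mem_image_of_mem e hw)).trans (hR.S x hx v hv w hw) }

end AmN

theorem amalg_inf {F V : Type} [Infinite V] (Q : Rels V) (D : Finset V) (hQ : Ax Q (D : Set V))
    (q : Rels F) (A B : Finset F) (hq : Ax q (B : Set F)) (hAB : ClR q A (B : Set F)) (g : F → V)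
    (hg : RefOn q Q (A : Set F) g) (hgc : ClR Q (A.image g) (D : Set V)) :
    ∃ (Q' : Rels V) (e : F → V), RefOn Q Q' (D : Set V) id ∧ RefOn q Q' (B : Set F) e ∧
      (∀ x ∈ A, e x = g x) ∧ D ∩ B.image e = A.image g ∧
      Ax Q' ((D ∪ B.image e : Finset V) : Set V) ∧
      ClR Q' D ((D ∪ B.image e : Finset V) : Set V) ∧
      ClR Q' (B.image e) ((D ∪ B.image e : Finset V) : Set V) := by
  have hgD : ∀ x ∈ A, g x ∈ D := fun x hx =>
    Finset.mem_coe.1 (hgc.cl.sub (Finset.mem_coe.2 (Finset.mem_image_of_mem g hx)))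
  obtain ⟨e, he1, he2, he3⟩ := AmN.exists_fresh D A B g hg.inj hgD
  obtain ⟨Q', h1, h2, h3, h4, h5, h6⟩ := AmN.amalg_gen Q D hQ q A B hq hAB g hg hgc e he1 he2 he3
  exact ⟨Q', e, h1, h2, he1, h3, h4, h5, h6⟩

end H968F
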