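import Pool.Agent.helper968_kim.Tree

/-!
Arrays from trees (the colours may depend on the stage). Adapted from
`Pool.Agent.helper968_kim.Tree` (helper902).
-/

namespace H968F

open H968

theorem exists_array' {X : Type} {C : ℕ → Type} [∀ i, Finite (C i)] (b : List Bool → X)
    (col : ∀ i, (ℕ → Bool → X) → X → C i)
    (hcol : ∀ i c c' x, (∀ j < i, c j = c' j) → col i c x = col i c' x) :
    ∃ (c : ℕ → Bool → X) (η : ℕ → List Bool), (∀ i, c i false = b (η (i + 1))) ∧
      (∀ i j, i ≤ j → η i <+: η j) ∧
      (∀ i, ∃ μ, c i true = b (μ ++ [true]) ∧ (μ ++ [false]) <+: η (i + 1)) ∧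
      ∀ i, col i c (c i true) = col i c (c i false) := by
  classical
  choose P hP1 hP2 using fun (i : ℕ) (f : X → C i) (η : List Bool) => j4_pigeon b f η
  let pr : (ℕ → (ℕ → Bool → X) × List Bool → ℕ × ℕ) := fun i s => P i (col i s.1) s.2
  let step : ℕ → (ℕ → Bool → X) × List Bool → (ℕ → Bool → X) × List Bool := fun i s =>
    (Function.update s.1 i (fun t => if t then b (s.2 ++ List.replicate (pr i s).1 false ++ [true])
      else b (s.2 ++ List.replicate (pr i s).2 false ++ [true])),
     s.2 ++ List.replicate (pr i s).2 false ++ [true])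
  let st : ℕ → (ℕ → Bool → X) × List Bool := fun n =>
    Nat.rec ((fun _ _ => b []), []) (fun i s => step i s) n
  have hst : ∀ i, st (i + 1) = step i (st i) := fun i => rfl
  let c : ℕ → Bool → X := fun i => (st (i + 1)).1 i
  have hstab : ∀ i j, i < j → (st j).1 i = c i := by
    intro i j hij
    induction j, hij using Nat.le_induction with
    | base => rfl
    | succ j hj ih =>
      rw [hst]
      show Function.update (st j).1 j _ i = c i
      rw [Function.update_of_ne (by omega)]
      exact ih
  have hc : ∀ i, c i = fun t => if t then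
      b ((st i).2 ++ List.replicate (pr i (st i)).1 false ++ [true])
      else b ((st i).2 ++ List.replicate (pr i (st i)).2 false ++ [true]) := by
    intro i
    show (st (i + 1)).1 i = _
    rw [hst]
    show Function.update (st i).1 i _ i = _
    rw [Function.update_self]
  have hη : ∀ i, (st (i + 1)).2 = (st i).2 ++ List.replicate (pr i (st i)).2 false ++ [true] := by
    intro i; rw [hst]
  refine ⟨c, fun i => (st i).2, ?_, ?_, ?_, ?_⟩
  · intro i
    show c i false = b ((st (i + 1)).2)
    rw [hc, hη]; rfl
  · intro i j hij
    induction j, hij using Nat.le_induction with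
    | base => exact List.prefix_rfl
    | succ j hj ih =>
      refine ih.trans ?_
      show (st j).2 <+: (st (j + 1)).2
      rw [hη, List.append_assoc]
      exact List.prefix_append _ _
  · intro i
    refine ⟨(st i).2 ++ List.replicate (pr i (st i)).1 false, ?_, ?_⟩
    · rw [hc]; rfl
    · show _ <+: (st (i + 1)).2
      rw [hη]
      have hlt : (pr i (st i)).1 < (pr i (st i)).2 := hP1 _ _ _
      obtain ⟨d, hd⟩ : ∃ d, (pr i (st i)).2 = (pr i (st i)).1 + 1 + d :=
        ⟨(pr i (st i)).2 - (pr i (st i)).1 - 1, by omega⟩
      rw [hd, List.replicate_add, List.replicate_add]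
      simp only [List.append_assoc]
      refine ⟨List.replicate d false ++ [true], ?_⟩
      simp
  · intro i
    have h1 : ∀ x, col i c x = col i (st i).1 x := fun x =>
      hcol i c (st i).1 x fun j hj => (hstab j i hj).symm
    rw [h1, h1, hc]
    exact hP2 i (col i (st i).1) (st i).2

end H968F
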