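import Pool.Agent.helper968_nsop1.Amal

/-!
A countable infinite type without computable equality, independence of closed sets, and triples
of sets.
-/

namespace H968F

open Classical Finset

/-- A copy of the natural numbers (on which equality is decided classically). -/
structure NN : Type where
  n : ℕ

/-- The bijection with the natural numbers. -/
def NN.equiv : NN ≃ ℕ := ⟨NN.n, NN.mk, fun _ => rfl, fun _ => rfl⟩

instance : Countable NN := NN.equiv.countable_iff.2 inferInstance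

instance : Infinite NN := NN.equiv.infinite_iff.2 inferInstance

variable {V : Type}

/-- `A` and `B` are independent over `A ∩ B`. -/
def Ind (G : SimpleGraph V) (A B : Finset V) : Prop :=
  ∀ Z : Finset V, A ∪ B ⊆ Z → dl G A + dl G B ≤ dl G Z + dl G (A ∩ B)

/-- Three sets, pairwise independent in the third one. -/
structure Tri (G : SimpleGraph V) (A B C : Finset V) : Prop where
  free : ∀ u ∈ A ∪ B ∪ C, ∀ v ∈ A ∪ B ∪ C, G.Adj u v →
    (u ∈ A ∧ v ∈ A) ∨ (u ∈ B ∧ v ∈ B) ∨ (u ∈ C ∧ v ∈ C)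
  indA : ∀ Z : Finset V, (A ∩ B) ∪ (A ∩ C) ⊆ Z → Z ⊆ A →
    dl G (A ∩ B) + dl G (A ∩ C) ≤ dl G Z + dl G (A ∩ B ∩ C)
  indB : ∀ Z : Finset V, (A ∩ B) ∪ (B ∩ C) ⊆ Z → Z ⊆ B →
    dl G (A ∩ B) + dl G (B ∩ C) ≤ dl G Z + dl G (A ∩ B ∩ C)
  indC : ∀ Z : Finset V, (A ∩ C) ∪ (B ∩ C) ⊆ Z → Z ⊆ C →
    dl G (A ∩ C) + dl G (B ∩ C) ≤ dl G Z + dl G (A ∩ B ∩ C)
  zAB : Cl G (A ∩ B ∩ C) ((A ∩ B : Finset V) : Set V)
  zAC : Cl G (A ∩ B ∩ C) ((A ∩ C : Finset V) : Set V)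
  zBC : Cl G (A ∩ B ∩ C) ((B ∩ C : Finset V) : Set V)
  ABA : Cl G (A ∩ B) (A : Set V)
  ABB : Cl G (A ∩ B) (B : Set V)
  ACA : Cl G (A ∩ C) (A : Set V)
  ACC : Cl G (A ∩ C) (C : Set V)
  BCB : Cl G (B ∩ C) (B : Set V)
  BCC : Cl G (B ∩ C) (C : Set V)

end H968F
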