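import Pool.Agent.helper968_nsop1.Base

/-!
Closure operators (definition).
-/

namespace H968F

open Classical Finset

variable {M : Type}

/-- The bound for the size of closures. -/
def bd (n : ℕ) : ℕ := 3 ^ (2 * n) + 3 * (3 ^ (2 * n)) ^ 2

/-- Closure operators: `gc` for the graph and `fc` for the whole structure. -/
structure Clos (r : Rels M) (gc fc : Finset M → Finset M) : Prop where
  gc_sub : ∀ X, X ⊆ gc X
  gc_cl : ∀ X, Cl r.G (gc X) Set.univ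
  gc_min : ∀ X B, Cl r.G B Set.univ → X ⊆ B → gc X ⊆ B
  gc_le : ∀ X Z, X ⊆ Z → dl r.G (gc X) ≤ dl r.G Z
  fc_sub : ∀ X, X ⊆ fc X
  fc_cl : ∀ X, ClR r (fc X) Set.univ
  fc_min : ∀ X B, ClR r B Set.univ → X ⊆ B → fc X ⊆ B
  fc_card : ∀ X, (fc X).card ≤ bd X.card
  fc_col : ∀ X, ∀ v ∈ fc X, v ∉ gc X → r.C v

theorem bd_mono : Monotone bd := by
  intro a b h
  have h1 : 3 ^ (2 * a) ≤ 3 ^ (2 * b) := Nat.pow_le_pow_right (by norm_num) (by omega)
  have h2 : (3 ^ (2 * a)) ^ 2 ≤ (3 ^ (2 * b)) ^ 2 := Nat.pow_le_pow_left h1 2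
  unfold bd
  omega

end H968F
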