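import Mathlib

/-!
A counting argument (by helper404).
-/

namespace H968F

open Classical Finset

theorem cfg404_drop (f : ℕ → ℤ) (hf : ∀ i, f (i + 1) ≤ f i) (B : ℕ) (h0 : ∀ i, 0 ≤ f i)
    (hB : f 0 ≤ (B : ℤ)) : ∃ i, i ≤ B ∧ f (i + 1) = f i := by
  by_contra hcon
  push Not at hcon
  have h1 : ∀ i : ℕ, i ≤ B + 1 → f i ≤ f 0 - i := by
    intro i
    induction i with
    | zero => intro _; simp
    | succ i ih =>
      intro hi
      have h2 := ih (by omega)
      have h3 := hf i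
      have h4 := hcon i (by omega)
      push_cast
      omega
  have h5 := h1 (B + 1) le_rfl
  have h6 := h0 (B + 1)
  push_cast at h5
  omega

theorem exists_config {M : Type} (fc : Finset M → Finset M) (d : Finset M → ℤ) (bd : ℕ → ℕ)
    (m k : ℕ)
    (hbd : Monotone bd)
    (fc_sub : ∀ X, X ⊆ fc X)
    (fc_mono : ∀ X Y, X ⊆ fc Y → fc X ⊆ fc Y)
    (fc_card : ∀ X, (fc X).card ≤ bd X.card)
    (hd_mono : ∀ X Y, X ⊆ Y → d X ≤ d Y)
    (hd_sub : ∀ X Y, d (X ∪ Y) + d (X ∩ Y) ≤ d X + d Y)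
    (hd_le : ∀ X Y, d (X ∪ Y) ≤ d X + 2 * (Y.card : ℤ))
    (row : ℕ → Finset M) (hrow : ∀ i, (row i).card ≤ m)
    (A : ℕ → Finset M) (hA : ∀ n, (A n).card ≤ k) :
    ∃ (n j p q : ℕ), j ≤ p ∧ p < q ∧ q < n ∧
      d (fc ((Finset.range j).biUnion row) ∪ A n ∪ row p) +
          d (fc ((Finset.range j).biUnion row)) =
        d (fc ((Finset.range j).biUnion row) ∪ A n) +
          d (fc ((Finset.range j).biUnion row) ∪ row p) ∧
      d (fc ((Finset.range j).biUnion row) ∪ A n ∪ row q) +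
          d (fc ((Finset.range j).biUnion row)) =
        d (fc ((Finset.range j).biUnion row) ∪ A n) +
          d (fc ((Finset.range j).biUnion row) ∪ row q) ∧
      d (fc ((Finset.range j).biUnion row) ∪ row p ∪ row q) +
          d (fc ((Finset.range j).biUnion row)) =
        d (fc ((Finset.range j).biUnion row) ∪ row p) +
          d (fc ((Finset.range j).biUnion row) ∪ row q) ∧
      ∀ v ∈ fc (fc ((Finset.range j).biUnion row) ∪ row p),
        (v ∈ fc (fc ((Finset.range j).biUnion row) ∪ A n) ∨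
          v ∈ fc (fc ((Finset.range j).biUnion row) ∪ row q)) →
        v ∈ fc ((Finset.range p).biUnion row) := by
  -- the prefix sets
  obtain ⟨pre, hpre⟩ : ∃ pre : ℕ → Finset M, pre = fun j => (Finset.range j).biUnion row := ⟨_, rfl⟩
  have hpre' : ∀ j, (Finset.range j).biUnion row = pre j := fun j => by rw [hpre]
  simp only [hpre']
  have pre_mono : ∀ i j, i ≤ j → pre i ⊆ pre j := by
    intro i j hij
    rw [hpre]
    exact Finset.biUnion_subset_biUnion_of_subset_left _ (Finset.range_subset_range.2 hij)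
  have row_pre : ∀ i j, i < j → row i ⊆ pre j := by
    intro i j hij
    rw [hpre]
    exact Finset.subset_biUnion_of_mem row (Finset.mem_range.2 hij)
  have pre_card : ∀ j, (pre j).card ≤ m * j := by
    intro j
    rw [hpre]
    refine Finset.card_biUnion_le.trans ?_
    refine (Finset.sum_le_sum fun i _ => hrow i).trans ?_
    rw [Finset.sum_const, Finset.card_range, smul_eq_mul, mul_comm]
  have fc_mono' : ∀ X Y, X ⊆ Y → fc X ⊆ fc Y := fun X Y h => fc_mono X Y (h.trans (fc_sub Y))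
  have fcpre_mono : ∀ i j, i ≤ j → fc (pre i) ⊆ fc (pre j) := fun i j h =>
    fc_mono' _ _ (pre_mono i j h)
  -- the relative rank
  obtain ⟨ρ, hρ⟩ : ∃ ρ : Finset M → Finset M → ℤ, ρ = fun X Y => d (Y ∪ X) - d Y := ⟨_, rfl⟩
  have ρ_def : ∀ X Y, ρ X Y = d (Y ∪ X) - d Y := fun X Y => by rw [hρ]
  have ρ_nonneg : ∀ X Y, 0 ≤ ρ X Y := by
    intro X Y
    rw [ρ_def]
    have := hd_mono Y (Y ∪ X) Finset.subset_union_left
    omega
  have ρ_le : ∀ X Y, ρ X Y ≤ 2 * (X.card : ℤ) := by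
    intro X Y
    rw [ρ_def]
    have := hd_le Y X
    omega
  have ρ_anti : ∀ X Y Y', Y ⊆ Y' → ρ X Y' ≤ ρ X Y := by
    intro X Y Y' h
    rw [ρ_def, ρ_def]
    have h1 := hd_sub (Y ∪ X) Y'
    have h2 : (Y ∪ X) ∪ Y' = Y' ∪ X := by
      rw [Finset.union_comm (Y ∪ X) Y', ← Finset.union_assoc, Finset.union_eq_left.2 h]
    have h3 := hd_mono Y ((Y ∪ X) ∩ Y') (Finset.subset_inter Finset.subset_union_left h)
    rw [h2] at h1
    omega
  have ρ_sand : ∀ X Y Z Y', Y ⊆ Z → Z ⊆ Y' → ρ X Y' = ρ X Y → ρ X Z = ρ X Y := by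
    intro X Y Z Y' h1 h2 h3
    have h4 := ρ_anti X Y Z h1
    have h5 := ρ_anti X Z Y' h2
    omega
  -- the blocks
  obtain ⟨N0, hN0⟩ : ∃ N0 : ℕ → ℕ, N0 = fun j => bd (bd (m * j) + k) + bd (bd (m * j) + m) :=
    ⟨_, rfl⟩
  obtain ⟨J, hJ0, hJs⟩ : ∃ J : ℕ → ℕ, J 0 = 0 ∧ ∀ s, J (s + 1) = J s + N0 (J s) + 2 :=
    ⟨fun s => Nat.rec 0 (fun _ x => x + N0 x + 2) s, rfl, fun s => rfl⟩
  have hJmono : StrictMono J := strictMono_nat_of_lt_succ fun s => by rw [hJs]; omega
  obtain ⟨t, ht⟩ : ∃ t : ℕ, t = 2 * m + 1 := ⟨_, rfl⟩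
  obtain ⟨T, hT⟩ : ∃ T : ℕ, T = (2 * k + 1) * (t + 1) := ⟨_, rfl⟩
  obtain ⟨n, hn⟩ : ∃ n : ℕ, n = J T := ⟨_, rfl⟩
  -- first pigeonhole
  obtain ⟨r, hr, hr2⟩ := cfg404_drop (fun i => ρ (A n) (fc (pre (J (i * (t + 1)))))) (by
      intro i
      refine ρ_anti _ _ _ (fcpre_mono _ _ (hJmono.monotone ?_))
      exact Nat.mul_le_mul_right _ (Nat.le_succ i)) (2 * k) (fun i => ρ_nonneg _ _) (by
      refine (ρ_le _ _).trans ?_
      have := hA n
      push_cast
      omega)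
  obtain ⟨s0, hs0⟩ : ∃ s0 : ℕ, s0 = r * (t + 1) := ⟨_, rfl⟩
  have hs0' : (r + 1) * (t + 1) = s0 + t + 1 := by rw [hs0]; ring
  simp only [hs0', ← hs0] at hr2
  have hs0T : s0 + t + 1 ≤ T := by
    rw [← hs0', hT]
    exact Nat.mul_le_mul_right _ (by omega)
  obtain ⟨q, hq⟩ : ∃ q : ℕ, q + 1 = J (s0 + t + 1) := by
    refine ⟨J (s0 + t + 1) - 1, ?_⟩
    have := hJs (s0 + t)
    omega
  have hqn : q < n := by
    have := hJmono.monotone hs0T
    omega
  have hqJ : J (s0 + t) ≤ q := by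
    have := hJs (s0 + t)
    omega
  -- second pigeonhole
  obtain ⟨i, hi, hi2⟩ := cfg404_drop (fun i => ρ (row q) (fc (pre (J (s0 + i))))) (by
      intro i
      refine ρ_anti _ _ _ (fcpre_mono _ _ (hJmono.monotone ?_))
      omega) (2 * m) (fun i => ρ_nonneg _ _) (by
      refine (ρ_le _ _).trans ?_
      have := hrow q
      push_cast
      omega)
  obtain ⟨s, hs⟩ : ∃ s : ℕ, s = s0 + i := ⟨_, rfl⟩
  have hs' : s0 + (i + 1) = s + 1 := by omega
  simp only [hs', ← hs] at hi2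
  obtain ⟨Y, hY⟩ : ∃ Y : Finset M, Y = fc (pre (J s)) := ⟨_, rfl⟩
  have hJtop : J (s + 1) ≤ J (s0 + t) := hJmono.monotone (by omega)
  have hJss : J s ≤ J (s0 + t + 1) := hJmono.monotone (by omega)
  have hρA : ρ (A n) (fc (pre (J (s0 + t + 1)))) = ρ (A n) Y := by
    rw [hY]
    have h1 := ρ_anti (A n) _ _ (fcpre_mono (J s0) (J s) (hJmono.monotone (by omega)))
    have h2 := ρ_anti (A n) _ _ (fcpre_mono (J s) (J (s0 + t + 1)) hJss)
    omega
  have hρq : ρ (row q) (fc (pre (J (s + 1)))) = ρ (row q) Y := by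
    rw [hY]; exact hi2
  have hYcard : Y.card ≤ bd (m * J s) := by
    rw [hY]
    exact (fc_card _).trans (hbd (pre_card _))
  -- a good row in the block
  have hgood : ∃ p, J s ≤ p ∧ p < J (s + 1) ∧ ∀ v ∈ fc (Y ∪ row p),
      (v ∈ fc (Y ∪ A n) ∨ v ∈ fc (Y ∪ row q)) → v ∈ fc (pre p) := by
    by_contra hcon
    push Not at hcon
    have hcon' : ∀ p, ∃ v, p ∈ Finset.Ico (J s) (J (s + 1)) → v ∈ fc (Y ∪ row p) ∧
        (v ∈ fc (Y ∪ A n) ∨ v ∈ fc (Y ∪ row q)) ∧ v ∉ fc (pre p) := by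
      intro p
      by_cases hp : p ∈ Finset.Ico (J s) (J (s + 1))
      · obtain ⟨v, hv1, hv2, hv3⟩ := hcon p (Finset.mem_Ico.1 hp).1 (Finset.mem_Ico.1 hp).2
        exact ⟨v, fun _ => ⟨hv1, hv2, hv3⟩⟩
      · obtain ⟨v, -⟩ := hcon (J s) le_rfl (hJmono (Nat.lt_succ_self s))
        exact ⟨v, fun h => absurd h hp⟩
    choose v hv using hcon'
    have hkey : ∀ p p', p ∈ Finset.Ico (J s) (J (s + 1)) → p' ∈ Finset.Ico (J s) (J (s + 1)) →
        p < p' → v p ≠ v p' := by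
      intro p p' hp hp' hlt heq
      apply (hv p' hp').2.2
      rw [← heq]
      have h1 : Y ∪ row p ⊆ fc (pre (p + 1)) := by
        refine Finset.union_subset ?_ ?_
        · rw [hY]
          exact fcpre_mono _ _ (by have := (Finset.mem_Ico.1 hp).1; omega)
        · exact (row_pre p (p + 1) (Nat.lt_succ_self p)).trans (fc_sub _)
      exact fcpre_mono (p + 1) p' hlt (fc_mono _ _ h1 (hv p hp).1)
    have hcard := Finset.card_le_card_of_injOn (s := Finset.Ico (J s) (J (s + 1)))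
      (t := fc (Y ∪ A n) ∪ fc (Y ∪ row q)) v (by
        intro p hp
        exact Finset.mem_coe.2 (Finset.mem_union.2 (hv p (Finset.mem_coe.1 hp)).2.1)) (by
        intro p hp p' hp' heq
        have hp1 := Finset.mem_coe.1 hp
        have hp2 := Finset.mem_coe.1 hp'
        rcases lt_trichotomy p p' with h | h | h
        · exact absurd heq (hkey p p' hp1 hp2 h)
        · exact h
        · exact absurd heq.symm (hkey p' p hp2 hp1 h))
    rw [Nat.card_Ico] at hcard
    have h1 : (fc (Y ∪ A n)).card ≤ bd (bd (m * J s) + k) := by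
      refine (fc_card _).trans (hbd ?_)
      refine (Finset.card_union_le _ _).trans ?_
      exact Nat.add_le_add hYcard (hA n)
    have h2 : (fc (Y ∪ row q)).card ≤ bd (bd (m * J s) + m) := by
      refine (fc_card _).trans (hbd ?_)
      refine (Finset.card_union_le _ _).trans ?_
      exact Nat.add_le_add hYcard (hrow q)
    have h3 := Finset.card_union_le (fc (Y ∪ A n)) (fc (Y ∪ row q))
    have h4 : N0 (J s) = bd (bd (m * J s) + k) + bd (bd (m * J s) + m) := by rw [hN0]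
    have h5 := hJs s
    omega
  obtain ⟨p, hp1, hp2, hp3⟩ := hgood
  have hYp : Y ∪ row p ⊆ fc (pre (J (s + 1))) := by
    refine Finset.union_subset ?_ ?_
    · rw [hY]
      exact fcpre_mono _ _ (hJmono.monotone (Nat.le_succ s))
    · exact (row_pre p _ hp2).trans (fc_sub _)
  have hYp2 : Y ∪ row p ⊆ fc (pre (J (s0 + t + 1))) :=
    hYp.trans (fcpre_mono _ _ (hJmono.monotone (by omega)))
  have hYq2 : Y ∪ row q ⊆ fc (pre (J (s0 + t + 1))) := by
    refine Finset.union_subset ?_ ?_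
    · rw [hY]
      exact fcpre_mono _ _ hJss
    · exact (row_pre q _ (by omega)).trans (fc_sub _)
  have e1 := ρ_sand (A n) Y (Y ∪ row p) _ Finset.subset_union_left hYp2 hρA
  have e2 := ρ_sand (A n) Y (Y ∪ row q) _ Finset.subset_union_left hYq2 hρA
  have e3 := ρ_sand (row q) Y (Y ∪ row p) _ Finset.subset_union_left hYp hρq
  rw [ρ_def, ρ_def] at e1 e2 e3
  refine ⟨n, J s, p, q, hp1, by omega, hqn, ?_, ?_, ?_, ?_⟩
  · rw [← hY, Finset.union_right_comm]
    omega
  · rw [← hY, Finset.union_right_comm]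
    omega
  · rw [← hY]
    omega
  · rw [← hY]
    exact hp3


end H968F
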