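import Pool.Agent.helper968_nsop1.Lang
import Pool.Agent.helper968_nsop1.Clos

/-!
Codes of tuples, finitely many types, a Ramsey statement.
-/

namespace H968F

open FirstOrder FirstOrder.Language Filter

section Code

variable {M : Type}

/-- Codes. -/
abbrev CodeT (κ : Type) : Type :=
  (κ → κ → Prop) × (κ → Prop) × (κ → Prop) × (κ → κ → Prop) × (κ → κ → κ → Prop) ×
    (κ → κ → κ → Prop)

theorem finite_codeT (κ : Type) [Finite κ] : Finite (CodeT κ) := inferInstance

/-- The code of a tuple. -/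
def code (r : Rels M) {κ : Type} (c : κ → M) : CodeT κ :=
  (fun u v => c u = c v, fun u => r.P (c u), fun u => r.C (c u), fun u v => r.G.Adj (c u) (c v),
    fun u v w => r.K (c u) (c v) (c w), fun u v w => r.S (c u) (c v) (c w))

open Classical in
/-- Tuples with the same code are isomorphic. -/
theorem of_code {r : Rels M} {κ : Type} {c c' : κ → M} (h : code r c = code r c') :
    ∃ f : M → M, RefOn r r (Set.range c) f ∧ ∀ u, f (c u) = c' u := by
  simp only [code, Prod.mk.injEq] at h
  obtain ⟨h1, h2, h6, h3, h4, h5⟩ := h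
  have e1 : ∀ u v, c u = c v ↔ c' u = c' v := fun u v => Iff.of_eq (congrFun (congrFun h1 u) v)
  have e2 : ∀ u, r.P (c u) ↔ r.P (c' u) := fun u => Iff.of_eq (congrFun h2 u)
  have e3 : ∀ u v, r.G.Adj (c u) (c v) ↔ r.G.Adj (c' u) (c' v) :=
    fun u v => Iff.of_eq (congrFun (congrFun h3 u) v)
  have e6 : ∀ u, r.C (c u) ↔ r.C (c' u) := fun u => Iff.of_eq (congrFun h6 u)
  have e4 : ∀ u v w, r.K (c u) (c v) (c w) ↔ r.K (c' u) (c' v) (c' w) :=
    fun u v w => Iff.of_eq (congrFun (congrFun (congrFun h4 u) v) w)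
  have e5 : ∀ u v w, r.S (c u) (c v) (c w) ↔ r.S (c' u) (c' v) (c' w) :=
    fun u v w => Iff.of_eq (congrFun (congrFun (congrFun h5 u) v) w)
  let f : M → M := fun x => if hx : ∃ u, c u = x then c' hx.choose else x
  have hf : ∀ u, f (c u) = c' u := by
    intro u
    have hx : ∃ v, c v = c u := ⟨u, rfl⟩
    have : f (c u) = c' hx.choose := dif_pos hx
    rw [this]
    exact (e1 _ _).1 hx.choose_spec
  refine ⟨f, ⟨?_, ?_, ?_, ?_, ?_, ?_⟩, hf⟩
  · rintro _ ⟨u, rfl⟩ _ ⟨v, rfl⟩ h
    rw [hf, hf] at h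
    exact (e1 _ _).2 h
  · rintro _ ⟨u, rfl⟩
    rw [hf]
    exact (e2 _).symm
  · rintro _ ⟨u, rfl⟩
    rw [hf]
    exact (e6 _).symm
  · rintro _ ⟨u, rfl⟩ _ ⟨v, rfl⟩
    rw [hf, hf]
    exact (e3 _ _).symm
  · rintro _ ⟨u, rfl⟩ _ ⟨v, rfl⟩ _ ⟨w, rfl⟩
    rw [hf, hf, hf]
    exact (e4 _ _ _).symm
  · rintro _ ⟨u, rfl⟩ _ ⟨v, rfl⟩ _ ⟨w, rfl⟩
    rw [hf, hf, hf]
    exact (e5 _ _ _).symm

open Classical in
theorem exists_enum {Y : Finset M} (hne : Y.Nonempty) {N : ℕ} (h : Y.card ≤ N) :
    ∃ c : Fin N → M, Finset.univ.image c = Y := by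
  obtain ⟨m, hm⟩ := hne
  refine ⟨fun i => if hi : (i : ℕ) < Y.card then (Y.equivFin.symm ⟨i, hi⟩ : M) else m, ?_⟩
  ext x
  simp only [Finset.mem_image, Finset.mem_univ, true_and]
  constructor
  · rintro ⟨i, rfl⟩
    split_ifs with hi
    · exact Finset.coe_mem _
    · exact hm
  · intro hx
    refine ⟨⟨Y.equivFin ⟨x, hx⟩, lt_of_lt_of_le (Fin.is_lt _) h⟩, ?_⟩
    simp

open Classical in
/-- Enumerated closures of tuples. -/
theorem exists_cl_enum [Nonempty M] {r : Rels M} {gc fc : Finset M → Finset M}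
    (h : Clos r gc fc) {κ : Type} [Fintype κ] (b : κ → M) :
    ∃ (c : Fin (bd (Fintype.card κ + 1)) → M) (idx : κ → Fin (bd (Fintype.card κ + 1))),
      ClR r (Finset.univ.image c) Set.univ ∧ ∀ i, b i = c (idx i) := by
  let m : M := Classical.arbitrary M
  set Y := fc (insert m (Finset.univ.image b)) with hY
  have h1 := h.fc_sub (insert m (Finset.univ.image b))
  have h4 : (insert m (Finset.univ.image b)).card ≤ Fintype.card κ + 1 := by
    refine (Finset.card_insert_le _ _).trans ?_
    have : (Finset.univ.image b).card ≤ Fintype.card κ := by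
      refine Finset.card_image_le.trans ?_
      simp
    omega
  have h5 : Y.card ≤ bd (Fintype.card κ + 1) := (h.fc_card _).trans (bd_mono h4)
  obtain ⟨c, hc⟩ := exists_enum ⟨m, h1 (Finset.mem_insert_self _ _)⟩ h5
  have h6 : ∀ i, ∃ j, b i = c j := by
    intro i
    have : b i ∈ Y := h1 (Finset.mem_insert_of_mem (Finset.mem_image_of_mem b (Finset.mem_univ i)))
    rw [hY, ← hc] at this
    obtain ⟨j, -, hj⟩ := Finset.mem_image.1 this
    exact ⟨j, hj.symm⟩
  choose idx hidx using h6
  exact ⟨c, idx, by rw [hc]; exact h.fc_cl _, hidx⟩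

theorem finite_range_of_key {A T K : Type*} [Finite K] (t : A → T) (key : A → K)
    (h : ∀ a a', key a = key a' → t a = t a') : (Set.range t).Finite := by
  classical
  rcases isEmpty_or_nonempty A with hA | hA
  · rw [Set.range_eq_empty]
    exact Set.finite_empty
  · refine (Set.finite_range (fun k : K => if hk : ∃ a, key a = k then t hk.choose
      else t (Classical.arbitrary A))).subset ?_
    rintro _ ⟨a, rfl⟩
    have hk : ∃ a', key a' = key a := ⟨a, rfl⟩
    refine ⟨key a, ?_⟩
    simp only [dif_pos hk]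
    exact h _ _ hk.choose_spec

open Classical in
/-- Tuples with enumerated closures of the same code. -/
theorem of_enum {r : Rels M} {N : ℕ} {c c' : Fin N → M} (h : code r c = code r c') :
    ∃ f : M → M, RefOn r r ((Finset.univ.image c : Finset M) : Set M) f ∧
      (Finset.univ.image c).image f = Finset.univ.image c' ∧ ∀ u, f (c u) = c' u := by
  obtain ⟨f, hf, hfc⟩ := of_code h
  have e1 : ((Finset.univ.image c : Finset M) : Set M) = Set.range c := by simp
  have e2 : (Finset.univ.image c).image f = Finset.univ.image c' := by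
    rw [Finset.image_image]
    congr 1
    exact funext hfc
  exact ⟨f, by rw [e1]; exact hf, e2, hfc⟩

theorem Clos.ex {r : Rels M} {gc fc : Finset M → Finset M} (h : Clos r gc fc) :
    ∀ X : Finset M, ∃ Y, X ⊆ Y ∧ ClR r Y Set.univ :=
  fun X => ⟨fc X, h.fc_sub X, h.fc_cl X⟩

/-- There are finitely many types. -/
theorem finite_types [LC.Structure M] [Nonempty M] {r : Rels M} (hr : Rep M r)
    (hax : Ax r Set.univ) (hEP : EP r) {gc fc : Finset M → Finset M} (hC : Clos r gc fc)
    (n : ℕ) :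
    (Set.range fun a : Fin n → M => {φ : LC.Formula (Fin n) | φ.Realize a}).Finite := by
  classical
  choose c idx hc hidx using fun a : Fin n → M => exists_cl_enum hC a
  refine finite_range_of_key _ (fun a => (code r (c a), idx a)) ?_
  intro a a' h
  simp only [Prod.mk.injEq] at h
  obtain ⟨f, hf, hfi, hfc⟩ := of_enum h.1
  have e3 : f ∘ a = a' := by
    funext i
    rw [Function.comp_apply, hidx a i, hfc, h.2, ← hidx a' i]
  ext φ
  show φ.Realize a ↔ φ.Realize a'
  rw [homog hr hax hC.ex hEP φ (hc a) (by rw [hfi]; exact hc a') hf (v := a)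
    (fun i => by
      rw [hidx a i]
      exact Finset.mem_image_of_mem _ (Finset.mem_univ _)), e3]

end Code

end H968F
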