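import Pool.Agent.helper968_nsop1.Clos

/-!
Existence and properties of closure operators (by helper929).
-/

namespace H968F

open Classical Finset

variable {M : Type}

namespace ClN

/-- A colour has no neighbour. -/
theorem col_iso {r : Rels M} (hax : Ax r Set.univ) {u v : M} (h : r.G.Adj u v) :
    ¬ r.C u ∧ ¬ r.C v :=
  ⟨(hax.iso u trivial v trivial h).2, (hax.iso v trivial u trivial h.symm).2⟩

/-- Adding colours does not change the edges. -/
theorem es_add {r : Rels M} (hax : Ax r Set.univ) {X Y : Finset M} (hXY : X ⊆ Y)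
    (h : ∀ v ∈ Y, v ∉ X → r.C v) : es r.G Y = es r.G X := by
  apply Finset.Subset.antisymm _ (es_mono hXY)
  intro e he
  rw [mem_es] at he ⊢
  refine ⟨?_, he.2⟩
  induction e using Sym2.inductionOn with
  | _ u v =>
    have h1 := col_iso hax (u := u) (v := v) (by simpa using he.2)
    intro a ha
    rcases Sym2.mem_iff.1 ha with rfl | rfl
    · by_contra hcon
      exact h1.1 (h a (he.1 a ha) hcon)
    · by_contra hcon
      exact h1.2 (h a (he.1 a ha) hcon)

/-- Adding colours. -/
theorem dl_add {r : Rels M} (hax : Ax r Set.univ) {X Y : Finset M} (hXY : X ⊆ Y)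
    (h : ∀ v ∈ Y, v ∉ X → r.C v) : dl r.G Y = dl r.G X + 2 * ((Y \ X).card : ℤ) := by
  have h1 := es_add hax hXY h
  have h2 := Finset.card_sdiff_add_card_eq_card hXY
  simp only [dl, h1]
  omega

end ClN

open ClN

theorem cl_add {r : Rels M} {A E : Finset M} (hax : Ax r Set.univ) (hA : Cl r.G A Set.univ)
    (hE : ∀ v ∈ E, r.C v) : Cl r.G (A ∪ E) Set.univ where
  sub := Set.subset_univ _
  lt Z _ hZ := by
    have h1 := dl_add hax (X := A) (Y := A ∪ E) Finset.subset_union_left (by
      intro v hv hvA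
      rcases Finset.mem_union.1 hv with h | h
      · exact absurd h hvA
      · exact hE v h)
    have h2 := dl_add hax (X := Z \ (E \ A)) (Y := Z) Finset.sdiff_subset (by
      intro v hv hvA
      by_contra hcon
      exact hvA (Finset.mem_sdiff.2 ⟨hv, fun h => hcon (hE v (Finset.mem_sdiff.1 h).1)⟩))
    have hAZ : A ⊆ Z := Finset.subset_union_left.trans hZ.1
    have hEZ : E ⊆ Z := Finset.subset_union_right.trans hZ.1
    have h3 : (A ∪ E) \ A = E \ A := by
      ext x
      simp only [Finset.mem_sdiff, Finset.mem_union]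
      tauto
    have h4 : Z \ (Z \ (E \ A)) = E \ A := by
      ext x
      simp only [Finset.mem_sdiff]
      constructor
      · rintro ⟨a, b⟩
        by_contra hcon
        exact b ⟨a, hcon⟩
      · rintro ⟨a, b⟩
        exact ⟨hEZ a, fun h => h.2 ⟨a, b⟩⟩
    rw [h3] at h1
    rw [h4] at h2
    have h5 : A ⊂ Z \ (E \ A) := by
      refine Finset.ssubset_iff_subset_ne.2 ⟨?_, ?_⟩
      · intro x hx
        exact Finset.mem_sdiff.2 ⟨hAZ hx, fun h => (Finset.mem_sdiff.1 h).2 hx⟩
      · intro heq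
        apply (Finset.ssubset_iff_subset_ne.1 hZ).2
        apply Finset.Subset.antisymm hZ.1
        intro x hx
        by_cases hxE : x ∈ E
        · exact Finset.mem_union_right _ hxE
        · apply Finset.mem_union_left
          rw [heq]
          exact Finset.mem_sdiff.2 ⟨hx, fun h => hxE (Finset.mem_sdiff.1 h).1⟩
    have h6 := hA.lt _ (Set.subset_univ _) h5
    omega

theorem clR_add {r : Rels M} {A E : Finset M} (hax : Ax r Set.univ) (hA : ClR r A Set.univ)
    (hE : ∀ v ∈ E, r.C v) : ClR r (A ∪ E) Set.univ where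
  cl := cl_add hax hA.cl hE
  K z hz w hw c _ h := by
    have h1 := col_iso hax (hax.KG z trivial w trivial c trivial h).1
    have hz' : z ∈ A := by
      rcases Finset.mem_union.1 hz with h2 | h2
      · exact h2
      · exact absurd (hE z h2) h1.1
    have hw' : w ∈ A := by
      rcases Finset.mem_union.1 hw with h2 | h2
      · exact h2
      · exact absurd (hE w h2) h1.2
    exact Finset.mem_union_left _ (hA.K z hz' w hw' c trivial h)
  S x hx z hz c _ h := by
    have hP := hax.SP x trivial z trivial c trivial h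
    have h1 := hax.PC x trivial hP
    have h2 := ((hax.act x trivial hP).col z trivial c trivial h).2.2
    have hx' : x ∈ A := by
      rcases Finset.mem_union.1 hx with h3 | h3
      · exact h3
      · exact absurd (hE x h3) h1
    have hz' : z ∈ A := by
      rcases Finset.mem_union.1 hz with h3 | h3
      · exact h3
      · exact absurd (hE z h3) h2
    exact Finset.mem_union_left _ (hA.S x hx' z hz' c trivial h)

namespace ClN

/-- The smallest closed set. -/
theorem exists_gc (r : Rels M) (hax : Ax r Set.univ) (X : Finset M) :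
    ∃ A : Finset M, X ⊆ A ∧ Cl r.G A Set.univ ∧ A.card ≤ 3 ^ (2 * X.card) ∧
      (∀ B, Cl r.G B Set.univ → X ⊆ B → A ⊆ B) ∧ ∀ Z, X ⊆ Z → dl r.G A ≤ dl r.G Z := by
  obtain ⟨A0, h1, h2, h3⟩ := hax.gr.exists_closed (X := X) (Set.subset_univ _)
  -- the minimal closed subset of `A0` containing `X`
  obtain ⟨A, hA, hmin⟩ := Finset.exists_min_image
    (A0.powerset.filter fun B => X ⊆ B ∧ Cl r.G B Set.univ) Finset.card
    ⟨A0, by simp [h1, h2]⟩
  simp only [Finset.mem_filter, Finset.mem_powerset] at hA hmin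
  have hm : ∀ B, Cl r.G B Set.univ → X ⊆ B → A ⊆ B := by
    intro B hB hXB
    have h4 := hmin (A ∩ B) ⟨Finset.inter_subset_left.trans hA.1,
      Finset.subset_inter hA.2.1 hXB, hA.2.2.inter hB⟩
    have h5 := Finset.eq_of_subset_of_card_le (Finset.inter_subset_left (s₁ := A) (s₂ := B)) h4
    rw [← h5]
    exact Finset.inter_subset_right
  refine ⟨A, hA.2.1, hA.2.2, (Finset.card_le_card hA.1).trans h3, hm, ?_⟩
  -- the minimal predimension
  obtain ⟨W, hW, hWm⟩ := Finset.exists_min_image
    (A.powerset.filter fun B => X ⊆ B)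
    (fun B => dl r.G B * ((A.card : ℤ) + 1) - (B.card : ℤ))
    ⟨A, by simp [hA.2.1]⟩
  simp only [Finset.mem_filter, Finset.mem_powerset] at hW hWm
  have hWc : Cl r.G W (A : Set M) := by
    refine ⟨by exact_mod_cast hW.1, fun Z hZ hWZ => ?_⟩
    have hZ' : Z ⊆ A := by exact_mod_cast hZ
    have h4 := hWm Z ⟨hZ', hW.2.trans hWZ.1⟩
    have h5 := Finset.card_lt_card hWZ
    by_contra hcon
    have h6 : dl r.G Z * ((A.card : ℤ) + 1) ≤ dl r.G W * ((A.card : ℤ) + 1) :=
      mul_le_mul_of_nonneg_right (by omega) (by positivity)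
    omega
  have hWA : A = W := Finset.Subset.antisymm (hm W (hWc.trans hA.2.2) hW.2) hW.1
  have hlow : ∀ Z, X ⊆ Z → Z ⊆ A → dl r.G A ≤ dl r.G Z := by
    intro Z h4 h5
    have h6 := hWm Z ⟨h5, h4⟩
    rw [← hWA] at h6
    by_contra hcon
    have h7 : (dl r.G Z + 1) * ((A.card : ℤ) + 1) ≤ dl r.G A * ((A.card : ℤ) + 1) :=
      mul_le_mul_of_nonneg_right (by omega) (by positivity)
    have h8 : (0 : ℤ) ≤ (Z.card : ℤ) := by positivity
    have h9 : (dl r.G Z + 1) * ((A.card : ℤ) + 1) =
      dl r.G Z * ((A.card : ℤ) + 1) + ((A.card : ℤ) + 1) := by ring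
    omega
  intro Z hZ
  have h4 := hlow (Z ∩ A) (Finset.subset_inter hZ hA.2.1) Finset.inter_subset_right
  have h5 := dl_submod (G := r.G) Z A
  have h6 := hA.2.2.le (Set.subset_univ _) (Finset.subset_union_right (s₁ := Z) (s₂ := A))
  omega

/-- The colours of the edges of `A`. -/
noncomputable def kc (r : Rels M) (A : Finset M) : Finset M :=
  (A ×ˢ A).biUnion fun p => if h : ∃ c, r.K p.1 p.2 c then {h.choose} else ∅

theorem mem_kc {r : Rels M} (hax : Ax r Set.univ) {A : Finset M} {c : M} :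
    c ∈ kc r A ↔ ∃ z ∈ A, ∃ w ∈ A, r.K z w c := by
  simp only [kc, Finset.mem_biUnion, Finset.mem_product]
  constructor
  · rintro ⟨⟨z, w⟩, ⟨hz, hw⟩, h⟩
    by_cases h1 : ∃ c, r.K z w c
    · rw [dif_pos h1, Finset.mem_singleton] at h
      exact ⟨z, hz, w, hw, h ▸ h1.choose_spec⟩
    · rw [dif_neg h1] at h
      exact absurd h (Finset.notMem_empty _)
  · rintro ⟨z, hz, w, hw, h⟩
    refine ⟨(z, w), ⟨hz, hw⟩, ?_⟩
    have h1 : ∃ c, r.K z w c := ⟨c, h⟩
    rw [dif_pos h1, Finset.mem_singleton]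
    exact hax.Kun z trivial w trivial c trivial _ trivial h h1.choose_spec

theorem card_kc (r : Rels M) (A : Finset M) : (kc r A).card ≤ A.card ^ 2 := by
  have h1 : (kc r A).card ≤ (A ×ˢ A).card * 1 := by
    apply Finset.card_biUnion_le_card_mul
    intro p _
    by_cases h : ∃ c, r.K p.1 p.2 c
    · rw [dif_pos h]
      simp
    · rw [dif_neg h]
      simp
  rw [Finset.card_product] at h1
  nlinarith [h1]

theorem two_set {s : M → Prop} (h : ∀ a b c, s a → s b → s c → a = b ∨ a = c ∨ b = c) :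
    ∃ T : Finset M, (∀ c, c ∈ T ↔ s c) ∧ T.card ≤ 2 := by
  by_cases h1 : ∃ a, s a
  · obtain ⟨a, ha⟩ := h1
    by_cases h2 : ∃ b, s b ∧ b ≠ a
    · obtain ⟨b, hb, hab⟩ := h2
      refine ⟨{a, b}, fun c => ?_, Finset.card_le_two⟩
      simp only [Finset.mem_insert, Finset.mem_singleton]
      constructor
      · rintro (rfl | rfl) <;> assumption
      · intro hc
        rcases h a b c ha hb hc with h3 | h3 | h3
        · exact absurd h3.symm hab
        · exact Or.inl h3.symm
        · exact Or.inr h3.symm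
    · refine ⟨{a}, fun c => ?_, by simp⟩
      rw [Finset.mem_singleton]
      constructor
      · rintro rfl
        exact ha
      · intro hc
        by_contra hcon
        exact h2 ⟨c, hc, hcon⟩
  · refine ⟨∅, fun c => ?_, by simp⟩
    constructor
    · intro hc
      exact absurd hc (Finset.notMem_empty _)
    · intro hc
      exact absurd ⟨c, hc⟩ h1

theorem exists_sv {r : Rels M} (hax : Ax r Set.univ) (x z : M) :
    ∃ T : Finset M, (∀ c, c ∈ T ↔ r.S x z c) ∧ T.card ≤ 2 := by
  apply two_set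
  intro a b c ha hb hc
  exact (hax.act x trivial (hax.SP x trivial z trivial a trivial ha)).two z trivial a trivial
    b trivial c trivial ha hb hc

/-- The choices of the points of `A` at elements of `A`. -/
theorem exists_sc {r : Rels M} (hax : Ax r Set.univ) (A : Finset M) :
    ∃ T : Finset M, (∀ c, c ∈ T ↔ ∃ x ∈ A, ∃ z ∈ A, r.S x z c) ∧ T.card ≤ 2 * A.card ^ 2 := by
  choose f hf1 hf2 using exists_sv hax
  refine ⟨(A ×ˢ A).biUnion fun p => f p.1 p.2, fun c => ?_, ?_⟩
  · simp only [Finset.mem_biUnion, Finset.mem_product, hf1]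
    constructor
    · rintro ⟨⟨x, z⟩, ⟨hx, hz⟩, h⟩
      exact ⟨x, hx, z, hz, h⟩
    · rintro ⟨x, hx, z, hz, h⟩
      exact ⟨(x, z), ⟨hx, hz⟩, h⟩
  · have h1 : ((A ×ˢ A).biUnion fun p => f p.1 p.2).card ≤ (A ×ˢ A).card * 2 := by
      apply Finset.card_biUnion_le_card_mul
      intro p _
      exact hf2 _ _
    rw [Finset.card_product] at h1
    nlinarith [h1]

end ClN

theorem exists_clos (r : Rels M) (hax : Ax r Set.univ) : ∃ gc fc, Clos r gc fc := by
  choose gc g1 g2 g3 g4 g5 using exists_gc r hax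
  choose sc s1 s2 using exists_sc hax
  have hkc : ∀ A, ∀ c ∈ kc r A, r.C c := by
    intro A c hc
    obtain ⟨z, _, w, _, h⟩ := (mem_kc hax).1 hc
    exact (hax.KG z trivial w trivial c trivial h).2
  have hsc : ∀ A, ∀ c ∈ sc A, r.C c := by
    intro A c hc
    obtain ⟨x, _, z, _, h⟩ := (s1 A c).1 hc
    exact ((hax.act x trivial (hax.SP x trivial z trivial c trivial h)).col z trivial c
      trivial h).1
  refine ⟨gc, fun X => gc X ∪ (kc r (gc X) ∪ sc (gc X)), ?_⟩
  have hcol : ∀ X, ∀ v ∈ kc r (gc X) ∪ sc (gc X), r.C v := by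
    intro X v hv
    rcases Finset.mem_union.1 hv with h | h
    · exact hkc _ v h
    · exact hsc _ v h
  refine ⟨g1, g2, fun X B hB hXB => g4 X B hB hXB, fun X Z hXZ => g5 X Z hXZ,
    fun X => (g1 X).trans Finset.subset_union_left, ?_, ?_, ?_, ?_⟩
  · intro X
    refine ⟨cl_add hax (g2 X) (hcol X), ?_, ?_⟩
    · intro z hz w hw c _ h
      have h1 := col_iso hax (hax.KG z trivial w trivial c trivial h).1
      have hz' : z ∈ gc X := by
        rcases Finset.mem_union.1 hz with h2 | h2
        · exact h2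
        · exact absurd (hcol X z h2) h1.1
      have hw' : w ∈ gc X := by
        rcases Finset.mem_union.1 hw with h2 | h2
        · exact h2
        · exact absurd (hcol X w h2) h1.2
      exact Finset.mem_union_right _ (Finset.mem_union_left _
        ((mem_kc hax).2 ⟨z, hz', w, hw', h⟩))
    · intro x hx z hz c _ h
      have hP := hax.SP x trivial z trivial c trivial h
      have h1 := hax.PC x trivial hP
      have h2 := ((hax.act x trivial hP).col z trivial c trivial h).2.2
      have hx' : x ∈ gc X := by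
        rcases Finset.mem_union.1 hx with h3 | h3
        · exact h3
        · exact absurd (hcol X x h3) h1
      have hz' : z ∈ gc X := by
        rcases Finset.mem_union.1 hz with h3 | h3
        · exact h3
        · exact absurd (hcol X z h3) h2
      exact Finset.mem_union_right _ (Finset.mem_union_right _
        ((s1 _ _).2 ⟨x, hx', z, hz', h⟩))
  · intro X B hB hXB
    have h1 : gc X ⊆ B := g4 X B hB.cl hXB
    apply Finset.union_subset h1
    apply Finset.union_subset
    · intro c hc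
      obtain ⟨z, hz, w, hw, h⟩ := (mem_kc hax).1 hc
      exact hB.K z (h1 hz) w (h1 hw) c trivial h
    · intro c hc
      obtain ⟨x, hx, z, hz, h⟩ := (s1 _ _).1 hc
      exact hB.S x (h1 hx) z (h1 hz) c trivial h
  · intro X
    have h1 := Finset.card_union_le (gc X) (kc r (gc X) ∪ sc (gc X))
    have h2 := Finset.card_union_le (kc r (gc X)) (sc (gc X))
    have h3 := card_kc r (gc X)
    have h4 := s2 (gc X)
    have h5 := g3 X
    have h6 : (gc X).card ^ 2 ≤ (3 ^ (2 * X.card)) ^ 2 := Nat.pow_le_pow_left h5 2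
    simp only [bd]
    omega
  · intro X v hv hv'
    rcases Finset.mem_union.1 hv with h | h
    · exact absurd h hv'
    · exact hcol X v h

theorem ind_iso {r : Rels M} (hax : Ax r Set.univ) {A B E F : Finset M} (h : Ind r.G A B)
    (hE : ∀ v ∈ E, r.C v) (hF : ∀ v ∈ F, r.C v) : Ind r.G (A ∪ E) (B ∪ F) := by
  intro Z hZ
  have hEA : ∀ v ∈ A ∪ E, v ∉ A → r.C v := by
    intro v hv hvA
    rcases Finset.mem_union.1 hv with h | h
    · exact absurd h hvA
    · exact hE v h
  have hFB : ∀ v ∈ B ∪ F, v ∉ B → r.C v := by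
    intro v hv hvB
    rcases Finset.mem_union.1 hv with h | h
    · exact absurd h hvB
    · exact hF v h
  have e1 : es r.G (A ∪ E) = es r.G A := es_add hax Finset.subset_union_left hEA
  have e2 : es r.G (B ∪ F) = es r.G B := es_add hax Finset.subset_union_left hFB
  have e3 : es r.G ((A ∪ E) ∩ (B ∪ F)) = es r.G (A ∩ B) := by
    rw [es_inter, es_inter, e1, e2]
  set N := (E ∪ F) \ (A ∪ B) with hN
  have hNZ : N ⊆ Z := by
    intro x hx
    rw [hN, Finset.mem_sdiff, Finset.mem_union] at hx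
    apply hZ
    rcases hx.1 with h1 | h1
    · exact Finset.mem_union_left _ (Finset.mem_union_right _ h1)
    · exact Finset.mem_union_right _ (Finset.mem_union_right _ h1)
  have e4 : es r.G Z = es r.G (Z \ N) := by
    apply es_add hax Finset.sdiff_subset
    intro v hv hv'
    have h1 : v ∈ N := by
      by_contra hcon
      exact hv' (Finset.mem_sdiff.2 ⟨hv, hcon⟩)
    rw [hN, Finset.mem_sdiff, Finset.mem_union] at h1
    rcases h1.1 with h2 | h2
    · exact hE v h2
    · exact hF v h2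
  have h1 := h (Z \ N) (by
    intro x hx
    refine Finset.mem_sdiff.2 ⟨?_, ?_⟩
    · apply hZ
      rcases Finset.mem_union.1 hx with h2 | h2
      · exact Finset.mem_union_left _ (Finset.mem_union_left _ h2)
      · exact Finset.mem_union_right _ (Finset.mem_union_left _ h2)
    · intro h2
      rw [hN, Finset.mem_sdiff] at h2
      exact h2.2 hx)
  have c1 := Finset.card_union_add_card_inter (A ∪ E) (B ∪ F)
  have c2 := Finset.card_union_add_card_inter A B
  have c3 : ((A ∪ E) ∪ (B ∪ F)).card = (A ∪ B).card + N.card := by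
    have h2 : (A ∪ E) ∪ (B ∪ F) = (A ∪ B) ∪ N := by
      ext x
      simp only [hN, Finset.mem_union, Finset.mem_sdiff]
      tauto
    rw [h2, Finset.card_union_of_disjoint]
    rw [hN]
    exact Finset.disjoint_sdiff
  have c4 := Finset.card_sdiff_add_card_eq_card hNZ
  simp only [dl, e1, e2, e3, e4] at h1 ⊢
  omega

theorem ind_rank {r : Rels M} {gc fc : Finset M → Finset M} (h : Clos r gc fc)
    {Y X1 X2 : Finset M} (hY : Cl r.G Y Set.univ)
    (he : dl r.G (gc (Y ∪ X1 ∪ X2)) + dl r.G Y = dl r.G (gc (Y ∪ X1)) + dl r.G (gc (Y ∪ X2))) :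
    gc (Y ∪ X1) ∩ gc (Y ∪ X2) = Y ∧ Ind r.G (gc (Y ∪ X1)) (gc (Y ∪ X2)) := by
  have hZ : ∀ Z, gc (Y ∪ X1) ∪ gc (Y ∪ X2) ⊆ Z → dl r.G (gc (Y ∪ X1 ∪ X2)) ≤ dl r.G Z := by
    intro Z hZ
    apply h.gc_le
    have h1 := Finset.union_subset_left hZ
    have h2 := Finset.union_subset_right hZ
    exact Finset.union_subset ((h.gc_sub _).trans h1)
      (Finset.subset_union_right.trans ((h.gc_sub _).trans h2))
  have h1 := hZ _ subset_rfl
  have h2 := dl_submod (G := r.G) (gc (Y ∪ X1)) (gc (Y ∪ X2))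
  have h3 : Y ⊆ gc (Y ∪ X1) ∩ gc (Y ∪ X2) :=
    Finset.subset_inter (Finset.subset_union_left.trans (h.gc_sub _))
      (Finset.subset_union_left.trans (h.gc_sub _))
  have h4 : gc (Y ∪ X1) ∩ gc (Y ∪ X2) = Y := by
    by_contra hcon
    have := hY.lt _ (Set.subset_univ _)
      (Finset.ssubset_iff_subset_ne.2 ⟨h3, fun h => hcon h.symm⟩)
    omega
  refine ⟨h4, fun Z hZ' => ?_⟩
  have h5 := hZ Z hZ'
  rw [h4]
  omega

/-- Extending an isomorphism of closed sets by the identity on colours. -/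
theorem ref_add {r : Rels M} (hax : Ax r Set.univ) {U U' Γ : Finset M} {f : M → M}
    (hU : ClR r U Set.univ) (hU' : ClR r U' Set.univ) (hf : RefOn r r (U : Set M) f)
    (hfi : U.image f = U') (hΓ : ∀ v ∈ Γ, r.C v) (h1 : ∀ v ∈ Γ, v ∈ U → f v = v)
    (h2 : ∀ v ∈ Γ, v ∈ U' → v ∈ U) :
    ∃ f' : M → M, RefOn r r ((U ∪ Γ : Finset M) : Set M) f' ∧ (U ∪ Γ).image f' = U' ∪ Γ ∧
      (∀ v ∈ U, f' v = f v) ∧ ∀ v ∈ Γ, f' v = v := by
  have hmem : ∀ v ∈ U, f v ∈ U' := fun v hv => hfi ▸ Finset.mem_image_of_mem f hv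
  set g : M → M := fun v => if v ∈ U then f v else v with hg
  have gU : ∀ v ∈ U, g v = f v := fun v hv => if_pos hv
  have gN : ∀ v, v ∉ U → g v = v := fun v hv => if_neg hv
  have gΓ : ∀ v ∈ Γ, g v = v := by
    intro v hv
    by_cases h : v ∈ U
    · rw [gU v h, h1 v hv h]
    · exact gN v h
  have hcase : ∀ v ∈ ((U ∪ Γ : Finset M) : Set M), v ∈ U ∨ (v ∉ U ∧ v ∈ Γ ∧ v ∉ U' ∧ r.C v) := by
    intro v hv
    by_cases h : v ∈ U
    · exact Or.inl h
    · have hvΓ : v ∈ Γ := by
        rcases Finset.mem_union.1 (Finset.mem_coe.1 hv) with h3 | h3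
        · exact absurd h3 h
        · exact h3
      exact Or.inr ⟨h, hvΓ, fun h3 => h (h2 v hvΓ h3), hΓ v hvΓ⟩
  refine ⟨g, ⟨?_, ?_, ?_, ?_, ?_, ?_⟩, ?_, gU, gΓ⟩
  · intro x hx y hy hxy
    rcases hcase x hx with hx' | hx' <;> rcases hcase y hy with hy' | hy'
    · rw [gU x hx', gU y hy'] at hxy
      exact hf.inj hx' hy' hxy
    · rw [gU x hx', gN y hy'.1] at hxy
      exact absurd (hxy ▸ hmem x hx') hy'.2.2.1
    · rw [gN x hx'.1, gU y hy'] at hxy
      exact absurd (hxy ▸ hmem y hy') hx'.2.2.1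
    · rw [gN x hx'.1, gN y hy'.1] at hxy
      exact hxy
  · intro x hx
    rcases hcase x hx with hx' | hx'
    · rw [gU x hx']
      exact hf.P x hx'
    · rw [gN x hx'.1]
  · intro x hx
    rcases hcase x hx with hx' | hx'
    · rw [gU x hx']
      exact hf.C x hx'
    · rw [gN x hx'.1]
  · intro x hx y hy
    rcases hcase x hx with hx' | hx' <;> rcases hcase y hy with hy' | hy'
    · rw [gU x hx', gU y hy']
      exact hf.G x hx' y hy'
    · rw [gN y hy'.1]
      exact ⟨fun h => absurd hy'.2.2.2 (col_iso hax h).2,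
        fun h => absurd hy'.2.2.2 (col_iso hax h).2⟩
    · rw [gN x hx'.1]
      exact ⟨fun h => absurd hx'.2.2.2 (col_iso hax h).1,
        fun h => absurd hx'.2.2.2 (col_iso hax h).1⟩
    · rw [gN x hx'.1, gN y hy'.1]
  · have hK : ∀ x v w, r.K x v w → ¬ r.C x ∧ ¬ r.C v := fun x v w h =>
      col_iso hax (hax.KG x trivial v trivial w trivial h).1
    intro x hx v hv w hw
    rcases hcase x hx with hx' | hx'
    swap
    · rw [gN x hx'.1]
      exact ⟨fun h => absurd hx'.2.2.2 (hK _ _ _ h).1, fun h => absurd hx'.2.2.2 (hK _ _ _ h).1⟩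
    rcases hcase v hv with hv' | hv'
    swap
    · rw [gN v hv'.1]
      exact ⟨fun h => absurd hv'.2.2.2 (hK _ _ _ h).2, fun h => absurd hv'.2.2.2 (hK _ _ _ h).2⟩
    rcases hcase w hw with hw' | hw'
    · rw [gU x hx', gU v hv', gU w hw']
      exact hf.K x hx' v hv' w hw'
    · rw [gU x hx', gU v hv', gN w hw'.1]
      exact ⟨fun h => absurd (hU'.K _ (hmem x hx') _ (hmem v hv') w trivial h) hw'.2.2.1,
        fun h => absurd (hU.K _ hx' _ hv' w trivial h) hw'.1⟩
  · have hS : ∀ x v w, r.S x v w → ¬ r.C x ∧ ¬ r.C v := fun x v w h => by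
      have hP := hax.SP x trivial v trivial w trivial h
      exact ⟨hax.PC x trivial hP, ((hax.act x trivial hP).col v trivial w trivial h).2.2⟩
    intro x hx v hv w hw
    rcases hcase x hx with hx' | hx'
    swap
    · rw [gN x hx'.1]
      exact ⟨fun h => absurd hx'.2.2.2 (hS _ _ _ h).1, fun h => absurd hx'.2.2.2 (hS _ _ _ h).1⟩
    rcases hcase v hv with hv' | hv'
    swap
    · rw [gN v hv'.1]
      exact ⟨fun h => absurd hv'.2.2.2 (hS _ _ _ h).2, fun h => absurd hv'.2.2.2 (hS _ _ _ h).2⟩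
    rcases hcase w hw with hw' | hw'
    · rw [gU x hx', gU v hv', gU w hw']
      exact hf.S x hx' v hv' w hw'
    · rw [gU x hx', gU v hv', gN w hw'.1]
      exact ⟨fun h => absurd (hU'.S _ (hmem x hx') _ (hmem v hv') w trivial h) hw'.2.2.1,
        fun h => absurd (hU.S _ hx' _ hv' w trivial h) hw'.1⟩
  · rw [Finset.image_union]
    have e1 : U.image g = U' := by
      rw [← hfi]
      exact Finset.image_congr fun v hv => gU v hv
    have e2 : Γ.image g = Γ := by
      conv_rhs => rw [← Finset.image_id (s := Γ)]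
      exact Finset.image_congr fun v hv => gΓ v hv
    rw [e1, e2]

end H968F
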