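import Pool.Agent.helper968_nsop1.AmalN

/-!
The generic structure (helper986, after the proof of a similar statement by helper176 in
Pool/Agent/helper968_exist/Generic.lean).
-/

namespace H968F

open Classical Finset

namespace Gen986

/-- The axioms pull back along maps which are onto. -/
theorem ax_pull {F V : Type} {Q : Rels F} {r : Rels V} {g : F → V}
    (h : RefOn Q r Set.univ g) {T : Set V} (hT : ∀ x, g x ∈ T) (hs : ∀ y ∈ T, ∃ x, g x = y)
    (hA : Ax r T) : Ax Q Set.univ := by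
  have u : ∀ x : F, x ∈ (Set.univ : Set F) := fun x => Set.mem_univ x
  refine ⟨⟨?_, ?_, ?_, ?_, ?_, ?_⟩, ?_, ?_⟩
  · intro X hX hne
    rw [← h.dl hX, ← Finset.card_image_of_injOn (h.inj.mono hX)]
    refine hA.gr (X.image g) ?_ (hne.image g)
    intro y hy
    obtain ⟨x, hx, rfl⟩ := Finset.mem_image.1 (Finset.mem_coe.1 hy)
    exact hT x
  · intro x _ hp hc
    exact hA.PC _ (hT x) ((h.P x (u x)).2 hp) ((h.C x (u x)).2 hc)
  · intro x _ y _ hxy
    have := hA.iso _ (hT x) _ (hT y) ((h.G x (u x) y (u y)).2 hxy)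
    rw [h.P x (u x), h.C x (u x)] at this
    exact this
  · intro z _ w _ c _ hk
    have := hA.KG _ (hT z) _ (hT w) _ (hT c) ((h.K z (u z) w (u w) c (u c)).2 hk)
    rw [h.G z (u z) w (u w), h.C c (u c)] at this
    exact this
  · intro z _ w _ hzw
    obtain ⟨c', h1, h2⟩ := hA.Kex _ (hT z) _ (hT w) ((h.G z (u z) w (u w)).2 hzw)
    obtain ⟨c, rfl⟩ := hs c' h1
    exact ⟨c, u c, (h.K z (u z) w (u w) c (u c)).1 h2⟩
  · intro z _ w _ c _ c' _ h1 h2
    exact h.inj (u c) (u c') (hA.Kun _ (hT z) _ (hT w) _ (hT c) _ (hT c')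
      ((h.K z (u z) w (u w) c (u c)).2 h1) ((h.K z (u z) w (u w) c' (u c')).2 h2))
  · intro x _ z _ c _ h1
    exact (h.P x (u x)).1 (hA.SP _ (hT x) _ (hT z) _ (hT c) ((h.S x (u x) z (u z) c (u c)).2 h1))
  · intro x _ hp
    have hact := hA.act _ (hT x) ((h.P x (u x)).2 hp)
    constructor
    · intro z _ c _ h1
      have := hact.col _ (hT z) _ (hT c) ((h.S x (u x) z (u z) c (u c)).2 h1)
      rw [h.C c (u c), h.P z (u z), h.C z (u z)] at this
      exact this
    · intro z _ a _ b _ c _ h1 h2 h3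
      rcases hact.two _ (hT z) _ (hT a) _ (hT b) _ (hT c) ((h.S x (u x) z (u z) a (u a)).2 h1)
        ((h.S x (u x) z (u z) b (u b)).2 h2) ((h.S x (u x) z (u z) c (u c)).2 h3) with k | k | k
      · exact Or.inl (h.inj (u a) (u b) k)
      · exact Or.inr (Or.inl (h.inj (u a) (u c) k))
      · exact Or.inr (Or.inr (h.inj (u b) (u c) k))
    · intro z _ w _ hzw
      rcases hact.cov _ (hT z) _ (hT w) ((h.G z (u z) w (u w)).2 hzw) with
        ⟨c', h1, h2, h3⟩ | ⟨c', h1, h2, h3⟩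
      · obtain ⟨c, rfl⟩ := hs c' h1
        exact Or.inl ⟨c, u c, (h.K z (u z) w (u w) c (u c)).1 h2,
          (h.S x (u x) z (u z) c (u c)).1 h3⟩
      · obtain ⟨c, rfl⟩ := hs c' h1
        exact Or.inr ⟨c, u c, (h.K w (u w) z (u z) c (u c)).1 h2,
          (h.S x (u x) w (u w) c (u c)).1 h3⟩

/-- Transfer of the axioms along the identity. -/
theorem ax_id {Q r : Rels NN} {A : Finset NN} (h : RefOn Q r (A : Set NN) id)
    (hA : Ax Q (A : Set NN)) : Ax r (A : Set NN) := by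
  have := h.ax hA
  rwa [Finset.image_id] at this

/-- Transfer of closedness along the identity. -/
theorem clR_id {Q r : Rels NN} {A B : Finset NN} (h : RefOn Q r (B : Set NN) id)
    (hA : ClR Q A (B : Set NN)) : ClR r A (B : Set NN) := by
  have := h.clR hA
  rwa [Finset.image_id, Finset.image_id] at this

theorem id_symm {Q r : Rels NN} {A : Set NN} (h : RefOn Q r A id) : RefOn r Q A id where
  inj := Set.injOn_id _
  P x hx := (h.P x hx).symm
  C x hx := (h.C x hx).symm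
  G x hx y hy := (h.G x hx y hy).symm
  K v hv a ha b hb := (h.K v hv a ha b hb).symm
  S x hx v hv w hw := (h.S x hx v hv w hw).symm

/-- Composition with an identity on the right hand side. -/
theorem comp_idG {F : Type} {Q : Rels F} {r s : Rels NN} {A : Set F} {g : F → NN}
    {T : Set NN} (h : RefOn Q r A g) (h' : RefOn r s T id) (hT : ∀ x ∈ A, g x ∈ T) :
    RefOn Q s A g where
  inj := h.inj
  P x hx := (h'.P _ (hT x hx)).trans (h.P x hx)
  C x hx := (h'.C _ (hT x hx)).trans (h.C x hx)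
  G x hx y hy := (h'.G _ (hT x hx) _ (hT y hy)).trans (h.G x hx y hy)
  K v hv a ha b hb := (h'.K _ (hT v hv) _ (hT a ha) _ (hT b hb)).trans (h.K v hv a ha b hb)
  S x hx v hv w hw := (h'.S _ (hT x hx) _ (hT v hv) _ (hT w hw)).trans (h.S x hx v hv w hw)

theorem rfl_id {Q : Rels NN} {A : Set NN} : RefOn Q Q A id where
  inj := Set.injOn_id _
  P _ _ := Iff.rfl
  C _ _ := Iff.rfl
  G _ _ _ _ := Iff.rfl
  K _ _ _ _ _ _ := Iff.rfl
  S _ _ _ _ _ _ := Iff.rfl

/-- The conditions. -/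
structure Cond where
  S : Finset NN
  R : Rels NN
  ax : Ax R (S : Set NN)

/-- The order of the conditions. -/
structure Cond.Le (p q : Cond) : Prop where
  sub : p.S ⊆ q.S
  ref : RefOn p.R q.R (p.S : Set NN) id
  cl : ClR q.R p.S (q.S : Set NN)

theorem Cond.Le.refl (p : Cond) : p.Le p := ⟨Finset.Subset.refl _, rfl_id, ClR.refl _ _⟩

theorem Cond.Le.trans {p q r : Cond} (h : p.Le q) (h' : q.Le r) : p.Le r where
  sub := h.sub.trans h'.sub
  ref := comp_idG h.ref h'.ref fun _ hx => h.sub hx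
  cl := (clR_id h'.ref h.cl).trans h'.cl

/-- The trivial relations. -/
def triv : Rels NN where
  G := ⊥
  P _ := False
  C _ := False
  K _ _ _ := False
  S _ _ _ := False

/-- The empty condition. -/
def Cond.empty : Cond where
  S := ∅
  R := triv
  ax := by
    refine ⟨⟨?_, ?_, ?_, ?_, ?_, ?_⟩, ?_, ?_⟩
    · intro X hX hne
      obtain ⟨x, hx⟩ := hne
      exact absurd (hX hx) (by simp)
    all_goals simp

/-- Restriction of the relations to a finite set. -/
def restr (r : Rels NN) (S : Finset NN) : Rels NN where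
  G := { Adj := fun x y => r.G.Adj x y ∧ x ∈ S ∧ y ∈ S
         symm := ⟨fun _ _ h => ⟨h.1.symm, h.2.2, h.2.1⟩⟩
         loopless := ⟨fun _ h => h.1.ne rfl⟩ }
  P x := r.P x ∧ x ∈ S
  C x := r.C x ∧ x ∈ S
  K z w c := r.K z w c ∧ z ∈ S ∧ w ∈ S ∧ c ∈ S
  S x z c := r.S x z c ∧ x ∈ S ∧ z ∈ S ∧ c ∈ S

theorem restr_ref (r : Rels NN) (S : Finset NN) : RefOn r (restr r S) (S : Set NN) id where
  inj := Set.injOn_id _
  P x hx := ⟨fun h => h.1, fun h => ⟨h, hx⟩⟩
  C x hx := ⟨fun h => h.1, fun h => ⟨h, hx⟩⟩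
  G x hx y hy := ⟨fun h => h.1, fun h => ⟨h, hx, hy⟩⟩
  K v hv a ha b hb := ⟨fun h => h.1, fun h => ⟨h, hv, ha, hb⟩⟩
  S x hx v hv w hw := ⟨fun h => h.1, fun h => ⟨h, hx, hv, hw⟩⟩

theorem Cond.add_one (p : Cond) (k : NN) : ∃ q : Cond, p.Le q ∧ k ∈ q.S := by
  by_cases hk : k ∈ p.S
  · exact ⟨p, Cond.Le.refl p, hk⟩
  obtain ⟨r, hr⟩ : ∃ r, r = restr p.R p.S := ⟨_, rfl⟩
  have href : RefOn p.R r (p.S : Set NN) id := hr ▸ restr_ref p.R p.S
  have hS : Ax r (p.S : Set NN) := ax_id href p.ax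
  have hP : ∀ x, r.P x → x ∈ p.S := fun x h => by rw [hr] at h; exact h.2
  have hC : ∀ x, r.C x → x ∈ p.S := fun x h => by rw [hr] at h; exact h.2
  have hG : ∀ x y, r.G.Adj x y → x ∈ p.S ∧ y ∈ p.S := fun x y h => by rw [hr] at h; exact h.2
  have hK : ∀ z w c, r.K z w c → z ∈ p.S ∧ w ∈ p.S ∧ c ∈ p.S :=
    fun z w c h => by rw [hr] at h; exact h.2
  have hSS : ∀ x z c, r.S x z c → x ∈ p.S ∧ z ∈ p.S ∧ c ∈ p.S :=
    fun x z c h => by rw [hr] at h; exact h.2
  have hTg : Gr r.G (({k} : Finset NN) : Set NN) := by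
    intro X hX hne
    have hXk : X = {k} := by
      have h1 : X ⊆ {k} := by exact_mod_cast hX
      rcases Finset.subset_singleton_iff.1 h1 with h | h
      · exact absurd h hne.ne_empty
      · exact h
    subst hXk
    have hes : es r.G ({k} : Finset NN) = ∅ := by
      ext e
      simp only [Finset.notMem_empty, iff_false]
      intro he
      rw [mem_es] at he
      induction e using Sym2.inductionOn with
      | _ x y =>
        have h1 := (hG x y he.2).1
        have h2 := he.1 x (by simp)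
        rw [Finset.mem_singleton] at h2
        exact hk (h2 ▸ h1)
    have : dl r.G ({k} : Finset NN) = 2 := by
      simp only [dl, hes]
      simp
    rw [this]
    simp
  have hint : p.S ∩ {k} = ∅ := by
    ext x
    simp only [Finset.mem_inter, Finset.mem_singleton, Finset.notMem_empty, iff_false]
    rintro ⟨h1, rfl⟩
    exact hk h1
  have hfree : Free r.G p.S {k} := fun u _ v _ h => Or.inl (hG u v h)
  have hcS : Cl r.G (p.S ∩ {k}) (p.S : Set NN) := by
    rw [hint]; exact hS.gr.cl_empty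
  have hcT : Cl r.G (p.S ∩ {k}) (({k} : Finset NN) : Set NN) := by
    rw [hint]; exact hTg.cl_empty
  have mem : ∀ {x : NN}, x ∈ p.S → x ∈ ((p.S ∪ {k} : Finset NN) : Set NN) :=
    fun h => Finset.mem_coe.2 (Finset.mem_union_left _ h)
  have hax : Ax r ((p.S ∪ {k} : Finset NN) : Set NN) := by
    refine ⟨⟨hfree.gr hS.gr hTg hcS hcT, ?_, ?_, ?_, ?_, ?_⟩, ?_, ?_⟩
    · intro x _ h1 h2
      exact hS.PC x (hP x h1) h1 h2
    · intro u _ v _ h1
      exact hS.iso u (hG u v h1).1 v (hG u v h1).2 h1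
    · intro z _ w _ c _ h1
      obtain ⟨a, b, d⟩ := hK z w c h1
      exact hS.KG z a w b c d h1
    · intro z _ w _ h1
      obtain ⟨c, h2, h3⟩ := hS.Kex z (hG z w h1).1 w (hG z w h1).2 h1
      exact ⟨c, mem h2, h3⟩
    · intro z _ w _ c _ c' _ h1 h2
      obtain ⟨a, b, d⟩ := hK z w c h1
      exact hS.Kun z a w b c d c' (hK z w c' h2).2.2 h1 h2
    · intro x _ z _ c _ h1
      obtain ⟨a, b, d⟩ := hSS x z c h1
      exact hS.SP x a z b c d h1
    · intro x _ hp
      have hx := hP x hp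
      have hact := hS.act x hx hp
      constructor
      · intro z _ c _ h1
        obtain ⟨a, b, d⟩ := hSS x z c h1
        exact hact.col z b c d h1
      · intro z _ a _ b _ c _ h1 h2 h3
        exact hact.two z (hSS x z a h1).2.1 a (hSS x z a h1).2.2 b (hSS x z b h2).2.2 c
          (hSS x z c h3).2.2 h1 h2 h3
      · intro z _ w _ h1
        rcases hact.cov z (hG z w h1).1 w (hG z w h1).2 h1 with ⟨c, k1, k2, k3⟩ | ⟨c, k1, k2, k3⟩
        · exact Or.inl ⟨c, mem k1, k2, k3⟩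
        · exact Or.inr ⟨c, mem k1, k2, k3⟩
  refine ⟨⟨p.S ∪ {k}, r, hax⟩, ⟨Finset.subset_union_left, href, ⟨hfree.closed hcT, ?_, ?_⟩⟩,
    Finset.mem_union_right _ (Finset.mem_singleton_self k)⟩
  · intro z _ w _ c _ h1
    exact (hK z w c h1).2.2
  · intro x _ z _ c _ h1
    exact (hSS x z c h1).2.2

theorem Cond.add_finset (p : Cond) (t : Finset NN) : ∃ q : Cond, p.Le q ∧ t ⊆ q.S := by
  induction t using Finset.induction_on with
  | empty => exact ⟨p, Cond.Le.refl p, Finset.empty_subset _⟩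
  | insert a t _ ih =>
    obtain ⟨q, h1, h2⟩ := ih
    obtain ⟨r, h3, h4⟩ := q.add_one a
    refine ⟨r, h1.trans h3, ?_⟩
    intro x hx
    rcases Finset.mem_insert.1 hx with rfl | hx
    · exact h4
    · exact h3.sub (h2 hx)

/-- The condition `c` solves the problem. -/
def Cond.Solves (c : Cond) {n : ℕ} (Q : Rels (Fin n)) (A : Finset (Fin n)) (g : Fin n → NN) :
    Prop :=
  (∀ x ∈ A, g x ∈ c.S) ∧ (RefOn Q c.R (A : Set (Fin n)) g → ClR c.R (A.image g) (c.S : Set NN) →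
    ∃ g' : Fin n → NN, (∀ x, g' x ∈ c.S) ∧ RefOn Q c.R Set.univ g' ∧ (∀ x ∈ A, g' x = g x) ∧
      ClR c.R (Finset.univ.image g') (c.S : Set NN))

/-- The problems can be solved. -/
theorem Cond.solve (p : Cond) {n : ℕ} (Q : Rels (Fin n)) (A : Finset (Fin n)) (g : Fin n → NN)
    (hQ : Ax Q Set.univ) (hA : ClR Q A Set.univ) : ∃ q : Cond, p.Le q ∧ q.Solves Q A g := by
  obtain ⟨p', hp', hgp⟩ := p.add_finset (A.image g)
  have hgS : ∀ x ∈ A, g x ∈ p'.S := fun x hx => hgp (Finset.mem_image_of_mem g hx)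
  by_cases hR : RefOn Q p'.R (A : Set (Fin n)) g
  swap
  · exact ⟨p', hp', hgS, fun h => absurd h hR⟩
  by_cases hC : ClR p'.R (A.image g) (p'.S : Set NN)
  swap
  · exact ⟨p', hp', hgS, fun _ h => absurd h hC⟩
  have hQ' : Ax Q ((Finset.univ : Finset (Fin n)) : Set (Fin n)) := by
    rw [Finset.coe_univ]; exact hQ
  have hA' : ClR Q A ((Finset.univ : Finset (Fin n)) : Set (Fin n)) := by
    rw [Finset.coe_univ]; exact hA
  obtain ⟨Q', e, k1, k2, k3, k4, k5, k6, k7⟩ :=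
    amalg_inf p'.R p'.S p'.ax Q A Finset.univ hQ' hA' g hR hC
  refine ⟨⟨p'.S ∪ Finset.univ.image e, Q', k5⟩, hp'.trans ⟨Finset.subset_union_left, k1, k6⟩,
    fun x hx => Finset.mem_union_left _ (hgS x hx), fun _ _ => ?_⟩
  refine ⟨e, fun x => Finset.mem_union_right _ (Finset.mem_image_of_mem e (Finset.mem_univ x)), ?_,
    k3, k7⟩
  rw [Finset.coe_univ] at k2
  exact k2

/-- A chain meeting countably many dense sets. -/
theorem exists_cond_chain (D : ℕ → Cond → Prop)
    (hD : ∀ (i : ℕ) (c : Cond), ∃ c' : Cond, c.Le c' ∧ D i c') :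
    ∃ p : ℕ → Cond, (∀ n m, n ≤ m → (p n).Le (p m)) ∧ ∀ i, D i (p (i + 1)) := by
  choose f hf1 hf2 using hD
  let p : ℕ → Cond := fun n => Nat.rec Cond.empty (fun n c => f n c) n
  have hp : ∀ n, p (n + 1) = f n (p n) := fun n => rfl
  refine ⟨p, fun n m h => ?_, fun i => ?_⟩
  · induction m, h using Nat.le_induction with
    | base => exact Cond.Le.refl _
    | succ m _ ih =>
      refine ih.trans ?_
      rw [hp]
      exact hf1 m (p m)
  · rw [hp]
    exact hf2 i (p i)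

theorem finite_rels (n : ℕ) : Finite (Rels (Fin n)) := by
  let f : Rels (Fin n) → (Fin n → Fin n → Prop) × (Fin n → Prop) × (Fin n → Prop) ×
      (Fin n → Fin n → Fin n → Prop) × (Fin n → Fin n → Fin n → Prop) :=
    fun R => (R.G.Adj, R.P, R.C, R.K, R.S)
  have hf : Function.Injective f := by
    rintro ⟨G, P, C, K, S⟩ ⟨G', P', C', K', S'⟩ h
    simp only [f, Prod.mk.injEq] at h
    obtain ⟨h1, rfl, rfl, rfl, rfl⟩ := h
    have : G = G' := SimpleGraph.ext h1
    rw [this]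
  exact Finite.of_injective f hf

/-- The problems. -/
abbrev Prob : Type := Σ n : ℕ, Rels (Fin n) × Finset (Fin n) × (Fin n → NN)

theorem countable_prob : Countable Prob := by
  have := finite_rels
  infer_instance

end Gen986

open Gen986 in
theorem exists_generic : ∃ r : Rels NN, Ax r Set.univ ∧ EP r := by
  have : Nonempty (NN ⊕ Prob) := ⟨Sum.inl ⟨0⟩⟩
  have := countable_prob
  obtain ⟨enum, henum⟩ := exists_surjective_nat (NN ⊕ Prob)
  let Dn : (NN ⊕ Prob) → Cond → Prop := fun i c =>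
    match i with
    | Sum.inl k => k ∈ c.S
    | Sum.inr P => Ax P.2.1 Set.univ → ClR P.2.1 P.2.2.1 Set.univ →
        c.Solves P.2.1 P.2.2.1 P.2.2.2
  have hDn : ∀ (i : ℕ) (c : Cond), ∃ c' : Cond, c.Le c' ∧ Dn (enum i) c' := by
    intro i c
    cases enum i with
    | inl k => exact c.add_one k
    | inr P =>
      by_cases h1 : Ax P.2.1 Set.univ
      · by_cases h2 : ClR P.2.1 P.2.2.1 Set.univ
        · obtain ⟨q, h3, h4⟩ := c.solve P.2.1 P.2.2.1 P.2.2.2 h1 h2
          exact ⟨q, h3, fun _ _ => h4⟩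
        · exact ⟨c, Cond.Le.refl c, fun _ h => absurd h h2⟩
      · exact ⟨c, Cond.Le.refl c, fun h => absurd h h1⟩
  obtain ⟨p, hmono, hmeet⟩ := exists_cond_chain (fun i => Dn (enum i)) hDn
  -- the limit
  let r : Rels NN :=
    { G := { Adj := fun x y => ∃ n, x ∈ (p n).S ∧ y ∈ (p n).S ∧ (p n).R.G.Adj x y
             symm := ⟨fun _ _ ⟨n, h1, h2, h3⟩ => ⟨n, h2, h1, h3.symm⟩⟩
             loopless := ⟨fun _ ⟨_, _, _, h3⟩ => h3.ne rfl⟩ }
      P := fun x => ∃ n, x ∈ (p n).S ∧ (p n).R.P x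
      C := fun x => ∃ n, x ∈ (p n).S ∧ (p n).R.C x
      K := fun z w c => ∃ n, z ∈ (p n).S ∧ w ∈ (p n).S ∧ c ∈ (p n).S ∧ (p n).R.K z w c
      S := fun x v w => ∃ n, x ∈ (p n).S ∧ v ∈ (p n).S ∧ w ∈ (p n).S ∧ (p n).R.S x v w }
  have href : ∀ n, RefOn (p n).R r ((p n).S : Set NN) id := by
    intro n
    constructor
    · exact Set.injOn_id _
    · intro x hx
      refine ⟨?_, fun h => ⟨n, hx, h⟩⟩
      rintro ⟨m, h1, hm⟩
      rcases le_total n m with h | h
      · exact ((hmono n m h).ref.P x hx).1 hm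
      · exact ((hmono m n h).ref.P x h1).2 hm
    · intro x hx
      refine ⟨?_, fun h => ⟨n, hx, h⟩⟩
      rintro ⟨m, h1, hm⟩
      rcases le_total n m with h | h
      · exact ((hmono n m h).ref.C x hx).1 hm
      · exact ((hmono m n h).ref.C x h1).2 hm
    · intro x hx y hy
      refine ⟨?_, fun h => ⟨n, hx, hy, h⟩⟩
      rintro ⟨m, h1, h2, hm⟩
      rcases le_total n m with h | h
      · exact ((hmono n m h).ref.G x hx y hy).1 hm
      · exact ((hmono m n h).ref.G x h1 y h2).2 hm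
    · intro x hx v hv w hw
      refine ⟨?_, fun h => ⟨n, hx, hv, hw, h⟩⟩
      rintro ⟨m, h1, h2, h3, hm⟩
      rcases le_total n m with h | h
      · exact ((hmono n m h).ref.K x hx v hv w hw).1 hm
      · exact ((hmono m n h).ref.K x h1 v h2 w h3).2 hm
    · intro x hx v hv w hw
      refine ⟨?_, fun h => ⟨n, hx, hv, hw, h⟩⟩
      rintro ⟨m, h1, h2, h3, hm⟩
      rcases le_total n m with h | h
      · exact ((hmono n m h).ref.S x hx v hv w hw).1 hm
      · exact ((hmono m n h).ref.S x h1 v h2 w h3).2 hm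
  have hcov : ∀ k, ∃ n, k ∈ (p n).S := by
    intro k
    obtain ⟨i, hi⟩ := henum (Sum.inl k)
    refine ⟨i + 1, ?_⟩
    have := hmeet i
    simp only [hi] at this
    exact this
  have hmem : ∀ {n m : ℕ} {x : NN}, n ≤ m → x ∈ (p n).S → x ∈ (p m).S :=
    fun h hx => (hmono _ _ h).sub hx
  have hcovf : ∀ s : Finset NN, ∃ n, s ⊆ (p n).S := by
    intro s
    induction s using Finset.induction_on with
    | empty => exact ⟨0, Finset.empty_subset _⟩
    | insert a s _ ih =>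
      obtain ⟨n, hn⟩ := ih
      obtain ⟨m, hm⟩ := hcov a
      refine ⟨max n m, fun x hx => ?_⟩
      rcases Finset.mem_insert.1 hx with rfl | hx
      · exact hmem (le_max_right _ _) hm
      · exact hmem (le_max_left _ _) (hn hx)
  have hcov5 : ∀ a b c d e : NN, ∃ n, a ∈ ((p n).S : Set NN) ∧ b ∈ ((p n).S : Set NN) ∧
      c ∈ ((p n).S : Set NN) ∧ d ∈ ((p n).S : Set NN) ∧ e ∈ ((p n).S : Set NN) := by
    intro a b c d e
    obtain ⟨n, hn⟩ := hcovf {a, b, c, d, e}
    exact ⟨n, hn (by simp), hn (by simp), hn (by simp), hn (by simp), hn (by simp)⟩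
  have u : ∀ x : NN, x ∈ (Set.univ : Set NN) := fun x => Set.mem_univ x
  have hax : ∀ n, Ax r ((p n).S : Set NN) := fun n => ax_id (href n) (p n).ax
  have hAx : Ax r Set.univ := by
    refine ⟨⟨?_, ?_, ?_, ?_, ?_, ?_⟩, ?_, ?_⟩
    · intro X _ hne
      obtain ⟨n, hn⟩ := hcovf X
      exact (hax n).gr X (by exact_mod_cast hn) hne
    · intro x _
      obtain ⟨n, h1, -, -, -, -⟩ := hcov5 x x x x x
      exact (hax n).PC x h1
    · intro x _ y _
      obtain ⟨n, h1, h2, -, -, -⟩ := hcov5 x y x x x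
      exact (hax n).iso x h1 y h2
    · intro z _ w _ c _
      obtain ⟨n, h1, h2, h3, -, -⟩ := hcov5 z w c z z
      exact (hax n).KG z h1 w h2 c h3
    · intro z _ w _ hzw
      obtain ⟨n, h1, h2, -, -, -⟩ := hcov5 z w z z z
      obtain ⟨c, h3, h4⟩ := (hax n).Kex z h1 w h2 hzw
      exact ⟨c, u c, h4⟩
    · intro z _ w _ c _ c' _
      obtain ⟨n, h1, h2, h3, h4, -⟩ := hcov5 z w c c' z
      exact (hax n).Kun z h1 w h2 c h3 c' h4
    · intro x _ z _ c _
      obtain ⟨n, h1, h2, h3, -, -⟩ := hcov5 x z c x x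
      exact (hax n).SP x h1 z h2 c h3
    · intro x _ hp
      constructor
      · intro z _ c _
        obtain ⟨n, h1, h2, h3, -, -⟩ := hcov5 x z c x x
        exact ((hax n).act x h1 hp).col z h2 c h3
      · intro z _ a _ b _ c _
        obtain ⟨n, h1, h2, h3, h4, h5⟩ := hcov5 x z a b c
        exact ((hax n).act x h1 hp).two z h2 a h3 b h4 c h5
      · intro z _ w _ hzw
        obtain ⟨n, h1, h2, h3, -, -⟩ := hcov5 x z w x x
        rcases ((hax n).act x h1 hp).cov z h2 w h3 hzw with ⟨c, k1, k2, k3⟩ | ⟨c, k1, k2, k3⟩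
        · exact Or.inl ⟨c, u c, k2, k3⟩
        · exact Or.inr ⟨c, u c, k2, k3⟩
  have hclR : ∀ n m, n ≤ m → ClR r (p n).S ((p m).S : Set NN) :=
    fun n m h => clR_id (href m) (hmono n m h).cl
  have hcl : ∀ n, ClR r (p n).S Set.univ := by
    intro n
    refine ⟨⟨Set.subset_univ _, fun X _ hX => ?_⟩, ?_, ?_⟩
    · obtain ⟨m, hm⟩ := hcovf X
      refine (hclR n (max n m) (le_max_left _ _)).cl.lt X ?_ hX
      have : X ⊆ (p (max n m)).S := fun x hx => hmem (le_max_right _ _) (hm hx)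
      exact_mod_cast this
    · intro z hz w hw c _ h1
      obtain ⟨m, hm⟩ := hcov c
      exact (hclR n (max n m) (le_max_left _ _)).K z hz w hw c (hmem (le_max_right _ _) hm) h1
    · intro x hx z hz c _ h1
      obtain ⟨m, hm⟩ := hcov c
      exact (hclR n (max n m) (le_max_left _ _)).S x hx z hz c (hmem (le_max_right _ _) hm) h1
  have hep0 : ∀ (n : ℕ) (Q : Rels (Fin n)) (A : Finset (Fin n)), Ax Q Set.univ →
      ClR Q A Set.univ → ∀ g : Fin n → NN, RefOn Q r (A : Set (Fin n)) g →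
      ClR r (A.image g) Set.univ → ∃ g' : Fin n → NN,
      RefOn Q r Set.univ g' ∧ (∀ x ∈ A, g' x = g x) ∧ ClR r (Finset.univ.image g') Set.univ := by
    intro n Q A hQ hA g hg hgc
    obtain ⟨i, hi⟩ := henum (Sum.inr ⟨n, Q, A, g⟩)
    have h1 := hmeet i
    simp only [hi] at h1
    have h2 : (p (i + 1)).Solves Q A g := h1 hQ hA
    have hag := href (i + 1)
    have hclc := hcl (i + 1)
    obtain ⟨h3, h4⟩ := h2
    have h5 : RefOn Q (p (i + 1)).R (A : Set (Fin n)) g :=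
      comp_idG hg (id_symm hag) fun x hx => h3 x hx
    have h6 : ClR (p (i + 1)).R (A.image g) ((p (i + 1)).S : Set NN) := by
      refine clR_id (id_symm hag) (hgc.mono ?_ (Set.subset_univ _))
      intro y hy
      obtain ⟨x, hx, rfl⟩ := Finset.mem_image.1 (Finset.mem_coe.1 hy)
      exact h3 x hx
    obtain ⟨g', k1, k2, k3, k4⟩ := h4 h5 h6
    exact ⟨g', comp_idG k2 hag fun x _ => k1 x, k3, (clR_id hag k4).trans hclc⟩
  refine ⟨r, hAx, ?_⟩
  intro F Q A B g hQ hA hg hgc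
  have hAB : A ⊆ B := by exact_mod_cast hA.cl.sub
  let e : {x // x ∈ B} ≃ Fin B.card := B.equivFin
  let ε : Fin B.card → F := fun i => (e.symm i : F)
  have hεB : ∀ i, ε i ∈ B := fun i => (e.symm i).2
  have hεinj : Function.Injective ε := fun i j h => e.symm.injective (Subtype.ext h)
  have hεe : ∀ (x : F) (hx : x ∈ B), ε (e ⟨x, hx⟩) = x := by
    intro x hx
    simp [ε]
  let Q' : Rels (Fin B.card) :=
    { G := Q.G.comap ε
      P := fun x => Q.P (ε x)
      C := fun x => Q.C (ε x)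
      K := fun z w c => Q.K (ε z) (ε w) (ε c)
      S := fun x v w => Q.S (ε x) (ε v) (ε w) }
  have hε : RefOn Q' Q Set.univ ε :=
    ⟨fun x _ y _ h => hεinj h, fun _ _ => Iff.rfl, fun _ _ => Iff.rfl, fun _ _ _ _ => Iff.rfl,
      fun _ _ _ _ _ _ => Iff.rfl, fun _ _ _ _ _ _ => Iff.rfl⟩
  have hQ' : Ax Q' Set.univ := ax_pull hε (fun x => hεB x)
    (fun y hy => ⟨e ⟨y, hy⟩, hεe y hy⟩) hQ
  let A' : Finset (Fin B.card) := Finset.univ.filter fun i => ε i ∈ A
  have hmA : ∀ i, i ∈ A' ↔ ε i ∈ A := fun i => by simp [A']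
  have hA'im : A'.image ε = A := by
    ext x
    rw [Finset.mem_image]
    constructor
    · rintro ⟨i, hi, rfl⟩
      exact (hmA i).1 hi
    · intro hx
      refine ⟨e ⟨x, hAB hx⟩, ?_, hεe x (hAB hx)⟩
      rw [hmA, hεe]
      exact hx
  have hA' : ClR Q' A' Set.univ := by
    refine ⟨⟨Set.subset_univ _, fun X _ hX => ?_⟩, ?_, ?_⟩
    · have h1 : dl Q.G (A'.image ε) = dl Q'.G A' := hε.dl (Set.subset_univ _)
      have h2 : dl Q.G (X.image ε) = dl Q'.G X := hε.dl (Set.subset_univ _)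
      rw [← h1, ← h2, hA'im]
      refine hA.cl.lt _ ?_ ?_
      · intro y hy
        obtain ⟨x, _, rfl⟩ := Finset.mem_image.1 (Finset.mem_coe.1 hy)
        exact hεB x
      · rw [← hA'im]
        exact (Finset.image_ssubset_image hεinj).2 hX
    · intro z hz w hw c _ h1
      exact (hmA c).2 (hA.K _ ((hmA z).1 hz) _ ((hmA w).1 hw) _ (hεB c) h1)
    · intro x hx z hz c _ h1
      exact (hmA c).2 (hA.S _ ((hmA x).1 hx) _ ((hmA z).1 hz) _ (hεB c) h1)
  have hgA : RefOn Q' r (A' : Set (Fin B.card)) (fun i => g (ε i)) := by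
    refine ⟨fun x hx y hy h => hεinj (hg.inj ((hmA x).1 hx) ((hmA y).1 hy) h),
      fun x hx => hg.P _ ((hmA x).1 hx), fun x hx => hg.C _ ((hmA x).1 hx),
      fun x hx y hy => hg.G _ ((hmA x).1 hx) _ ((hmA y).1 hy),
      fun v hv a ha b hb => hg.K _ ((hmA v).1 hv) _ ((hmA a).1 ha) _ ((hmA b).1 hb),
      fun x hx v hv w hw => hg.S _ ((hmA x).1 hx) _ ((hmA v).1 hv) _ ((hmA w).1 hw)⟩
  have hgim : A'.image (fun i => g (ε i)) = A.image g := by
    rw [← hA'im, Finset.image_image]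
    rfl
  obtain ⟨g', k1, k2, k3⟩ := hep0 _ Q' A' hQ' hA' _ hgA (by rw [hgim]; exact hgc)
  let G : F → NN := fun x => if h : x ∈ B then g' (e ⟨x, h⟩) else ⟨0⟩
  have hG : ∀ (x : F) (hx : x ∈ B), G x = g' (e ⟨x, hx⟩) := fun x hx => by simp [G, hx]
  have u : ∀ i : Fin B.card, i ∈ (Set.univ : Set (Fin B.card)) := fun i => Set.mem_univ i
  refine ⟨G, ?_, ?_, ?_⟩
  · constructor
    · intro x hx y hy h
      rw [hG x hx, hG y hy] at h
      have := e.injective (k1.inj (u _) (u _) h)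
      exact congrArg Subtype.val this
    · intro x hx
      rw [hG x hx, k1.P _ (u _)]
      show Q.P (ε (e ⟨x, hx⟩)) ↔ _
      rw [hεe]
    · intro x hx
      rw [hG x hx, k1.C _ (u _)]
      show Q.C (ε (e ⟨x, hx⟩)) ↔ _
      rw [hεe]
    · intro x hx y hy
      rw [hG x hx, hG y hy, k1.G _ (u _) _ (u _)]
      show Q.G.Adj (ε (e ⟨x, hx⟩)) (ε (e ⟨y, hy⟩)) ↔ _
      rw [hεe, hεe]
    · intro x hx v hv w hw
      rw [hG x hx, hG v hv, hG w hw, k1.K _ (u _) _ (u _) _ (u _)]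
      show Q.K (ε (e ⟨x, hx⟩)) (ε (e ⟨v, hv⟩)) (ε (e ⟨w, hw⟩)) ↔ _
      rw [hεe, hεe, hεe]
    · intro x hx v hv w hw
      rw [hG x hx, hG v hv, hG w hw, k1.S _ (u _) _ (u _) _ (u _)]
      show Q.S (ε (e ⟨x, hx⟩)) (ε (e ⟨v, hv⟩)) (ε (e ⟨w, hw⟩)) ↔ _
      rw [hεe, hεe, hεe]
  · intro x hx
    rw [hG x (hAB hx), k2 _ (by rw [hmA, hεe]; exact hx), hεe]
  · have : B.image G = Finset.univ.image g' := by
      ext y
      simp only [Finset.mem_image, Finset.mem_univ, true_and]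
      constructor
      · rintro ⟨x, hx, rfl⟩
        exact ⟨e ⟨x, hx⟩, (hG x hx).symm⟩
      · rintro ⟨i, rfl⟩
        refine ⟨ε i, hεB i, ?_⟩
        rw [hG _ (hεB i)]
        refine congrArg g' ?_
        exact e.apply_symm_apply i
    rw [this]
    exact k3

end H968F
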