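import Pool.Agent.helper968_nsop1.Base

/-!
Stars in the generic structure.
-/

namespace H968F

open Classical Finset

/-- A closed edge with its two colours. -/
structure Edge {M : Type} (r : Rels M) (u v a b : M) : Prop where
  adj : r.G.Adj u v
  Kuv : r.K u v a
  Kvu : r.K v u b
  ne : a ≠ b
  cl : ClR r {u, v, a, b} Set.univ

namespace StarN

/-- The infinite star with isolated colours. -/
def starG : SimpleGraph ℕ where
  Adj a b := (a = 0 ∧ b % 3 = 1) ∨ (b = 0 ∧ a % 3 = 1)
  symm := ⟨fun _ _ h => h.symm⟩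
  loopless := ⟨fun a h => by rcases h with ⟨h1, h2⟩ | ⟨h1, h2⟩ <;> (subst h1; simp at h2)⟩

theorem starG_adj (a b : ℕ) : starG.Adj a b ↔ (a = 0 ∧ b % 3 = 1) ∨ (b = 0 ∧ a % 3 = 1) :=
  Iff.rfl

/-- The star with its colours. -/
def starQ : Rels ℕ where
  G := starG
  P _ := False
  C x := x ≠ 0 ∧ x % 3 ≠ 1
  K z w c := (z = 0 ∧ w % 3 = 1 ∧ c = w + 1) ∨ (w = 0 ∧ z % 3 = 1 ∧ c = z + 2)
  S _ _ _ := False

theorem es_star_zero {X : Finset ℕ} (h0 : 0 ∈ X) :
    es starG X = (X.filter (fun a => a % 3 = 1)).image (fun a => s(0, a)) := by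
  ext e
  induction e using Sym2.inductionOn with
  | _ a b =>
    rw [mem_es]
    simp only [Sym2.mem_iff, forall_eq_or_imp, forall_eq, SimpleGraph.mem_edgeSet, starG_adj,
      Finset.mem_image, Finset.mem_filter]
    constructor
    · rintro ⟨⟨ha, hb⟩, ⟨h1, h2⟩ | ⟨h1, h2⟩⟩
      · exact ⟨b, ⟨hb, h2⟩, by rw [h1]⟩
      · exact ⟨a, ⟨ha, h2⟩, by rw [h1]; exact Sym2.eq_swap⟩
    · rintro ⟨c, ⟨h1, h2⟩, h3⟩
      rw [Sym2.eq_iff] at h3
      rcases h3 with ⟨rfl, rfl⟩ | ⟨rfl, rfl⟩
      · exact ⟨⟨h0, h1⟩, Or.inl ⟨rfl, h2⟩⟩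
      · exact ⟨⟨h1, h0⟩, Or.inr ⟨rfl, h2⟩⟩

theorem es_star_nonzero {X : Finset ℕ} (h0 : 0 ∉ X) : es starG X = ∅ := by
  rw [Finset.eq_empty_iff_forall_notMem]
  intro e
  induction e using Sym2.inductionOn with
  | _ a b =>
    rw [mem_es]
    simp only [Sym2.mem_iff, forall_eq_or_imp, forall_eq, SimpleGraph.mem_edgeSet, starG_adj]
    rintro ⟨⟨ha, hb⟩, ⟨h1, h2⟩ | ⟨h1, h2⟩⟩
    · exact h0 (h1 ▸ ha)
    · exact h0 (h1 ▸ hb)

theorem dl_star_zero {X : Finset ℕ} (h0 : 0 ∈ X) :
    dl starG X = 2 * (X.card : ℤ) - ((X.filter (fun a => a % 3 = 1)).card : ℤ) := by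
  have h1 : (es starG X).card = (X.filter (fun a => a % 3 = 1)).card := by
    rw [es_star_zero h0, Finset.card_image_of_injective]
    intro a b h
    exact Sym2.congr_right.1 h
  simp only [dl, h1]

theorem dl_star_nonzero {X : Finset ℕ} (h0 : 0 ∉ X) : dl starG X = 2 * X.card := by
  simp [dl, es_star_nonzero h0]

theorem four_mul_le (n : ℕ) (hn : 1 ≤ n) : 4 * n ≤ 3 ^ (n + 1) := by
  induction n, hn using Nat.le_induction with
  | base => norm_num
  | succ k hk ih =>
    rw [pow_succ]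
    have : 4 ≤ 3 ^ (k + 1) := by
      calc 4 ≤ 3 ^ (1 + 1) := by norm_num
        _ ≤ 3 ^ (k + 1) := Nat.pow_le_pow_right (by norm_num) (by omega)
    omega

theorem filter_lt {X : Finset ℕ} (h0 : 0 ∈ X) :
    (X.filter (fun a => a % 3 = 1)).card + 1 ≤ X.card := by
  have h1 : X.filter (fun a => a % 3 = 1) ⊆ X.erase 0 := by
    intro x hx
    obtain ⟨h2, h3⟩ := Finset.mem_filter.1 hx
    refine Finset.mem_erase.2 ⟨?_, h2⟩
    rintro rfl
    simp at h3
  have h2 := Finset.card_le_card h1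
  rw [Finset.card_erase_of_mem h0] at h2
  have h3 : 1 ≤ X.card := Finset.card_pos.2 ⟨0, h0⟩
  omega

theorem gr_star : Gr starG Set.univ := by
  intro X _ hne
  have h1 : 1 ≤ X.card := Finset.card_pos.2 hne
  by_cases h0 : 0 ∈ X
  · rw [dl_star_zero h0]
    have h2 := filter_lt h0
    refine (four_mul_le _ h1).trans (Nat.pow_le_pow_right (by norm_num) ?_)
    omega
  · rw [dl_star_nonzero h0]
    have : (2 * (X.card : ℤ)).toNat = 2 * X.card := by omega
    rw [this]
    refine (four_mul_le _ h1).trans (Nat.pow_le_pow_right (by norm_num) (by omega))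

theorem ax_star : Ax starQ Set.univ where
  gr := gr_star
  PC _ _ h := h.elim
  iso u _ v _ h := by
    refine ⟨fun h => h, ?_⟩
    rintro ⟨h1, h2⟩
    rcases h with ⟨h3, h4⟩ | ⟨h3, h4⟩
    · exact h1 h3
    · exact h2 h4
  KG z _ w _ c _ h := by
    rcases h with ⟨h1, h2, h3⟩ | ⟨h1, h2, h3⟩
    · exact ⟨Or.inl ⟨h1, h2⟩, by omega, by omega⟩
    · exact ⟨Or.inr ⟨h1, h2⟩, by omega, by omega⟩
  Kex z _ w _ h := by
    rcases h with ⟨h1, h2⟩ | ⟨h1, h2⟩
    · exact ⟨w + 1, trivial, Or.inl ⟨h1, h2, rfl⟩⟩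
    · exact ⟨z + 2, trivial, Or.inr ⟨h1, h2, rfl⟩⟩
  Kun z _ w _ c _ c' _ h h' := by
    rcases h with ⟨h1, h2, h3⟩ | ⟨h1, h2, h3⟩ <;> rcases h' with ⟨k1, k2, k3⟩ | ⟨k1, k2, k3⟩ <;>
      omega
  SP _ _ _ _ _ _ h := h.elim
  act _ _ h := h.elim

/-- With each leaf the set contains its colours. -/
structure Good (A : Finset ℕ) : Prop where
  zero : 0 ∈ A
  col : ∀ x ∈ A, x % 3 = 1 → x + 1 ∈ A ∧ x + 2 ∈ A

theorem clR_star {A : Finset ℕ} {U : Set ℕ} (h : Good A) (hAB : (A : Set ℕ) ⊆ U) :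
    ClR starQ A U where
  cl :=
    { sub := hAB
      lt := by
        intro X _ hAX
        change dl starG A < dl starG X
        rw [dl_star_zero h.zero, dl_star_zero (hAX.1 h.zero)]
        have h1 := Finset.card_lt_card hAX
        have h2 : (X.filter (fun a => a % 3 = 1)).card ≤
            (A.filter (fun a => a % 3 = 1)).card + (X \ A).card := by
          have h3 : X.filter (fun a => a % 3 = 1) ⊆ A.filter (fun a => a % 3 = 1) ∪ (X \ A) := by
            intro x hx
            obtain ⟨h4, h5⟩ := Finset.mem_filter.1 hx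
            by_cases hxA : x ∈ A
            · exact Finset.mem_union_left _ (Finset.mem_filter.2 ⟨hxA, h5⟩)
            · exact Finset.mem_union_right _ (Finset.mem_sdiff.2 ⟨h4, hxA⟩)
          exact (Finset.card_le_card h3).trans (Finset.card_union_le _ _)
        have h3 : (X \ A).card + A.card = X.card := Finset.card_sdiff_add_card_eq_card hAX.1
        omega }
  K z hz w hw c _ hK := by
    rcases hK with ⟨h1, h2, h3⟩ | ⟨h1, h2, h3⟩
    · rw [h3]; exact (h.col w hw h2).1
    · rw [h3]; exact (h.col z hz h2).2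
  S _ _ _ _ _ _ hS := hS.elim

theorem good_range (n : ℕ) : Good (Finset.range (3 * n + 1)) where
  zero := by simp
  col x hx h := by
    rw [Finset.mem_range] at hx
    rw [Finset.mem_range, Finset.mem_range]
    omega

theorem ax_star_fin {A : Finset ℕ} (h : Good A) : Ax starQ (A : Set ℕ) :=
  ax_star.sub (clR_star h (Set.subset_univ _))

theorem congr' {F V : Type} {Q : Rels F} {r : Rels V} {A : Set F} {g g' : F → V}
    (h : RefOn Q r A g) (hg : ∀ x ∈ A, g' x = g x) : RefOn Q r A g' where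
  inj x hx y hy hxy := by
    rw [hg x hx, hg y hy] at hxy
    exact h.inj hx hy hxy
  P x hx := by rw [hg x hx]; exact h.P x hx
  C x hx := by rw [hg x hx]; exact h.C x hx
  G x hx y hy := by rw [hg x hx, hg y hy]; exact h.G x hx y hy
  K v hv a ha b hb := by
    rw [hg v hv, hg a ha, hg b hb]
    exact h.K v hv a ha b hb
  S x hx v hv w hw := by
    rw [hg x hx, hg v hv, hg w hw]
    exact h.S x hx v hv w hw

/-- The map on the first four elements. -/
def f4 {M : Type} (u v a b : M) (n : ℕ) : M :=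
  match n with
  | 0 => u
  | 1 => v
  | 2 => a
  | _ => b

theorem ref_four {M : Type} {r : Rels M} (hax : Ax r Set.univ) {u v a b : M}
    (h : Edge r u v a b) :
    RefOn starQ r ((Finset.range 4 : Finset ℕ) : Set ℕ) (f4 u v a b) := by
  have huv : u ≠ v := h.adj.ne
  have hu := hax.iso u trivial v trivial h.adj
  have hv := hax.iso v trivial u trivial h.adj.symm
  have hCa : r.C a := (hax.KG _ trivial _ trivial _ trivial h.Kuv).2
  have hCb : r.C b := (hax.KG _ trivial _ trivial _ trivial h.Kvu).2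
  have hPa : ¬ r.P a := fun hp => hax.PC a trivial hp hCa
  have hPb : ¬ r.P b := fun hp => hax.PC b trivial hp hCb
  have hua : u ≠ a := fun e => hu.2 (e ▸ hCa)
  have hub : u ≠ b := fun e => hu.2 (e ▸ hCb)
  have hva : v ≠ a := fun e => hv.2 (e ▸ hCa)
  have hvb : v ≠ b := fun e => hv.2 (e ▸ hCb)
  have hab := h.ne
  have hnC : ∀ x y, r.G.Adj x y → ¬ r.C x := fun x y hxy =>
    (hax.iso x trivial y trivial hxy).2
  have hnC' : ∀ x y, r.G.Adj x y → ¬ r.C y := fun x y hxy =>
    (hax.iso y trivial x trivial hxy.symm).2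
  have hcase : ∀ x ∈ ((Finset.range 4 : Finset ℕ) : Set ℕ), x = 0 ∨ x = 1 ∨ x = 2 ∨ x = 3 := by
    intro x hx
    have : x < 4 := by simpa using hx
    omega
  have hinj : Set.InjOn (f4 u v a b) ((Finset.range 4 : Finset ℕ) : Set ℕ) := by
    intro x hx y hy hxy
    rcases hcase x hx with rfl | rfl | rfl | rfl <;> rcases hcase y hy with rfl | rfl | rfl | rfl <;>
      simp only [f4] at hxy <;> first | rfl | exact absurd hxy ‹_› | exact absurd hxy.symm ‹_›
  have hG : ∀ x ∈ ((Finset.range 4 : Finset ℕ) : Set ℕ),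
      ∀ y ∈ ((Finset.range 4 : Finset ℕ) : Set ℕ),
      (r.G.Adj (f4 u v a b x) (f4 u v a b y) ↔ starQ.G.Adj x y) := by
    intro x hx y hy
    change r.G.Adj _ _ ↔ starG.Adj x y
    rw [starG_adj]
    rcases hcase x hx with rfl | rfl | rfl | rfl <;> rcases hcase y hy with rfl | rfl | rfl | rfl <;>
      simp only [f4]
    · exact ⟨fun h => (h.ne rfl).elim, fun h => by omega⟩
    · exact ⟨fun _ => by simp, fun _ => h.adj⟩
    · exact ⟨fun h => (hnC' _ _ h hCa).elim, fun h => by omega⟩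
    · exact ⟨fun h => (hnC' _ _ h hCb).elim, fun h => by omega⟩
    · exact ⟨fun _ => by simp, fun _ => h.adj.symm⟩
    · exact ⟨fun h => (h.ne rfl).elim, fun h => by omega⟩
    · exact ⟨fun h => (hnC' _ _ h hCa).elim, fun h => by omega⟩
    · exact ⟨fun h => (hnC' _ _ h hCb).elim, fun h => by omega⟩
    · exact ⟨fun h => (hnC _ _ h hCa).elim, fun h => by omega⟩
    · exact ⟨fun h => (hnC _ _ h hCa).elim, fun h => by omega⟩
    · exact ⟨fun h => (hnC _ _ h hCa).elim, fun h => by omega⟩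
    · exact ⟨fun h => (hnC _ _ h hCa).elim, fun h => by omega⟩
    · exact ⟨fun h => (hnC _ _ h hCb).elim, fun h => by omega⟩
    · exact ⟨fun h => (hnC _ _ h hCb).elim, fun h => by omega⟩
    · exact ⟨fun h => (hnC _ _ h hCb).elim, fun h => by omega⟩
    · exact ⟨fun h => (hnC _ _ h hCb).elim, fun h => by omega⟩
  have hP : ∀ x ∈ ((Finset.range 4 : Finset ℕ) : Set ℕ), ¬ r.P (f4 u v a b x) := by
    intro x hx
    rcases hcase x hx with rfl | rfl | rfl | rfl
    · exact hu.1
    · exact hv.1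
    · exact hPa
    · exact hPb
  refine ⟨hinj, ?_, ?_, hG, ?_, ?_⟩
  · intro x hx
    exact ⟨fun h => (hP x hx h).elim, fun h => h.elim⟩
  · intro x hx
    rcases hcase x hx with rfl | rfl | rfl | rfl
    · exact ⟨fun h => (hu.2 h).elim, fun h => (h.1 rfl).elim⟩
    · exact ⟨fun h => (hv.2 h).elim, fun h => (h.2 rfl).elim⟩
    · exact ⟨fun _ => ⟨by omega, by omega⟩, fun _ => hCa⟩
    · exact ⟨fun _ => ⟨by omega, by omega⟩, fun _ => hCb⟩
  · intro x hx y hy c hc
    constructor
    · intro hK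
      have h1 := (hG x hx y hy).1 (hax.KG _ trivial _ trivial _ trivial hK).1
      change (x = 0 ∧ y % 3 = 1) ∨ (y = 0 ∧ x % 3 = 1) at h1
      rcases h1 with ⟨h1, h2⟩ | ⟨h1, h2⟩
      · have hy1 : y = 1 := by
          rcases hcase y hy with rfl | rfl | rfl | rfl <;> omega
        subst h1; subst hy1
        have h3 : f4 u v a b c = a := hax.Kun _ trivial _ trivial _ trivial _ trivial hK h.Kuv
        have h4 : c = 2 := hinj hc (by simp) h3
        exact Or.inl ⟨rfl, rfl, h4⟩
      · have hy1 : x = 1 := by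
          rcases hcase x hx with rfl | rfl | rfl | rfl <;> omega
        subst h1; subst hy1
        have h3 : f4 u v a b c = b := hax.Kun _ trivial _ trivial _ trivial _ trivial hK h.Kvu
        have h4 : c = 3 := hinj hc (by simp) h3
        exact Or.inr ⟨rfl, rfl, h4⟩
    · rintro (⟨h1, h2, h3⟩ | ⟨h1, h2, h3⟩)
      · have hy1 : y = 1 := by
          rcases hcase y hy with rfl | rfl | rfl | rfl <;> omega
        subst h1; subst hy1; subst h3
        exact h.Kuv
      · have hx1 : x = 1 := by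
          rcases hcase x hx with rfl | rfl | rfl | rfl <;> omega
        subst h1; subst hx1; subst h3
        exact h.Kvu
  · intro x hx y hy c hc
    exact ⟨fun h => (hP x hx (hax.SP _ trivial _ trivial _ trivial h)).elim, fun h => h.elim⟩

theorem f4_image {M : Type} (u v a b : M) :
    (Finset.range 4).image (f4 u v a b) = {u, v, a, b} := by
  ext x
  simp only [Finset.mem_image, Finset.mem_range, Finset.mem_insert, Finset.mem_singleton]
  constructor
  · rintro ⟨n, hn, rfl⟩
    have : n = 0 ∨ n = 1 ∨ n = 2 ∨ n = 3 := by omega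
    rcases this with rfl | rfl | rfl | rfl
    · exact Or.inl rfl
    · exact Or.inr (Or.inl rfl)
    · exact Or.inr (Or.inr (Or.inl rfl))
    · exact Or.inr (Or.inr (Or.inr rfl))
  · rintro (rfl | rfl | rfl | rfl)
    · exact ⟨0, by omega, rfl⟩
    · exact ⟨1, by omega, rfl⟩
    · exact ⟨2, by omega, rfl⟩
    · exact ⟨3, by omega, rfl⟩

/-- The embedded star. -/
theorem exists_f {M : Type} (r : Rels M) (hax : Ax r Set.univ) (hEP : EP r) (u v a b : M)
    (h : Edge r u v a b) :
    ∃ f : ℕ → M, f 0 = u ∧ f 1 = v ∧ f 2 = a ∧ f 3 = b ∧ RefOn starQ r Set.univ f ∧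
      ∀ n, ClR r ((Finset.range (3 * (n + 1) + 1)).image f) Set.univ := by
  let S : ℕ → Type := fun n => {g : ℕ → M //
    RefOn starQ r ((Finset.range (3 * (n + 1) + 1) : Finset ℕ) : Set ℕ) g ∧
      ClR r ((Finset.range (3 * (n + 1) + 1)).image g) Set.univ}
  have hstep : ∀ n (s : S n), ∃ s' : S (n + 1),
      ∀ x ∈ Finset.range (3 * (n + 1) + 1), s'.1 x = s.1 x := by
    rintro n ⟨g, hg1, hg2⟩
    obtain ⟨g', h1, h2, h3⟩ := hEP ℕ starQ (Finset.range (3 * (n + 1) + 1))
      (Finset.range (3 * (n + 1 + 1) + 1)) g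
      (ax_star_fin (good_range _))
      (clR_star (good_range _)
        (Finset.coe_subset.2 (Finset.range_subset_range.2 (by omega)))) hg1 hg2
    exact ⟨⟨g', h1, h3⟩, h2⟩
  have h0 : ClR r ((Finset.range (3 * (0 + 1) + 1)).image (f4 u v a b)) Set.univ := by
    have : (Finset.range (3 * (0 + 1) + 1)).image (f4 u v a b) = {u, v, a, b} := f4_image u v a b
    rw [this]
    exact h.cl
  let s0 : S 0 := ⟨f4 u v a b, ref_four hax h, h0⟩
  let seq : ∀ n, S n := fun n => Nat.rec s0 (fun n s => Classical.choose (hstep n s)) n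
  have hseq : ∀ n, ∀ x < 3 * (n + 1) + 1, (seq (n + 1)).1 x = (seq n).1 x := by
    intro n x hx
    exact Classical.choose_spec (hstep n (seq n)) x (Finset.mem_range.2 hx)
  have hseq2 : ∀ x n k, x < 3 * (n + 1) + 1 → (seq (n + k)).1 x = (seq n).1 x := by
    intro x n k hx
    induction k with
    | zero => rfl
    | succ k ih => rw [← Nat.add_assoc, hseq (n + k) x (by omega), ih]
  let f : ℕ → M := fun x => (seq x).1 x
  have hf : ∀ n, ∀ x < 3 * (n + 1) + 1, f x = (seq n).1 x := by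
    intro n x hx
    rcases Nat.lt_or_ge n x with h | h
    · obtain ⟨k, rfl⟩ := Nat.exists_eq_add_of_le h.le
      exact hseq2 (n + k) n k hx
    · obtain ⟨k, rfl⟩ := Nat.exists_eq_add_of_le h
      exact (hseq2 x x k (by omega)).symm
  have href : ∀ n, RefOn starQ r ((Finset.range (3 * (n + 1) + 1) : Finset ℕ) : Set ℕ) f := by
    intro n
    refine congr' (seq n).2.1 fun x hx => hf n x ?_
    simpa using hx
  refine ⟨f, ?_, ?_, ?_, ?_, ?_, ?_⟩
  · rw [hf 0 0 (by omega)]
    rfl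
  · rw [hf 0 1 (by omega)]
    rfl
  · rw [hf 0 2 (by omega)]
    rfl
  · rw [hf 0 3 (by omega)]
    rfl
  · have hmem : ∀ {x n : ℕ}, x ≤ n →
        x ∈ ((Finset.range (3 * (n + 1) + 1) : Finset ℕ) : Set ℕ) := by
      intro x n h
      simp only [Finset.coe_range, Set.mem_Iio]
      omega
    refine ⟨?_, ?_, ?_, ?_, ?_, ?_⟩
    · intro x _ y _ hxy
      exact (href (x + y)).inj (hmem (by omega)) (hmem (by omega)) hxy
    · intro x _
      exact (href x).P x (hmem le_rfl)
    · intro x _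
      exact (href x).C x (hmem le_rfl)
    · intro x _ y _
      exact (href (x + y)).G x (hmem (by omega)) y (hmem (by omega))
    · intro x _ a _ b _
      exact (href (x + a + b)).K x (hmem (by omega)) a (hmem (by omega)) b (hmem (by omega))
    · intro x _ a _ b _
      exact (href (x + a + b)).S x (hmem (by omega)) a (hmem (by omega)) b (hmem (by omega))
  · intro n
    have : (Finset.range (3 * (n + 1) + 1)).image f =
        (Finset.range (3 * (n + 1) + 1)).image (seq n).1 :=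
      Finset.image_congr fun x hx => hf n x (by simpa using hx)
    rw [this]
    exact (seq n).2.2

/-- The subset of the star given by the leaves with the indices `i t`. -/
def sub {m : ℕ} (i : Fin m → ℕ) : Finset ℕ :=
  insert 0 (Finset.univ.image (fun t => 3 * i t + 1) ∪ Finset.univ.image (fun t => 3 * i t + 2) ∪
    Finset.univ.image (fun t => 3 * i t + 3))

theorem mem_sub {m : ℕ} (i : Fin m → ℕ) (x : ℕ) :
    x ∈ sub i ↔ x = 0 ∨ ∃ t, x = 3 * i t + 1 ∨ x = 3 * i t + 2 ∨ x = 3 * i t + 3 := by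
  simp only [sub, Finset.mem_insert, Finset.mem_union, Finset.mem_image, Finset.mem_univ,
    true_and]
  constructor
  · rintro (h | ((⟨t, h⟩ | ⟨t, h⟩) | ⟨t, h⟩))
    · exact Or.inl h
    · exact Or.inr ⟨t, Or.inl h.symm⟩
    · exact Or.inr ⟨t, Or.inr (Or.inl h.symm)⟩
    · exact Or.inr ⟨t, Or.inr (Or.inr h.symm)⟩
  · rintro (h | ⟨t, h | h | h⟩)
    · exact Or.inl h
    · exact Or.inr (Or.inl (Or.inl ⟨t, h.symm⟩))
    · exact Or.inr (Or.inl (Or.inr ⟨t, h.symm⟩))
    · exact Or.inr (Or.inr ⟨t, h.symm⟩)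

theorem good_sub {m : ℕ} (i : Fin m → ℕ) : Good (sub i) where
  zero := by rw [mem_sub]; exact Or.inl rfl
  col x hx h := by
    rw [mem_sub] at hx ⊢
    rw [mem_sub]
    rcases hx with rfl | ⟨t, hx | hx | hx⟩
    · simp at h
    · exact ⟨Or.inr ⟨t, Or.inr (Or.inl (by omega))⟩, Or.inr ⟨t, Or.inr (Or.inr (by omega))⟩⟩
    · omega
    · omega

/-- The shift of the leaves. -/
theorem exists_tau {m : ℕ} (i j : Fin m → ℕ) (hi : StrictMono i) (hj : StrictMono j) :
    ∃ τ : ℕ → ℕ, τ 0 = 0 ∧ (∀ t, τ (3 * i t + 1) = 3 * j t + 1) ∧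
      (∀ t, τ (3 * i t + 2) = 3 * j t + 2) ∧ (∀ t, τ (3 * i t + 3) = 3 * j t + 3) ∧
      RefOn starQ starQ (sub i : Set ℕ) τ := by
  let τ : ℕ → ℕ := fun x => if h : ∃ t, x = 3 * i t + 1 ∨ x = 3 * i t + 2 ∨ x = 3 * i t + 3 then
    3 * j (Classical.choose h) + 1 + (x - 1) % 3 else 0
  have hτ0 : τ 0 = 0 := by
    have : ¬ ∃ t, 0 = 3 * i t + 1 ∨ 0 = 3 * i t + 2 ∨ 0 = 3 * i t + 3 := by
      rintro ⟨t, ht⟩
      omega
    simp only [τ]
    rw [dif_neg this]
  have hτ : ∀ t x, (x = 3 * i t + 1 ∨ x = 3 * i t + 2 ∨ x = 3 * i t + 3) →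
      τ x = 3 * j t + 1 + (x - 1) % 3 := by
    intro t x hx
    have hex : ∃ t', x = 3 * i t' + 1 ∨ x = 3 * i t' + 2 ∨ x = 3 * i t' + 3 := ⟨t, hx⟩
    have h1 := Classical.choose_spec hex
    have h2 : Classical.choose hex = t := hi.injective (by omega)
    simp only [τ]
    rw [dif_pos hex, h2]
  have hτ1 : ∀ t, τ (3 * i t + 1) = 3 * j t + 1 := fun t => by
    rw [hτ t _ (Or.inl rfl)]; omega
  have hτ2 : ∀ t, τ (3 * i t + 2) = 3 * j t + 2 := fun t => by
    rw [hτ t _ (Or.inr (Or.inl rfl))]; omega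
  have hτ3 : ∀ t, τ (3 * i t + 3) = 3 * j t + 3 := fun t => by
    rw [hτ t _ (Or.inr (Or.inr rfl))]; omega
  have hcase : ∀ x ∈ (sub i : Set ℕ), x = 0 ∨
      ∃ t, x = 3 * i t + 1 ∨ x = 3 * i t + 2 ∨ x = 3 * i t + 3 := fun x hx =>
    (mem_sub i x).1 (by exact_mod_cast hx)
  have hzero : ∀ x ∈ (sub i : Set ℕ), (τ x = 0 ↔ x = 0) := by
    intro x hx
    rcases hcase x hx with rfl | ⟨t, ht⟩
    · rw [hτ0]
    · rw [hτ t x ht]
      omega
  have hmod : ∀ x ∈ (sub i : Set ℕ), τ x % 3 = x % 3 := by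
    intro x hx
    rcases hcase x hx with rfl | ⟨t, ht⟩
    · rw [hτ0]
    · rw [hτ t x ht]
      omega
  have hinj : Set.InjOn τ (sub i : Set ℕ) := by
    intro x hx y hy hxy
    rcases hcase x hx with rfl | ⟨s, hs⟩
    · exact ((hzero y hy).1 (by rw [← hxy, hτ0])).symm
    · rcases hcase y hy with rfl | ⟨t, ht⟩
      · exact (hzero x hx).1 (by rw [hxy, hτ0])
      · rw [hτ s x hs, hτ t y ht] at hxy
        have h1 : j s = j t := by omega
        have h2 : s = t := hj.injective h1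
        subst h2
        omega
  have hadd : ∀ x ∈ (sub i : Set ℕ), x % 3 = 1 → τ (x + 1) = τ x + 1 ∧ τ (x + 2) = τ x + 2 := by
    intro x hx hx1
    rcases hcase x hx with rfl | ⟨t, rfl | rfl | rfl⟩
    · simp at hx1
    · exact ⟨by rw [hτ1, show 3 * i t + 1 + 1 = 3 * i t + 2 by omega, hτ2],
        by rw [hτ1, show 3 * i t + 1 + 2 = 3 * i t + 3 by omega, hτ3]⟩
    · omega
    · omega
  refine ⟨τ, hτ0, hτ1, hτ2, hτ3, hinj, ?_, ?_, ?_, ?_, ?_⟩
  · intro x _
    exact Iff.rfl
  · intro x hx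
    change (τ x ≠ 0 ∧ τ x % 3 ≠ 1) ↔ (x ≠ 0 ∧ x % 3 ≠ 1)
    rw [ne_eq, ne_eq, hzero x hx, hmod x hx]
  · intro x hx y hy
    change starG.Adj _ _ ↔ starG.Adj _ _
    rw [starG_adj, starG_adj, hzero x hx, hzero y hy, hmod x hx, hmod y hy]
  · intro x hx y hy c hc
    change (τ x = 0 ∧ τ y % 3 = 1 ∧ τ c = τ y + 1) ∨ (τ y = 0 ∧ τ x % 3 = 1 ∧ τ c = τ x + 2) ↔
      (x = 0 ∧ y % 3 = 1 ∧ c = y + 1) ∨ (y = 0 ∧ x % 3 = 1 ∧ c = x + 2)
    rw [hzero x hx, hzero y hy, hmod x hx, hmod y hy]
    have e1 : y % 3 = 1 → (τ c = τ y + 1 ↔ c = y + 1) := by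
      intro hy1
      rw [← (hadd y hy hy1).1]
      exact hinj.eq_iff hc
        (Finset.mem_coe.2 ((good_sub i).col y (Finset.mem_coe.1 hy) hy1).1)
    have e2 : x % 3 = 1 → (τ c = τ x + 2 ↔ c = x + 2) := by
      intro hx1
      rw [← (hadd x hx hx1).2]
      exact hinj.eq_iff hc
        (Finset.mem_coe.2 ((good_sub i).col x (Finset.mem_coe.1 hx) hx1).2)
    constructor
    · rintro (⟨h1, h2, h3⟩ | ⟨h1, h2, h3⟩)
      · exact Or.inl ⟨h1, h2, (e1 h2).1 h3⟩
      · exact Or.inr ⟨h1, h2, (e2 h2).1 h3⟩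
    · rintro (⟨h1, h2, h3⟩ | ⟨h1, h2, h3⟩)
      · exact Or.inl ⟨h1, h2, (e1 h2).2 h3⟩
      · exact Or.inr ⟨h1, h2, (e2 h2).2 h3⟩
  · intro x _ y _ c _
    exact Iff.rfl

end StarN

open StarN

theorem exists_star {M : Type} (r : Rels M) (hax : Ax r Set.univ) (hEP : EP r) (u v a b : M)
    (h : Edge r u v a b) :
    ∃ w a' b' : ℕ → M, w 0 = v ∧ a' 0 = a ∧ b' 0 = b ∧ (∀ i, r.K u (w i) (a' i)) ∧
      Function.Injective a' ∧
      ∀ (m : ℕ) (i j : Fin m → ℕ), StrictMono i → StrictMono j →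
        ClR r (insert u (Finset.univ.image (fun t => w (i t)) ∪
          Finset.univ.image (fun t => a' (i t)) ∪ Finset.univ.image (fun t => b' (i t))))
          Set.univ ∧
        ∃ f : M → M, RefOn r r ((insert u (Finset.univ.image (fun t => w (i t)) ∪
          Finset.univ.image (fun t => a' (i t)) ∪
          Finset.univ.image (fun t => b' (i t))) : Finset M) : Set M) f ∧
          f u = u ∧ ∀ t, f (w (i t)) = w (j t) ∧ f (a' (i t)) = a' (j t) ∧
            f (b' (i t)) = b' (j t) := by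
  obtain ⟨f, hf0, hf1, hf2, hf3, href, hclf⟩ := exists_f r hax hEP u v a b h
  have hinj : Function.Injective f := fun x y h => href.inj trivial trivial h
  refine ⟨fun i => f (3 * i + 1), fun i => f (3 * i + 2), fun i => f (3 * i + 3),
    hf1, hf2, hf3, ?_, ?_, ?_⟩
  · intro i
    rw [← hf0]
    exact (href.K 0 trivial (3 * i + 1) trivial (3 * i + 2) trivial).2
      (Or.inl ⟨rfl, by omega, by omega⟩)
  · intro x y hxy
    have := hinj hxy
    omega
  · intro m i j hi hj
    have hAim : insert u (Finset.univ.image (fun t => f (3 * i t + 1)) ∪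
          Finset.univ.image (fun t => f (3 * i t + 2)) ∪
          Finset.univ.image (fun t => f (3 * i t + 3))) = (sub i).image f := by
      rw [sub, Finset.image_insert, hf0, Finset.image_union, Finset.image_union,
        Finset.image_image, Finset.image_image, Finset.image_image]
      rfl
    simp only [hAim]
    refine ⟨?_, ?_⟩
    · obtain ⟨n, hn⟩ : ∃ n, sub i ⊆ Finset.range (3 * (n + 1) + 1) := by
        refine ⟨(sub i).sup id, fun x hx => ?_⟩
        have : x ≤ (sub i).sup id := Finset.le_sup (f := id) hx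
        rw [Finset.mem_range]
        omega
      have h1 : ClR starQ (sub i) ((Finset.range (3 * (n + 1) + 1) : Finset ℕ) : Set ℕ) :=
        clR_star (good_sub i) (Finset.coe_subset.2 hn)
      have h2 : ClR r ((sub i).image f)
          (((Finset.range (3 * (n + 1) + 1)).image f : Finset M) : Set M) :=
        RefOn.clR (Q := starQ) (r := r) (href.mono (Set.subset_univ _)) h1
      exact ClR.trans h2 (hclf n)
    · obtain ⟨τ, hτ0, hτ1, hτ2, hτ3, hτref⟩ := exists_tau i j hi hj
      have hinv : ∀ x, Function.invFun f (f x) = x := fun x =>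
        Function.leftInverse_invFun hinj x
      have hinvref : RefOn r starQ (((sub i).image f : Finset M) : Set M)
          (Function.invFun f) := by
        have h1 := (href.mono (Set.subset_univ ((sub i : Finset ℕ) : Set ℕ))).of_inv
          (g := Function.invFun f) fun x _ => hinv x
        rw [Finset.coe_image]
        exact h1
      refine ⟨f ∘ (τ ∘ Function.invFun f), ?_, ?_, ?_⟩
      · refine (hinvref.comp (hτref.mono ?_)).comp (href.mono (Set.subset_univ _))
        rintro _ ⟨y, hy, rfl⟩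
        rw [Finset.coe_image] at hy
        obtain ⟨x, hx, rfl⟩ := hy
        rw [hinv]
        exact hx
      · simp only [Function.comp]
        rw [← hf0, hinv, hτ0]
      · intro t
        simp only [Function.comp]
        rw [hinv, hτ1, hinv, hτ2, hinv, hτ3]
        exact ⟨rfl, rfl, rfl⟩

/-- The type `M` must be nonempty here: for `M` empty the extension property is vacuous. -/
theorem exists_edge {M : Type} [Nonempty M] (r : Rels M) (hax : Ax r Set.univ) (hEP : EP r) :
    ∃ u v a b : M, Edge r u v a b ∧ Edge r v u b a := by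
  obtain ⟨x0⟩ := (inferInstance : Nonempty M)
  obtain ⟨g, h1, -, h3⟩ := hEP ℕ starQ ∅ (Finset.range 4) (fun _ => x0)
    (ax_star_fin (good_range 1))
    (ax_star_fin (good_range 1)).clR_empty
    ⟨by simp, by simp, by simp, by simp, by simp, by simp⟩
    (by rw [Finset.image_empty]; exact hax.clR_empty)
  have himg : (Finset.range 4).image g = {g 0, g 1, g 2, g 3} := by
    ext x
    simp only [Finset.mem_image, Finset.mem_range, Finset.mem_insert, Finset.mem_singleton]
    constructor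
    · rintro ⟨n, hn, rfl⟩
      have : n = 0 ∨ n = 1 ∨ n = 2 ∨ n = 3 := by omega
      rcases this with rfl | rfl | rfl | rfl
      · exact Or.inl rfl
      · exact Or.inr (Or.inl rfl)
      · exact Or.inr (Or.inr (Or.inl rfl))
      · exact Or.inr (Or.inr (Or.inr rfl))
    · rintro (rfl | rfl | rfl | rfl)
      · exact ⟨0, by omega, rfl⟩
      · exact ⟨1, by omega, rfl⟩
      · exact ⟨2, by omega, rfl⟩
      · exact ⟨3, by omega, rfl⟩
  have hswap : ({g 1, g 0, g 3, g 2} : Finset M) = {g 0, g 1, g 2, g 3} := by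
    ext x
    simp only [Finset.mem_insert, Finset.mem_singleton]
    tauto
  have m0 : (0 : ℕ) ∈ ((Finset.range 4 : Finset ℕ) : Set ℕ) := by simp
  have m1 : (1 : ℕ) ∈ ((Finset.range 4 : Finset ℕ) : Set ℕ) := by simp
  have m2 : (2 : ℕ) ∈ ((Finset.range 4 : Finset ℕ) : Set ℕ) := by simp
  have m3 : (3 : ℕ) ∈ ((Finset.range 4 : Finset ℕ) : Set ℕ) := by simp
  have hadj : r.G.Adj (g 0) (g 1) := (h1.G 0 m0 1 m1).2 (Or.inl ⟨rfl, rfl⟩)
  have hK : r.K (g 0) (g 1) (g 2) := (h1.K 0 m0 1 m1 2 m2).2 (Or.inl ⟨rfl, rfl, rfl⟩)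
  have hK' : r.K (g 1) (g 0) (g 3) := (h1.K 1 m1 0 m0 3 m3).2 (Or.inr ⟨rfl, rfl, rfl⟩)
  have hne : g 2 ≠ g 3 := fun e => by
    have := h1.inj m2 m3 e
    omega
  have hcl : ClR r {g 0, g 1, g 2, g 3} Set.univ := by
    rw [← himg]
    exact h3
  exact ⟨g 0, g 1, g 2, g 3, ⟨hadj, hK, hK', hne, hcl⟩,
    ⟨hadj.symm, hK', hK, hne.symm, by rw [hswap]; exact hcl⟩⟩

/-- The type `M` must be nonempty here: for `M` empty the extension property is vacuous. -/
theorem exists_point {M : Type} [Nonempty M] (r : Rels M) (hax : Ax r Set.univ) (hEP : EP r) :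
    ∃ x : M, r.P x := by
  obtain ⟨x0⟩ := (inferInstance : Nonempty M)
  let Q : Rels Unit :=
    ⟨⊥, fun _ => True, fun _ => False, fun _ _ _ => False, fun _ _ _ => False⟩
  have hgr : Gr Q.G Set.univ := by
    intro X _ hne
    have h1 : X = {()} := by
      obtain ⟨x, hx⟩ := hne
      ext y
      constructor
      · intro _; simp
      · intro _; exact hx
    have h2 : es (⊥ : SimpleGraph Unit) X = ∅ := by
      rw [Finset.eq_empty_iff_forall_notMem]
      intro e he
      have := (mem_es.1 he).2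
      simp at this
    have h3 : dl (⊥ : SimpleGraph Unit) X = 2 := by
      simp only [dl, h2]
      rw [h1]
      simp
    change 4 * X.card ≤ 3 ^ (dl (⊥ : SimpleGraph Unit) X).toNat
    rw [h3, h1]
    decide
  have hQ : Ax Q Set.univ := by
    refine ⟨⟨hgr, ?_, ?_, ?_, ?_, ?_⟩, ?_, ?_⟩
    · intro _ _ _ h
      exact h.elim
    · intro _ _ _ _ h
      exact absurd h (by simp [Q])
    · intro _ _ _ _ _ _ h
      exact h.elim
    · intro _ _ _ _ h
      exact absurd h (by simp [Q])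
    · intro _ _ _ _ _ _ _ _ h
      exact h.elim
    · intro _ _ _ _ _ _ h
      exact h.elim
    · intro x _ _
      refine ⟨?_, ?_, ?_⟩
      · intro _ _ _ _ h
        exact h.elim
      · intro _ _ _ _ _ _ _ _ h
        exact h.elim
      · intro _ _ _ _ h
        exact absurd h (by simp [Q])
  have hU : ClR Q {()} Set.univ :=
    { cl :=
        { sub := Set.subset_univ _
          lt := by
            intro X _ hX
            exfalso
            obtain ⟨x, _, hx⟩ := Finset.exists_of_ssubset hX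
            exact hx (by simp) }
      K := fun _ _ _ _ _ _ h => h.elim
      S := fun _ _ _ _ _ _ h => h.elim }
  obtain ⟨g, h1, -, -⟩ := hEP Unit Q ∅ {()} (fun _ => x0)
    (hQ.sub hU) (hQ.sub hU).clR_empty
    ⟨by simp, by simp, by simp, by simp, by simp, by simp⟩
    (by rw [Finset.image_empty]; exact hax.clR_empty)
  exact ⟨g (), (h1.P () (by simp)).2 trivial⟩

end H968F
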