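import Pool.Agent.helper968_exist.EqFT

/-!
Elementary equivalence and countable elementary submodels of models of a countably categorical
theory.
-/

namespace H968F

open FirstOrder FirstOrder.Language Cardinal

/-- Models of the theory of a structure satisfy the same sentences. -/
theorem sent_iff {L : FirstOrder.Language.{0, 0}} {M N : Type} [L.Structure M] [L.Structure N]
    (h : N ⊨ L.completeTheory M) (φ : L.Sentence) : M ⊨ φ ↔ N ⊨ φ := by
  haveI := h
  exact (realize_iff_of_model_completeTheory M N φ).symm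

theorem elemEq {L : FirstOrder.Language.{0, 0}} {M N : Type} [L.Structure M] [L.Structure N]
    (h : N ⊨ L.completeTheory M) : L.ElementarilyEquivalent M N :=
  elementarilyEquivalent_iff.2 fun φ => sent_iff h φ

/-- Downward Löwenheim-Skolem and countable categoricity. -/
theorem exists_sub {L : FirstOrder.Language.{0, 0}} [Countable (Σ n, L.Functions n)]
    [Countable (Σ n, L.Relations n)] {M U : Type} [L.Structure M] [L.Structure U] [Countable M]
    [Infinite M] (hfin : ∀ n : ℕ,
      (Set.range fun a : Fin n → M => {φ : L.Formula (Fin n) | φ.Realize a}).Finite)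
    (hU : U ⊨ L.completeTheory M) (s : Set U) (hs : s.Countable) :
    ∃ j : M ↪ₑ[L] U, s ⊆ Set.range j := by
  haveI : Infinite U := (elemEq hU).infinite_iff.1 inferInstance
  have hcard : L.card ≤ ℵ₀ := by
    haveI : Countable L.Symbols :=
      inferInstanceAs (Countable ((Σ l, L.Functions l) ⊕ (Σ l, L.Relations l)))
    exact mk_le_aleph0
  obtain ⟨S, hS1, hS2⟩ := exists_elementarySubstructure_card_eq L s (ℵ₀ : Cardinal.{0}) le_rfl
    (by simpa using hs) (by simpa using hcard) (by simp)
  have hS3 : #S = ℵ₀ := by simpa using hS2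
  haveI : Countable S := by
    rw [← mk_le_aleph0_iff, hS3]
  have hSM : ∀ φ : L.Sentence, M ⊨ φ ↔ S ⊨ φ := fun φ =>
    (sent_iff hU φ).trans (S.realize_sentence φ).symm
  obtain ⟨e⟩ := equiv_of_finite_types (M := M) (N := S) hSM hfin
  refine ⟨S.subtype.comp e.toElementaryEmbedding, ?_⟩
  intro x hx
  refine ⟨e.symm ⟨x, hS1 hx⟩, ?_⟩
  simp

section Path

variable {L : FirstOrder.Language.{0, 0}} {k l : ℕ}

/-- The formula `∃ x, φ(x, y_0) ∧ … ∧ φ(x, y_{m-1})`. -/
noncomputable def exf (φ : L.Formula (Fin k ⊕ Fin l)) (m : ℕ) : L.Formula (Fin m × Fin l) :=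
  Formula.iExs (Fin k) (Formula.iInf fun i : Fin m =>
    (φ.relabel (Sum.elim Sum.inr fun t => Sum.inl (i, t)) :
      L.Formula ((Fin m × Fin l) ⊕ Fin k)))

theorem realize_exf {M : Type} [L.Structure M] (φ : L.Formula (Fin k ⊕ Fin l)) (m : ℕ)
    (y : Fin m × Fin l → M) : (exf φ m).Realize y ↔
      ∃ a : Fin k → M, ∀ i : Fin m, φ.Realize (Sum.elim a fun t => y (i, t)) := by
  simp only [exf, Formula.realize_iExs, Formula.realize_iInf, Formula.realize_relabel]
  refine exists_congr fun a => forall_congr' fun i => ?_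
  have e1 : (Sum.elim y a ∘ (Sum.elim Sum.inr fun t => Sum.inl (i, t)) :
      Fin k ⊕ Fin l → M) = Sum.elim a fun t => y (i, t) := by
    funext q
    rcases q with q | q <;> rfl
  rw [e1]

end Path

end H968F
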