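import Pool.Agent.helper968_nsop1.Nsop1
import Pool.Agent.helper968_nsop1.Star
import Pool.Agent.helper968_nsop1.Generic
import Pool.Agent.helper968_nsop1.Sub
import Pool.Agent.helper968_exist.Defs
import Pool.Agent.helper968_kim.Sat

/-!
Assembly.
-/

namespace H968F

open FirstOrder FirstOrder.Language SKF EXA Cardinal

/-- The theory does not have SOP₁. -/
theorem nsop1 [LC.Structure NN] {r : Rels NN} (hr : Rep NN r) (hax : Ax r Set.univ)
    (hEP : EP r) : NSOP1 (LC.completeTheory NN) := by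
  rintro ⟨N, _, hN, k, l, φ, b, hσ, hinc⟩
  obtain ⟨gc, fc, hC⟩ := exists_clos r hax
  obtain ⟨j, hj⟩ := exists_sub (fun n => finite_types hr hax hEP hC n) hN
    (⋃ η, Set.range (b η)) (Set.countable_iUnion fun η => Set.countable_range _)
  have hj1 : ∀ η t, ∃ x, j x = b η t := fun η t => hj (Set.mem_iUnion.2 ⟨η, t, rfl⟩)
  choose b' hb' using hj1
  have eb : ∀ η, j ∘ b' η = b η := fun η => funext (hb' η)
  refine no_sop1 hr hax hEP φ b' ?_ ?_
  · intro σ m
    obtain ⟨a, ha⟩ := hσ σ m
    have h1 : (exf φ m).Realize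
        (j ∘ fun p : Fin m × Fin l => b' (List.ofFn fun t : Fin (p.1 : ℕ) => σ t) p.2) := by
      rw [realize_exf]
      refine ⟨a, fun i => ?_⟩
      have e1 : (fun t => (j ∘ fun p : Fin m × Fin l =>
          b' (List.ofFn fun t : Fin (p.1 : ℕ) => σ t) p.2) (i, t)) =
          b (List.ofFn fun t : Fin (i : ℕ) => σ t) := by
        rw [← eb]
        rfl
      rw [e1]
      exact ha i i.2
    rw [j.map_formula, realize_exf] at h1
    obtain ⟨a', ha'⟩ := h1
    exact ⟨a', fun i hi => ha' ⟨i, hi⟩⟩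
  · rintro η ν h ⟨a, h1, h2⟩
    refine hinc η ν h ⟨j ∘ a, ?_, ?_⟩
    · rw [← eb, ← Sum.comp_elim, j.map_formula]
      exact h1
    · rw [← eb, ← Sum.comp_elim, j.map_formula]
      exact h2

section Fork

variable [LC.Structure NN] {U : Type} [LC.Structure U]

/-- The symbol `P`. -/
def sP : LC.Relations 1 := Sy.P

/-- The symbol `K`. -/
def sK : LC.Relations 3 := Sy.K

/-- The symbol `S`. -/
def sS : LC.Relations 3 := Sy.S

/-- The formula `∃ c, K(z_0, z_1, c) ∧ S(x, z_0, c)`. -/
noncomputable def fO : LC.Formula (Fin 1 ⊕ Fin 2) :=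
  Formula.iExs (Fin 1)
    ((sK.formula ![Term.var (Sum.inl (Sum.inr 0)), Term.var (Sum.inl (Sum.inr 1)),
      Term.var (Sum.inr 0)] : LC.Formula ((Fin 1 ⊕ Fin 2) ⊕ Fin 1)) ⊓
    sS.formula ![Term.var (Sum.inl (Sum.inl 0)), Term.var (Sum.inl (Sum.inr 0)),
      Term.var (Sum.inr 0)])

/-- The formula `P(x)`. -/
def fP : LC.Formula (Fin 1 ⊕ Fin 0) := sP.formula ![Term.var (Sum.inl 0)]

theorem realize_fO_nat {r : Rels NN} (hr : Rep NN r) (x : Fin 1 → NN) (y : Fin 2 → NN) :
    fO.Realize (Sum.elim x y) ↔ ∃ c, r.K (y 0) (y 1) c ∧ r.S (x 0) (y 0) c := by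
  simp only [fO, Formula.realize_iExs, Formula.realize_inf, Formula.realize_rel]
  constructor
  · rintro ⟨c, h1, h2⟩
    exact ⟨c 0, (hr.K _).1 h1, (hr.S _).1 h2⟩
  · rintro ⟨c, h1, h2⟩
    exact ⟨fun _ => c, (hr.K _).2 h1, (hr.S _).2 h2⟩

theorem realize_fP_nat {r : Rels NN} (hr : Rep NN r) (x : Fin 1 → NN) (y : Fin 0 → NN) :
    fP.Realize (Sum.elim x y) ↔ r.P (x 0) := by
  rw [fP, Formula.realize_rel]
  exact hr.P _

/-- Universal statements transfer. -/
theorem transfer_all (j : NN ↪ₑ[LC] U) {α : Type} {k : ℕ} (φ : LC.Formula (α ⊕ Fin k))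
    (v : α → NN) (h : ∀ x : Fin k → NN, φ.Realize (Sum.elim v x)) (x : Fin k → U) :
    φ.Realize (Sum.elim (j ∘ v) x) := by
  have h1 : (φ.iAlls (Fin k)).Realize v := Formula.realize_iAlls.2 h
  rw [← j.map_formula] at h1
  exact Formula.realize_iAlls.1 h1 x

open Classical in
/-- `O(x, u, v)` divides over the empty set if `{u, v}` is an edge which is closed together with
its two colours. -/
theorem divides_O {r : Rels NN} (hr : Rep NN r) (hax : Ax r Set.univ)
    (hcl : ∀ X : Finset NN, ∃ Y, X ⊆ Y ∧ ClR r Y Set.univ) (hEP : EP r)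
    (j : NN ↪ₑ[LC] U) {u v a b : NN} (huv : Edge r u v a b) :
    Divides (∅ : Set U) (⟨2, fO, ![j u, j v]⟩ : Fml LC 1 U) := by
  obtain ⟨w, a', b', hw0, -, -, hK, hinj, hind⟩ := exists_star r hax hEP u v a b huv
  refine ⟨fun i => ![j u, j (w i)], by simp [hw0], ?_, ?_⟩
  · intro m l φ a ha i i' hi hi'
    have hl : ∀ t : Fin l, False := fun t => ha t
    let v1 : (Fin m × Fin 2) ⊕ Fin l → NN :=
      Sum.elim (fun t => (![u, w (i t.1)] : Fin 2 → NN) t.2) (fun t => (hl t).elim)
    let v2 : (Fin m × Fin 2) ⊕ Fin l → NN :=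
      Sum.elim (fun t => (![u, w (i' t.1)] : Fin 2 → NN) t.2) (fun t => (hl t).elim)
    obtain ⟨hc1, f, hf, hfu, hfw⟩ := hind m i i' hi hi'
    obtain ⟨hc2, -⟩ := hind m i' i hi' hi
    have him : (insert u (Finset.univ.image (fun t => w (i t)) ∪
          Finset.univ.image (fun t => a' (i t)) ∪
          Finset.univ.image (fun t => b' (i t)))).image f =
        insert u (Finset.univ.image (fun t => w (i' t)) ∪
          Finset.univ.image (fun t => a' (i' t)) ∪
          Finset.univ.image (fun t => b' (i' t))) := by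
      rw [Finset.image_insert, hfu, Finset.image_union, Finset.image_union, Finset.image_image,
        Finset.image_image, Finset.image_image]
      have g1 : (f ∘ fun t => w (i t)) = fun t => w (i' t) := funext fun t => (hfw t).1
      have g2 : (f ∘ fun t => a' (i t)) = fun t => a' (i' t) := funext fun t => (hfw t).2.1
      have g3 : (f ∘ fun t => b' (i t)) = fun t => b' (i' t) := funext fun t => (hfw t).2.2
      rw [g1, g2, g3]
    have e1 : (Sum.elim (fun t => (![j u, j (w (i t.1))] : Fin 2 → U) t.2) a :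
        (Fin m × Fin 2) ⊕ Fin l → U) = j ∘ v1 := by
      funext t
      rcases t with ⟨t, s⟩ | t
      · fin_cases s <;> rfl
      · exact (hl t).elim
    have e2 : (Sum.elim (fun t => (![j u, j (w (i' t.1))] : Fin 2 → U) t.2) a :
        (Fin m × Fin 2) ⊕ Fin l → U) = j ∘ v2 := by
      funext t
      rcases t with ⟨t, s⟩ | t
      · fin_cases s <;> rfl
      · exact (hl t).elim
    have e3 : f ∘ v1 = v2 := by
      funext t
      rcases t with ⟨t, s⟩ | t
      · fin_cases s
        · exact hfu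
        · exact (hfw t).1
      · exact (hl t).elim
    show φ.Realize (Sum.elim (fun t => (![j u, j (w (i t.1))] : Fin 2 → U) t.2) a) ↔
      φ.Realize (Sum.elim (fun t => (![j u, j (w (i' t.1))] : Fin 2 → U) t.2) a)
    rw [e1, e2, j.map_formula, j.map_formula, ← e3]
    refine homog hr hax hcl hEP φ hc1 (f := f) ?_ hf ?_
    · rw [him]
      exact hc2
    · rintro (⟨t, s⟩ | t)
      · fin_cases s
        · exact Finset.mem_insert_self _ _
        · exact Finset.mem_insert_of_mem (Finset.mem_union_left _ (Finset.mem_union_left _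
            (Finset.mem_image_of_mem _ (Finset.mem_univ _))))
      · exact (hl t).elim
  · intro hsat
    let ψ : ℕ → Fml LC 1 U := fun i => ⟨2, fO, ![j u, j (w i)]⟩
    obtain ⟨a, ha⟩ := hsat {ψ 0, ψ 1, ψ 2} (by simp) (by
      rintro _ (rfl | rfl | rfl)
      · exact ⟨0, rfl⟩
      · exact ⟨1, rfl⟩
      · exact ⟨2, rfl⟩)
    have h0 := ha (ψ 0) (by simp)
    have h1 := ha (ψ 1) (by simp)
    have h2 := ha (ψ 2) (by simp)
    -- the universal statement
    let χ : LC.Formula (Fin 4 ⊕ Fin 1) :=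
      ((fO.relabel (Sum.elim Sum.inr (Sum.inl ∘ ![0, 1]))) ⊓
        ((fO.relabel (Sum.elim Sum.inr (Sum.inl ∘ ![0, 2]))) ⊓
          (fO.relabel (Sum.elim Sum.inr (Sum.inl ∘ ![0, 3]))))).not
    have hchi : ∀ {K : Type} [LC.Structure K] (y : Fin 4 → K) (x : Fin 1 → K),
        χ.Realize (Sum.elim y x) ↔ ¬ (fO.Realize (Sum.elim x ![y 0, y 1]) ∧
          fO.Realize (Sum.elim x ![y 0, y 2]) ∧ fO.Realize (Sum.elim x ![y 0, y 3])) := by
      intro K _ y x
      have e : ∀ p q : Fin 4, ((Sum.elim y x) ∘ (Sum.elim Sum.inr (Sum.inl ∘ ![p, q])) :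
          Fin 1 ⊕ Fin 2 → K) = Sum.elim x ![y p, y q] := by
        intro p q
        funext t
        rcases t with t | t
        · rfl
        · fin_cases t <;> rfl
      simp only [χ, Formula.realize_not, Formula.realize_inf, Formula.realize_relabel, e]
    have h3 := transfer_all j χ ![u, w 0, w 1, w 2] (by
      intro x
      rw [hchi]
      simp only [realize_fO_nat hr]
      rintro ⟨⟨c0, g0, s0⟩, ⟨c1, g1, s1⟩, ⟨c2, g2, s2⟩⟩
      have hP : r.P (x 0) := hax.SP _ trivial _ trivial _ trivial s0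
      have k0 : c0 = a' 0 := hax.Kun _ trivial _ trivial _ trivial _ trivial g0 (hK 0)
      have k1 : c1 = a' 1 := hax.Kun _ trivial _ trivial _ trivial _ trivial g1 (hK 1)
      have k2 : c2 = a' 2 := hax.Kun _ trivial _ trivial _ trivial _ trivial g2 (hK 2)
      rcases (hax.act _ trivial hP).two _ trivial _ trivial _ trivial _ trivial s0 s1 s2 with
        h | h | h
      · rw [k0, k1] at h
        exact absurd (hinj h) (by norm_num)
      · rw [k0, k2] at h
        exact absurd (hinj h) (by norm_num)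
      · rw [k1, k2] at h
        exact absurd (hinj h) (by norm_num)) a
    rw [hchi] at h3
    exact h3 ⟨h0, h1, h2⟩

/-- In every model of the theory some complete type over the empty set forks over it. -/
theorem forks_in {r : Rels NN} (hr : Rep NN r) (hax : Ax r Set.univ) (hEP : EP r)
    (hU : U ⊨ LC.completeTheory NN) :
    ∃ p : Set (Fml LC 1 U), IsTypeOver (∅ : Set U) p ∧ ∃ ψ ∈ p, Forks (∅ : Set U) ψ := by
  obtain ⟨gc, fc, hC⟩ := exists_clos r hax
  obtain ⟨j, -⟩ := exists_sub (fun n => finite_types hr hax hEP hC n) hU (∅ : Set U)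
    Set.countable_empty
  obtain ⟨u, v, a, b, huv, hvu⟩ := exists_edge r hax hEP
  obtain ⟨x, hx⟩ := exists_point r hax hEP
  refine ⟨{ψ | ψ.Over (∅ : Set U) ∧ ψ.Holds fun _ => j x}, ?_, ⟨0, fP, fun t => t.elim0⟩,
    ⟨fun t => t.elim0, ?_⟩, {⟨2, fO, ![j u, j v]⟩, ⟨2, fO, ![j v, j u]⟩}, by simp, ?_, ?_⟩
  · exact {
      par_mem := fun ψ hψ => hψ.1
      finSat := fun s _ hsub => ⟨fun _ => j x, fun ψ hψ => (hsub hψ).2⟩
      complete := by
        intro ψ hψ
        by_cases h : ψ.Holds fun _ => j x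
        · exact Or.inl ⟨hψ, h⟩
        · exact Or.inr ⟨hψ, by simpa [Fml.Holds, Fml.neg] using h⟩ }
  · show fP.Realize (Sum.elim (fun _ => j x) fun t => t.elim0)
    have e : (Sum.elim (fun _ => j x) (fun t => t.elim0) : Fin 1 ⊕ Fin 0 → U) =
        j ∘ (Sum.elim (fun _ => x) (fun t => t.elim0)) := by
      funext t
      rcases t with t | t
      · rfl
      · exact t.elim0
    rw [e, j.map_formula, realize_fP_nat hr]
    exact hx
  · rintro _ (rfl | rfl)
    · exact divides_O hr hax hC.ex hEP j huv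
    · exact divides_O hr hax hC.ex hEP j hvu
  · intro a ha
    let χ : LC.Formula (Fin 2 ⊕ Fin 1) :=
      (fP.relabel (Sum.elim Sum.inr fun t => t.elim0)).imp
        ((fO.relabel (Sum.elim Sum.inr (Sum.inl ∘ ![0, 1]))) ⊔
          (fO.relabel (Sum.elim Sum.inr (Sum.inl ∘ ![1, 0]))))
    have hchi : ∀ {K : Type} [LC.Structure K] (y : Fin 2 → K) (x : Fin 1 → K),
        χ.Realize (Sum.elim y x) ↔ (fP.Realize (Sum.elim x fun t => t.elim0) →
          (fO.Realize (Sum.elim x ![y 0, y 1]) ∨ fO.Realize (Sum.elim x ![y 1, y 0]))) := by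
      intro K _ y x
      have e : ∀ p q : Fin 2, ((Sum.elim y x) ∘ (Sum.elim Sum.inr (Sum.inl ∘ ![p, q])) :
          Fin 1 ⊕ Fin 2 → K) = Sum.elim x ![y p, y q] := by
        intro p q
        funext t
        rcases t with t | t
        · rfl
        · fin_cases t <;> rfl
      have e' : ((Sum.elim y x) ∘ (Sum.elim Sum.inr fun t => t.elim0) : Fin 1 ⊕ Fin 0 → K) =
          Sum.elim x fun t => t.elim0 := by
        funext t
        rcases t with t | t
        · rfl
        · exact t.elim0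
      simp only [χ, Formula.realize_imp, Formula.realize_sup, Formula.realize_relabel, e, e']
    have h3 := transfer_all j χ ![u, v] (by
      intro x
      rw [hchi]
      simp only [realize_fO_nat hr, realize_fP_nat hr]
      intro hP
      rcases (hax.act _ trivial hP).cov _ trivial _ trivial huv.adj with h | h
      · obtain ⟨c, -, h1, h2⟩ := h
        exact Or.inl ⟨c, h1, h2⟩
      · obtain ⟨c, -, h1, h2⟩ := h
        exact Or.inr ⟨c, h1, h2⟩) a
    rw [hchi] at h3
    rcases h3 ha with h4 | h4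
    · exact ⟨_, Or.inl rfl, h4⟩
    · exact ⟨_, Or.inr rfl, h4⟩

end Fork

/-- The main theorem. -/
theorem main : ∃ (L : FirstOrder.Language.{0, 0}) (T : L.Theory), T.IsComplete ∧
    CountablyCategorical T ∧ NSOP1 T ∧
    (∃ (κ : Cardinal.{0}) (U : Type) (_ : L.Structure U), IsMonster T κ U) ∧
    ∀ (U : Type) [L.Structure U], U ⊨ T →
      ∃ p : Set (Fml L 1 U), IsTypeOver (∅ : Set U) p ∧ ∃ ψ ∈ p, Forks (∅ : Set U) ψ := by
  obtain ⟨r, hax, hEP⟩ := exists_generic
  letI : LC.Structure NN := str r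
  have hr : Rep NN r := rep_str r
  obtain ⟨gc, fc, hC⟩ := exists_clos r hax
  have hsym : Countable LC.Symbols :=
    inferInstanceAs (Countable ((Σ l, LC.Functions l) ⊕ (Σ l, LC.Relations l)))
  have hcard : LC.card < ℵ₁ := lt_of_le_of_lt mk_le_aleph0 aleph0_lt_aleph_one
  refine ⟨LC, LC.completeTheory NN, completeTheory.isComplete LC NN, ⟨hsym, ?_, ?_⟩,
    nsop1 hr hax hEP, ?_, ?_⟩
  · exact ⟨NN, inferInstance, inferInstance, inferInstance, inferInstance⟩
  · intro M N _ _ hM hN _ _
    obtain ⟨e⟩ := equiv_of_finite_types (M := NN) (N := M) (sent_iff hM)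
      (finite_types hr hax hEP hC)
    obtain ⟨e'⟩ := equiv_of_finite_types (M := NN) (N := N) (sent_iff hN)
      (finite_types hr hax hEP hC)
    exact ⟨e'.comp e.symm⟩
  · refine ⟨ℵ₁, H968.Ult NN, inferInstance, ?_, aleph0_lt_aleph_one, hcard,
      H968.ult_saturated LC NN⟩
    rw [Theory.model_iff]
    intro φ hφ
    rw [Ultraproduct.sentence_realize]
    exact Filter.Eventually.of_forall fun _ => hφ
  · intro U _ hU
    exact forks_in hr hax hEP hU

end H968F
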