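import Pool.Agent.helper968_nsop1.Base

/-!
Amalgamation of three structures (by helper181).
-/

namespace H968F

open Classical Finset

variable {V : Type}

namespace AmN

theorem free_of_dl {G : SimpleGraph V} {X Y : Finset V}
    (h : dl G X + dl G Y ≤ dl G (X ∪ Y) + dl G (X ∩ Y)) : Free G X Y := by
  have h1 := es_union_sub (G := G) X Y
  have h2 := Finset.card_union_add_card_inter (es G X) (es G Y)
  have h3 := Finset.card_union_add_card_inter X Y
  rw [← es_inter] at h2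
  have h4 : es G X ∪ es G Y = es G (X ∪ Y) := by
    apply Finset.eq_of_subset_of_card_le h1
    simp only [dl] at h
    omega
  intro u hu v hv huv
  have h5 : s(u, v) ∈ es G (X ∪ Y) := by
    rw [mem_es]
    refine ⟨?_, huv⟩
    intro a ha
    rcases Sym2.mem_iff.1 ha with rfl | rfl
    · exact hu
    · exact hv
  rw [← h4, Finset.mem_union, mem_es, mem_es] at h5
  rcases h5 with h5 | h5
  · exact Or.inl ⟨h5.1 u (by simp), h5.1 v (by simp)⟩
  · exact Or.inr ⟨h5.1 u (by simp), h5.1 v (by simp)⟩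

end AmN

theorem Tri.s1 {G : SimpleGraph V} {A B C : Finset V} (h : Tri G A B C) : Tri G B A C := by
  have e1 : B ∩ A = A ∩ B := Finset.inter_comm _ _
  refine ⟨?_, ?_, ?_, ?_, ?_, ?_, ?_, ?_, ?_, ?_, ?_, ?_, ?_⟩
  · intro u hu v hv huv
    have h1 := h.free u (by simp only [Finset.mem_union] at hu ⊢; tauto) v
      (by simp only [Finset.mem_union] at hv ⊢; tauto) huv
    tauto
  · rw [e1]
    exact h.indB
  · rw [e1]
    exact h.indA
  · rw [e1]
    intro Z hZ hZ'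
    rw [Finset.union_comm] at hZ
    rw [add_comm (dl G (B ∩ C))]
    exact h.indC Z hZ hZ'
  · rw [e1]; exact h.zAB
  · rw [e1]; exact h.zBC
  · rw [e1]; exact h.zAC
  · rw [e1]; exact h.ABB
  · rw [e1]; exact h.ABA
  · exact h.BCB
  · exact h.BCC
  · exact h.ACA
  · exact h.ACC

theorem Tri.s2 {G : SimpleGraph V} {A B C : Finset V} (h : Tri G A B C) : Tri G A C B := by
  have e1 : C ∩ B = B ∩ C := Finset.inter_comm _ _
  have e2 : A ∩ C ∩ B = A ∩ B ∩ C := Finset.inter_right_comm _ _ _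
  refine ⟨?_, ?_, ?_, ?_, ?_, ?_, ?_, ?_, ?_, ?_, ?_, ?_, ?_⟩
  · intro u hu v hv huv
    have h1 := h.free u (by simp only [Finset.mem_union] at hu ⊢; tauto) v
      (by simp only [Finset.mem_union] at hv ⊢; tauto) huv
    tauto
  · rw [e2]
    intro Z hZ hZ'
    rw [Finset.union_comm] at hZ
    rw [add_comm (dl G (A ∩ C))]
    exact h.indA Z hZ hZ'
  · rw [e2, e1]
    exact h.indC
  · rw [e2, e1]
    exact h.indB
  · rw [e2]; exact h.zAC
  · rw [e2]; exact h.zAB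
  · rw [e2, e1]; exact h.zBC
  · exact h.ACA
  · exact h.ACC
  · exact h.ABA
  · exact h.ABB
  · rw [e1]; exact h.BCC
  · rw [e1]; exact h.BCB

namespace AmN

theorem freeC {G : SimpleGraph V} {A B C : Finset V} (h : Tri G A B C) :
    Free G (A ∩ C) (B ∩ C) := by
  apply free_of_dl
  have e : A ∩ C ∩ (B ∩ C) = A ∩ B ∩ C := by
    ext x; simp only [Finset.mem_inter]; tauto
  rw [e]
  exact h.indC _ subset_rfl (Finset.union_subset Finset.inter_subset_right Finset.inter_subset_right)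

end AmN

theorem Tri.free2 {G : SimpleGraph V} {A B C : Finset V} (h : Tri G A B C) :
    ∀ u ∈ A ∪ B, ∀ v ∈ A ∪ B, G.Adj u v → (u ∈ A ∧ v ∈ A) ∨ (u ∈ B ∧ v ∈ B) := by
  intro u hu v hv huv
  rcases h.free u (Finset.mem_union_left _ hu) v (Finset.mem_union_left _ hv) huv with
    h1 | h1 | h1
  · exact Or.inl h1
  · exact Or.inr h1
  · have h2 := AmN.freeC h u (by simp only [Finset.mem_union, Finset.mem_inter] at hu ⊢; tauto) v
      (by simp only [Finset.mem_union, Finset.mem_inter] at hv ⊢; tauto) huv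
    simp only [Finset.mem_inter] at h2
    tauto

namespace AmN

/-- inside the set `B` the two intersections are free -/
theorem freeIn {G : SimpleGraph V} {A B C : Finset V} (h : Tri G A B C) {S T : Finset V}
    (hS : S ⊆ A) (hT : T ⊆ B)
    (hSB : ∀ x ∈ T, x ∈ A → x ∈ S) (hTA : ∀ x ∈ S, x ∈ B → x ∈ T) :
    dl G (S ∪ T) + dl G (S ∩ T) = dl G S + dl G T := by
  apply dl_free
  intro u hu v hv huv
  have h1 := h.free2 u (Finset.union_subset_union hS hT hu) v (Finset.union_subset_union hS hT hv)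
    huv
  rw [Finset.mem_union] at hu hv
  rcases h1 with ⟨a, b⟩ | ⟨a, b⟩
  · left
    exact ⟨hu.elim id (fun h => hSB u h a), hv.elim id (fun h => hSB v h b)⟩
  · right
    exact ⟨hu.elim (fun h => hTA u h a) id, hv.elim (fun h => hTA v h b) id⟩

theorem dlC {G : SimpleGraph V} {A B C : Finset V} (h : Tri G A B C) :
    dl G ((A ∩ C) ∪ (B ∩ C)) + dl G (A ∩ B ∩ C) = dl G (A ∩ C) + dl G (B ∩ C) := by
  have e : A ∩ C ∩ (B ∩ C) = A ∩ B ∩ C := by
    ext x; simp only [Finset.mem_inter]; tauto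
  rw [← e]
  refine freeIn h Finset.inter_subset_left Finset.inter_subset_left ?_ ?_
  · intro x hx hA
    exact Finset.mem_inter.2 ⟨hA, (Finset.mem_inter.1 hx).2⟩
  · intro x hx hB
    exact Finset.mem_inter.2 ⟨hB, (Finset.mem_inter.1 hx).2⟩

end AmN

theorem Tri.wc {G : SimpleGraph V} {A B C : Finset V} (h : Tri G A B C) :
    WC G (A ∪ B) (A ∪ B ∪ C) where
  sub := Finset.subset_union_left
  le X hX hAB := by
    have e1 : (A ∪ B) ∪ (X ∩ C) = X := by
      ext x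
      have h1 := @hX x
      have h2 := @hAB x
      simp only [Finset.mem_union, Finset.mem_inter] at h1 h2 ⊢
      tauto
    have e2 : (A ∪ B) ∩ (X ∩ C) = (A ∩ C) ∪ (B ∩ C) := by
      ext x
      have h2 := @hAB x
      simp only [Finset.mem_union, Finset.mem_inter] at h2 ⊢
      tauto
    have h1 := dl_free (G := G) (X := A ∪ B) (Y := X ∩ C) (by
      rw [e1]
      intro u hu v hv huv
      have := h.free u (hX hu) v (hX hv) huv
      simp only [Finset.mem_union, Finset.mem_inter]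
      tauto)
    rw [e1, e2] at h1
    have h2 := AmN.dlC h
    have h3 := h.indC (X ∩ C) (by
      intro x
      have h2 := @hAB x
      simp only [Finset.mem_union, Finset.mem_inter] at h2 ⊢
      tauto) Finset.inter_subset_right
    omega

namespace AmN

/-- In `B`, the union of the two intersections is weakly closed: the estimate needed. -/
theorem estB {G : SimpleGraph V} {A B C X : Finset V} (h : Tri G A B C) (hA : A ⊆ X) :
    dl G (A ∩ B) + dl G (X ∩ (B ∩ C)) ≤ dl G (X ∩ B) + dl G (A ∩ B ∩ C) := by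
  have h' : Tri G A C B := h.s2
  -- D1 ∪ D3
  have h1 := AmN.dlC h'
  have e0 : A ∩ C ∩ B = A ∩ B ∩ C := Finset.inter_right_comm _ _ _
  have e1 : C ∩ B = B ∩ C := Finset.inter_comm _ _
  rw [e0, e1] at h1
  have h2 := h.indB ((X ∩ B) ∪ ((A ∩ B) ∪ (B ∩ C))) Finset.subset_union_right
    (Finset.union_subset Finset.inter_subset_right (Finset.union_subset
      Finset.inter_subset_right Finset.inter_subset_left))
  have h3 := dl_submod (G := G) (X ∩ B) ((A ∩ B) ∪ (B ∩ C))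
  have e2 : (X ∩ B) ∩ ((A ∩ B) ∪ (B ∩ C)) = (A ∩ B) ∪ (X ∩ (B ∩ C)) := by
    ext x
    have := @hA x
    simp only [Finset.mem_union, Finset.mem_inter] at this ⊢
    tauto
  have h4 := freeIn h' (S := A ∩ B) (T := X ∩ (B ∩ C)) Finset.inter_subset_left
    (fun x hx => by simp only [Finset.mem_inter] at hx; tauto)
    (fun x hx hx' => by simp only [Finset.mem_inter] at hx ⊢; tauto)
    (fun x hx hx' => by
      have := @hA x
      simp only [Finset.mem_inter] at hx ⊢; tauto)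
  have e3 : (A ∩ B) ∩ (X ∩ (B ∩ C)) = A ∩ B ∩ C := by
    ext x
    have := @hA x
    simp only [Finset.mem_inter] at this ⊢
    tauto
  rw [e2] at h3
  rw [e3] at h4
  omega

end AmN

theorem Tri.closed {G : SimpleGraph V} {A B C : Finset V} (h : Tri G A B C) :
    Cl G A ((A ∪ B ∪ C : Finset V) : Set V) where
  sub := by
    have : A ⊆ A ∪ B ∪ C := Finset.subset_union_left.trans Finset.subset_union_left
    exact_mod_cast this
  lt X hX hAX := by
    have hX' : X ⊆ A ∪ B ∪ C := by exact_mod_cast hX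
    have hA : A ⊆ X := hAX.1
    have hBC : Tri G B C A := h.s1.s2
    -- dl X
    have e1 : A ∪ ((X ∩ B) ∪ (X ∩ C)) = X := by
      ext x
      have h1 := @hX' x
      have h2 := @hA x
      simp only [Finset.mem_union, Finset.mem_inter] at h1 h2 ⊢
      tauto
    have e2 : A ∩ ((X ∩ B) ∪ (X ∩ C)) = (B ∩ A) ∪ (C ∩ A) := by
      ext x
      have h2 := @hA x
      simp only [Finset.mem_union, Finset.mem_inter] at h2 ⊢
      tauto
    have h1 := dl_free (G := G) (X := A) (Y := (X ∩ B) ∪ (X ∩ C)) (by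
      rw [e1]
      intro u hu v hv huv
      have := h.free u (hX' hu) v (hX' hv) huv
      simp only [Finset.mem_union, Finset.mem_inter]
      tauto)
    rw [e1, e2] at h1
    have h2 := AmN.dlC hBC
    have e3 : B ∩ A = A ∩ B := Finset.inter_comm _ _
    have e4 : C ∩ A = A ∩ C := Finset.inter_comm _ _
    have e5 : B ∩ C ∩ A = A ∩ B ∩ C := by
      ext x
      simp only [Finset.mem_inter]
      tauto
    rw [e3, e4] at h1
    rw [e3, e4, e5] at h2
    have h3 := AmN.freeIn hBC (S := X ∩ B) (T := X ∩ C) Finset.inter_subset_right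
      Finset.inter_subset_right
      (fun x hx hx' => Finset.mem_inter.2 ⟨(Finset.mem_inter.1 hx).1, hx'⟩)
      (fun x hx hx' => Finset.mem_inter.2 ⟨(Finset.mem_inter.1 hx).1, hx'⟩)
    have e6 : (X ∩ B) ∩ (X ∩ C) = X ∩ (B ∩ C) := by
      ext x
      simp only [Finset.mem_inter]
      tauto
    rw [e6] at h3
    have h4 := AmN.estB h hA
    have h5 := AmN.estB h.s2 hA
    have e7 : C ∩ B = B ∩ C := Finset.inter_comm _ _
    have e8 : A ∩ C ∩ B = A ∩ B ∩ C := Finset.inter_right_comm _ _ _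
    rw [e7, e8] at h5
    by_cases hX3 : A ∩ B ∩ C = X ∩ (B ∩ C)
    · rw [← hX3] at h3 h4 h5
      have h6 := h.ABB.le (X := X ∩ B) (by exact_mod_cast Finset.inter_subset_right)
        (Finset.inter_subset_inter_right hA)
      have h7 := h.ACC.le (X := X ∩ C) (by exact_mod_cast Finset.inter_subset_right)
        (Finset.inter_subset_inter_right hA)
      obtain ⟨x, hxX, hxA⟩ := Finset.exists_of_ssubset hAX
      have hx := hX' hxX
      simp only [Finset.mem_union] at hx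
      rcases hx with (hx | hx) | hx
      · exact absurd hx hxA
      · have h8 := h.ABB.lt (X ∩ B) (by exact_mod_cast Finset.inter_subset_right)
          (Finset.ssubset_iff_subset_ne.2 ⟨Finset.inter_subset_inter_right hA, fun heq => hxA (by
            have : x ∈ A ∩ B := by rw [heq]; exact Finset.mem_inter.2 ⟨hxX, hx⟩
            exact (Finset.mem_inter.1 this).1)⟩)
        omega
      · have h8 := h.ACC.lt (X ∩ C) (by exact_mod_cast Finset.inter_subset_right)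
          (Finset.ssubset_iff_subset_ne.2 ⟨Finset.inter_subset_inter_right hA, fun heq => hxA (by
            have : x ∈ A ∩ C := by rw [heq]; exact Finset.mem_inter.2 ⟨hxX, hx⟩
            exact (Finset.mem_inter.1 this).1)⟩)
        omega
    · have h6 := h.zBC.lt (X ∩ (B ∩ C)) (by exact_mod_cast Finset.inter_subset_right)
        (Finset.ssubset_iff_subset_ne.2 ⟨by
          intro x hx
          have := @hA x
          simp only [Finset.mem_inter] at hx ⊢
          tauto, hX3⟩)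
      omega

namespace AmN

theorem restrict_ind {G : SimpleGraph V} {A B C : Finset V} (h : Tri G A B C) (X : Finset V) :
    ∀ Z : Finset V, ((A ∩ X) ∩ (C ∩ X)) ∪ ((B ∩ X) ∩ (C ∩ X)) ⊆ Z → Z ⊆ C ∩ X →
    dl G ((A ∩ X) ∩ (C ∩ X)) + dl G ((B ∩ X) ∩ (C ∩ X)) ≤
      dl G Z + dl G ((A ∩ X) ∩ (B ∩ X) ∩ (C ∩ X)) := by
  intro Z hZ hZC
  have h1 := dlC h
  have h2 := h.indC (Z ∪ ((A ∩ C) ∪ (B ∩ C))) Finset.subset_union_right (Finset.union_subset
    (hZC.trans Finset.inter_subset_left) (Finset.union_subset Finset.inter_subset_right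
      Finset.inter_subset_right))
  have h3 := dl_submod (G := G) Z ((A ∩ C) ∪ (B ∩ C))
  have e1 : Z ∩ ((A ∩ C) ∪ (B ∩ C)) = ((A ∩ X) ∩ (C ∩ X)) ∪ ((B ∩ X) ∩ (C ∩ X)) := by
    ext x
    have k1 := @hZ x
    have k2 := @hZC x
    simp only [Finset.mem_inter, Finset.mem_union] at k1 k2 ⊢
    tauto
  have h4 := freeIn h (S := (A ∩ X) ∩ (C ∩ X)) (T := (B ∩ X) ∩ (C ∩ X))
    (fun x hx => by simp only [Finset.mem_inter] at hx; tauto)
    (fun x hx => by simp only [Finset.mem_inter] at hx; tauto)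
    (fun x hx hx' => by simp only [Finset.mem_inter] at hx ⊢; tauto)
    (fun x hx hx' => by simp only [Finset.mem_inter] at hx ⊢; tauto)
  have e2 : ((A ∩ X) ∩ (C ∩ X)) ∩ ((B ∩ X) ∩ (C ∩ X)) = (A ∩ X) ∩ (B ∩ X) ∩ (C ∩ X) := by
    ext x
    simp only [Finset.mem_inter]
    tauto
  rw [e1] at h3
  rw [e2] at h4
  omega

theorem cl_restrict {G : SimpleGraph V} {A D E : Finset V} (h : Cl G (A ∩ D) (E : Set V))
    (X : Finset V) : Cl G ((A ∩ X) ∩ (D ∩ X)) ((E ∩ X : Finset V) : Set V) := by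
  refine h.inter_sub (by exact_mod_cast Finset.inter_subset_left) ?_
  intro x
  have hs : A ∩ D ⊆ E := by exact_mod_cast h.sub
  have := @hs x
  simp only [Finset.mem_inter, Finset.coe_inter, Set.mem_inter_iff, Finset.mem_coe] at this ⊢
  tauto

theorem cl_restrict3 {G : SimpleGraph V} {A B C D E : Finset V}
    (h : Cl G (A ∩ B ∩ C) ((D ∩ E : Finset V) : Set V))
    (X : Finset V) : Cl G ((A ∩ X) ∩ (B ∩ X) ∩ (C ∩ X)) (((D ∩ X) ∩ (E ∩ X) : Finset V) : Set V) := by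
  refine h.inter_sub (fun x => ?_) ?_
  · simp only [Finset.coe_inter, Set.mem_inter_iff, Finset.mem_coe]
    tauto
  · intro x
    have hs : A ∩ B ∩ C ⊆ D ∩ E := by exact_mod_cast h.sub
    have := @hs x
    simp only [Finset.mem_inter, Finset.coe_inter, Set.mem_inter_iff, Finset.mem_coe] at this ⊢
    tauto

theorem restrict {G : SimpleGraph V} {A B C : Finset V} (h : Tri G A B C) (X : Finset V) :
    Tri G (A ∩ X) (B ∩ X) (C ∩ X) := by
  refine ⟨?_, ?_, ?_, ?_, ?_, ?_, ?_, ?_, ?_, ?_, ?_, ?_, ?_⟩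
  · intro u hu v hv huv
    simp only [Finset.mem_union, Finset.mem_inter] at hu hv ⊢
    have h1 := h.free u (by simp only [Finset.mem_union]; tauto) v
      (by simp only [Finset.mem_union]; tauto) huv
    tauto
  · -- indA
    have h1 := restrict_ind (h.s1.s2) X
    -- Tri G B C A
    have e1 : (B ∩ X) ∩ (A ∩ X) = (A ∩ X) ∩ (B ∩ X) := Finset.inter_comm _ _
    have e2 : (C ∩ X) ∩ (A ∩ X) = (A ∩ X) ∩ (C ∩ X) := Finset.inter_comm _ _
    have e3 : (B ∩ X) ∩ (C ∩ X) ∩ (A ∩ X) = (A ∩ X) ∩ (B ∩ X) ∩ (C ∩ X) := by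
      ext x; simp only [Finset.mem_inter]; tauto
    rw [e1, e2, e3] at h1
    exact h1
  · -- indB : Tri G A C B
    have h1 := restrict_ind h.s2 X
    have e2 : (C ∩ X) ∩ (B ∩ X) = (B ∩ X) ∩ (C ∩ X) := Finset.inter_comm _ _
    have e3 : (A ∩ X) ∩ (C ∩ X) ∩ (B ∩ X) = (A ∩ X) ∩ (B ∩ X) ∩ (C ∩ X) := by
      ext x; simp only [Finset.mem_inter]; tauto
    rw [e2, e3] at h1
    exact h1
  · exact restrict_ind h X
  · exact cl_restrict3 h.zAB X
  · exact cl_restrict3 h.zAC X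
  · exact cl_restrict3 h.zBC X
  · exact cl_restrict h.ABA X
  · exact cl_restrict h.ABB X
  · exact cl_restrict h.ACA X
  · exact cl_restrict h.ACC X
  · exact cl_restrict h.BCB X
  · exact cl_restrict h.BCC X

theorem gr_aux {G : SimpleGraph V} {A B C : Finset V} (h : Tri G A B C)
    (hA : Gr G (A : Set V)) {X : Finset V} (hX : X ⊆ A ∪ B ∪ C) (hne : X.Nonempty)
    (hc : X.card ≤ 3 * (A ∩ X).card) : 4 * X.card ≤ 3 ^ (dl G X).toNat := by
  have hne' : (A ∩ X).Nonempty := by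
    rw [← Finset.card_pos]
    have := Finset.card_pos.2 hne
    omega
  have h1 := hA (A ∩ X) (by exact_mod_cast Finset.inter_subset_left) hne'
  by_cases hAX : A ∩ X = X
  · rw [hAX] at h1
    exact h1
  · have h2 := (restrict h X).closed
    have e : (A ∩ X) ∪ (B ∩ X) ∪ (C ∩ X) = X := by
      ext x
      have := @hX x
      simp only [Finset.mem_union, Finset.mem_inter] at this ⊢
      tauto
    rw [e] at h2
    have h3 := h2.lt X subset_rfl (Finset.ssubset_iff_subset_ne.2 ⟨Finset.inter_subset_right, hAX⟩)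
    have h4 := hA.two_le (X := A ∩ X) (by exact_mod_cast Finset.inter_subset_left) hne'
    have h5 : (dl G (A ∩ X)).toNat + 1 ≤ (dl G X).toNat := by omega
    have h6 : 3 ^ ((dl G (A ∩ X)).toNat + 1) ≤ 3 ^ (dl G X).toNat :=
      Nat.pow_le_pow_right (by norm_num) h5
    rw [pow_succ] at h6
    omega

end AmN

theorem Tri.gr {G : SimpleGraph V} {A B C : Finset V} (h : Tri G A B C)
    (hA : Gr G (A : Set V)) (hB : Gr G (B : Set V)) (hC : Gr G (C : Set V)) :
    Gr G ((A ∪ B ∪ C : Finset V) : Set V) := by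
  intro X hX hne
  have hX' : X ⊆ A ∪ B ∪ C := by exact_mod_cast hX
  have e : (A ∩ X) ∪ (B ∩ X) ∪ (C ∩ X) = X := by
    ext x
    have := @hX' x
    simp only [Finset.mem_union, Finset.mem_inter] at this ⊢
    tauto
  have hc : X.card ≤ (A ∩ X).card + (B ∩ X).card + (C ∩ X).card := by
    have h1 := Finset.card_union_le ((A ∩ X) ∪ (B ∩ X)) (C ∩ X)
    have h2 := Finset.card_union_le (A ∩ X) (B ∩ X)
    rw [e] at h1
    omega
  have hor : X.card ≤ 3 * (A ∩ X).card ∨ X.card ≤ 3 * (B ∩ X).card ∨ X.card ≤ 3 * (C ∩ X).card := by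
    omega
  rcases hor with h1 | h1 | h1
  · exact AmN.gr_aux h hA hX' hne h1
  · refine AmN.gr_aux h.s1 hB (fun x hx => ?_) hne h1
    have := hX' hx
    simp only [Finset.mem_union] at this ⊢
    tauto
  · refine AmN.gr_aux h.s2.s1 hC (fun x hx => ?_) hne h1
    have := hX' hx
    simp only [Finset.mem_union] at this ⊢
    tauto

namespace AmN

/-- the union of those of the three sets which contain `x` -/
noncomputable def KU (A B C : Finset V) (x : V) : Finset V :=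
  (A ∪ B ∪ C).filter (fun z => (x ∈ A ∧ z ∈ A) ∨ (x ∈ B ∧ z ∈ B) ∨ (x ∈ C ∧ z ∈ C))

theorem mem_KU {A B C : Finset V} {x z : V} :
    z ∈ KU A B C x ↔ (x ∈ A ∧ z ∈ A) ∨ (x ∈ B ∧ z ∈ B) ∨ (x ∈ C ∧ z ∈ C) := by
  rw [KU, Finset.mem_filter]
  simp only [Finset.mem_union]
  tauto

theorem KU_wc {G : SimpleGraph V} {A B C : Finset V} (h : Tri G A B C) {x : V}
    (hx : x ∈ A ∪ B ∪ C) : WC G (KU A B C x) (A ∪ B ∪ C) := by
  have eB : A ∪ B ∪ C = B ∪ A ∪ C := by
    ext x; simp only [Finset.mem_union]; tauto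
  have eC : A ∪ B ∪ C = C ∪ A ∪ B := by
    ext x; simp only [Finset.mem_union]; tauto
  have eAC : A ∪ B ∪ C = A ∪ C ∪ B := by
    ext x; simp only [Finset.mem_union]; tauto
  have eBC : A ∪ B ∪ C = B ∪ C ∪ A := by
    ext x; simp only [Finset.mem_union]; tauto
  by_cases hA : x ∈ A
  · by_cases hB : x ∈ B
    · by_cases hC : x ∈ C
      · have e : KU A B C x = A ∪ B ∪ C := by
          ext z; rw [mem_KU]; simp only [Finset.mem_union]; tauto
        rw [e]
        exact WC.refl _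
      · have e : KU A B C x = A ∪ B := by
          ext z; rw [mem_KU]; simp only [Finset.mem_union]; tauto
        rw [e]
        exact h.wc
    · by_cases hC : x ∈ C
      · have e : KU A B C x = A ∪ C := by
          ext z; rw [mem_KU]; simp only [Finset.mem_union]; tauto
        rw [e, eAC]
        exact h.s2.wc
      · have e : KU A B C x = A := by
          ext z; rw [mem_KU]; tauto
        rw [e]
        exact h.closed.wc
  · by_cases hB : x ∈ B
    · by_cases hC : x ∈ C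
      · have e : KU A B C x = B ∪ C := by
          ext z; rw [mem_KU]; simp only [Finset.mem_union]; tauto
        rw [e, eBC]
        exact h.s1.s2.wc
      · have e : KU A B C x = B := by
          ext z; rw [mem_KU]; tauto
        rw [e, eB]
        exact h.s1.closed.wc
    · have hC : x ∈ C := by
        simp only [Finset.mem_union] at hx
        tauto
      have e : KU A B C x = C := by
        ext z; rw [mem_KU]; tauto
      rw [e, eC]
      exact h.s2.s1.closed.wc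

theorem KU_adj {G : SimpleGraph V} {A B C : Finset V} (h : Tri G A B C) {x z w : V}
    (hz : z ∈ KU A B C x) (hw : w ∈ KU A B C x) (hzw : G.Adj z w) :
    (x ∈ A ∧ z ∈ A ∧ w ∈ A) ∨ (x ∈ B ∧ z ∈ B ∧ w ∈ B) ∨ (x ∈ C ∧ z ∈ C ∧ w ∈ C) := by
  rw [mem_KU] at hz hw
  have k1 : (z ∈ A ∨ z ∈ B) → (w ∈ A ∨ w ∈ B) → (z ∈ A ∧ w ∈ A) ∨ (z ∈ B ∧ w ∈ B) :=
    fun a b => h.free2 z (Finset.mem_union.2 a) w (Finset.mem_union.2 b) hzw
  have k2 : (z ∈ A ∨ z ∈ C) → (w ∈ A ∨ w ∈ C) → (z ∈ A ∧ w ∈ A) ∨ (z ∈ C ∧ w ∈ C) :=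
    fun a b => h.s2.free2 z (Finset.mem_union.2 a) w (Finset.mem_union.2 b) hzw
  have k3 : (z ∈ B ∨ z ∈ C) → (w ∈ B ∨ w ∈ C) → (z ∈ B ∧ w ∈ B) ∨ (z ∈ C ∧ w ∈ C) :=
    fun a b => h.s1.s2.free2 z (Finset.mem_union.2 a) w (Finset.mem_union.2 b) hzw
  by_cases hA : x ∈ A
  · by_cases hB : x ∈ B
    · by_cases hC : x ∈ C
      · simp only [hA, hB, hC, true_and] at hz hw ⊢
        exact h.free z (by simp only [Finset.mem_union]; rw [or_assoc]; exact hz) w
          (by simp only [Finset.mem_union]; rw [or_assoc]; exact hw) hzw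
      · simp only [hA, hB, hC, true_and, false_and, or_false] at hz hw ⊢
        exact k1 hz hw
    · by_cases hC : x ∈ C
      · simp only [hA, hB, hC, true_and, false_and, false_or] at hz hw ⊢
        exact k2 hz hw
      · simp only [hA, hB, hC, true_and, false_and, or_false] at hz hw ⊢
        exact ⟨hz, hw⟩
  · by_cases hB : x ∈ B
    · by_cases hC : x ∈ C
      · simp only [hA, hB, hC, true_and, false_and, false_or] at hz hw ⊢
        exact k3 hz hw
      · simp only [hA, hB, hC, true_and, false_and, false_or, or_false] at hz hw ⊢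
        exact ⟨hz, hw⟩
    · simp only [hA, hB, false_and, false_or] at hz hw ⊢
      exact ⟨hz.1, hz.2, hw.2⟩

end AmN

theorem amalg3 (r : Rels V) (A B C : Finset V) (h : Tri r.G A B C) (hA : Ax r (A : Set V))
    (hB : Ax r (B : Set V)) (hC : Ax r (C : Set V))
    (ABA : ClR r (A ∩ B) (A : Set V)) (ABB : ClR r (A ∩ B) (B : Set V))
    (ACA : ClR r (A ∩ C) (A : Set V)) (ACC : ClR r (A ∩ C) (C : Set V))
    (BCB : ClR r (B ∩ C) (B : Set V)) (BCC : ClR r (B ∩ C) (C : Set V))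
    (hK : ∀ z ∈ A ∪ B ∪ C, ∀ w ∈ A ∪ B ∪ C, ∀ c ∈ A ∪ B ∪ C, r.K z w c →
      (z ∈ A ∧ w ∈ A ∧ c ∈ A) ∨ (z ∈ B ∧ w ∈ B ∧ c ∈ B) ∨ (z ∈ C ∧ w ∈ C ∧ c ∈ C))
    (hS : ∀ x ∈ A ∪ B ∪ C, ∀ z ∈ A ∪ B ∪ C, ∀ c ∈ A ∪ B ∪ C, r.S x z c →
      (x ∈ A ∧ z ∈ A ∧ c ∈ A) ∨ (x ∈ B ∧ z ∈ B ∧ c ∈ B) ∨ (x ∈ C ∧ z ∈ C ∧ c ∈ C)) :
    ∃ o : V → V → V → Prop, Ax (r.setS o) ((A ∪ B ∪ C : Finset V) : Set V) ∧
      (∀ x ∈ A, ∀ z ∈ A, ∀ c ∈ A, (o x z c ↔ r.S x z c)) ∧
      (∀ x ∈ B, ∀ z ∈ B, ∀ c ∈ B, (o x z c ↔ r.S x z c)) ∧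
      (∀ x ∈ C, ∀ z ∈ C, ∀ c ∈ C, (o x z c ↔ r.S x z c)) ∧
      ClR (r.setS o) A ((A ∪ B ∪ C : Finset V) : Set V) ∧
      ClR (r.setS o) B ((A ∪ B ∪ C : Finset V) : Set V) ∧
      ClR (r.setS o) C ((A ∪ B ∪ C : Finset V) : Set V) := by
  have sA : ∀ {x}, x ∈ A → x ∈ A ∪ B ∪ C := fun h =>
    Finset.mem_union_left _ (Finset.mem_union_left _ h)
  have sB : ∀ {x}, x ∈ B → x ∈ A ∪ B ∪ C := fun h =>
    Finset.mem_union_left _ (Finset.mem_union_right _ h)
  have sC : ∀ {x}, x ∈ C → x ∈ A ∪ B ∪ C := fun h => Finset.mem_union_right _ h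
  have cU : ∀ {x}, x ∈ A ∪ B ∪ C → x ∈ A ∨ x ∈ B ∨ x ∈ C := fun h => by
    simp only [Finset.mem_union] at h; tauto
  have mi : ∀ {X Y : Finset V} {x : V}, x ∈ X → x ∈ Y → x ∈ X ∩ Y := fun a b =>
    Finset.mem_inter.2 ⟨a, b⟩
  have hKA : ∀ z ∈ A, ∀ w ∈ A, ∀ c ∈ A ∪ B ∪ C, r.K z w c → c ∈ A := by
    intro z hz w hw c hc h1
    rcases hK z (sA hz) w (sA hw) c hc h1 with ⟨_, _, h2⟩ | ⟨h2, h3, h4⟩ | ⟨h2, h3, h4⟩
    · exact h2
    · exact (Finset.mem_inter.1 (ABB.K z (mi hz h2) w (mi hw h3) c h4 h1)).1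
    · exact (Finset.mem_inter.1 (ACC.K z (mi hz h2) w (mi hw h3) c h4 h1)).1
  have hKB : ∀ z ∈ B, ∀ w ∈ B, ∀ c ∈ A ∪ B ∪ C, r.K z w c → c ∈ B := by
    intro z hz w hw c hc h1
    rcases hK z (sB hz) w (sB hw) c hc h1 with ⟨h2, h3, h4⟩ | ⟨_, _, h2⟩ | ⟨h2, h3, h4⟩
    · exact (Finset.mem_inter.1 (ABA.K z (mi h2 hz) w (mi h3 hw) c h4 h1)).2
    · exact h2
    · exact (Finset.mem_inter.1 (BCC.K z (mi hz h2) w (mi hw h3) c h4 h1)).1
  have hKC : ∀ z ∈ C, ∀ w ∈ C, ∀ c ∈ A ∪ B ∪ C, r.K z w c → c ∈ C := by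
    intro z hz w hw c hc h1
    rcases hK z (sC hz) w (sC hw) c hc h1 with ⟨h2, h3, h4⟩ | ⟨h2, h3, h4⟩ | ⟨_, _, h2⟩
    · exact (Finset.mem_inter.1 (ACA.K z (mi h2 hz) w (mi h3 hw) c h4 h1)).2
    · exact (Finset.mem_inter.1 (BCB.K z (mi h2 hz) w (mi h3 hw) c h4 h1)).2
    · exact h2
  have hSA : ∀ z ∈ A, ∀ w ∈ A, ∀ c ∈ A ∪ B ∪ C, r.S z w c → c ∈ A := by
    intro z hz w hw c hc h1
    rcases hS z (sA hz) w (sA hw) c hc h1 with ⟨_, _, h2⟩ | ⟨h2, h3, h4⟩ | ⟨h2, h3, h4⟩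
    · exact h2
    · exact (Finset.mem_inter.1 (ABB.S z (mi hz h2) w (mi hw h3) c h4 h1)).1
    · exact (Finset.mem_inter.1 (ACC.S z (mi hz h2) w (mi hw h3) c h4 h1)).1
  have hSB : ∀ z ∈ B, ∀ w ∈ B, ∀ c ∈ A ∪ B ∪ C, r.S z w c → c ∈ B := by
    intro z hz w hw c hc h1
    rcases hS z (sB hz) w (sB hw) c hc h1 with ⟨h2, h3, h4⟩ | ⟨_, _, h2⟩ | ⟨h2, h3, h4⟩
    · exact (Finset.mem_inter.1 (ABA.S z (mi h2 hz) w (mi h3 hw) c h4 h1)).2
    · exact h2
    · exact (Finset.mem_inter.1 (BCC.S z (mi hz h2) w (mi hw h3) c h4 h1)).1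
  have hSC : ∀ z ∈ C, ∀ w ∈ C, ∀ c ∈ A ∪ B ∪ C, r.S z w c → c ∈ C := by
    intro z hz w hw c hc h1
    rcases hS z (sC hz) w (sC hw) c hc h1 with ⟨h2, h3, h4⟩ | ⟨h2, h3, h4⟩ | ⟨_, _, h2⟩
    · exact (Finset.mem_inter.1 (ACA.S z (mi h2 hz) w (mi h3 hw) c h4 h1)).2
    · exact (Finset.mem_inter.1 (BCB.S z (mi h2 hz) w (mi h3 hw) c h4 h1)).2
    · exact h2
  have h0 : Ax0 r ((A ∪ B ∪ C : Finset V) : Set V) := {
    gr := h.gr hA.gr hB.gr hC.gr
    PC := fun x hx h1 => by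
      rcases cU (Finset.mem_coe.1 hx) with h2 | h2 | h2
      · exact hA.PC x h2 h1
      · exact hB.PC x h2 h1
      · exact hC.PC x h2 h1
    iso := fun u hu v hv huv => by
      rcases h.free u hu v hv huv with ⟨a, b⟩ | ⟨a, b⟩ | ⟨a, b⟩
      · exact hA.iso u a v b huv
      · exact hB.iso u a v b huv
      · exact hC.iso u a v b huv
    KG := fun z hz w hw c hc h1 => by
      rcases hK z hz w hw c hc h1 with ⟨h2, h3, h4⟩ | ⟨h2, h3, h4⟩ | ⟨h2, h3, h4⟩
      · exact hA.KG z h2 w h3 c h4 h1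
      · exact hB.KG z h2 w h3 c h4 h1
      · exact hC.KG z h2 w h3 c h4 h1
    Kex := fun z hz w hw h1 => by
      rcases h.free z hz w hw h1 with ⟨a, b⟩ | ⟨a, b⟩ | ⟨a, b⟩
      · obtain ⟨c, h2, h3⟩ := hA.Kex z a w b h1
        exact ⟨c, Finset.mem_coe.2 (sA h2), h3⟩
      · obtain ⟨c, h2, h3⟩ := hB.Kex z a w b h1
        exact ⟨c, Finset.mem_coe.2 (sB h2), h3⟩
      · obtain ⟨c, h2, h3⟩ := hC.Kex z a w b h1
        exact ⟨c, Finset.mem_coe.2 (sC h2), h3⟩
    Kun := fun z hz w hw c hc c' hc' h1 h1' => by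
      rcases hK z hz w hw c hc h1 with ⟨h2, h3, h4⟩ | ⟨h2, h3, h4⟩ | ⟨h2, h3, h4⟩
      · exact hA.Kun z h2 w h3 c h4 c' (hKA z h2 w h3 c' hc' h1') h1 h1'
      · exact hB.Kun z h2 w h3 c h4 c' (hKB z h2 w h3 c' hc' h1') h1 h1'
      · exact hC.Kun z h2 w h3 c h4 c' (hKC z h2 w h3 c' hc' h1') h1 h1' }
  obtain ⟨o, ho1, ho2⟩ := complete h0 (AmN.KU A B C) (fun x hx _ => AmN.KU_wc h hx) (by
    intro x hx hp
    exact {
      col := fun z hz c hc h1 => by
        have hzU : z ∈ A ∪ B ∪ C := (Finset.mem_filter.1 (Finset.mem_coe.1 hz)).1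
        rcases hS x hx z hzU c hc h1 with ⟨h2, h3, h4⟩ | ⟨h2, h3, h4⟩ | ⟨h2, h3, h4⟩
        · exact (hA.act x h2 hp).col z h3 c h4 h1
        · exact (hB.act x h2 hp).col z h3 c h4 h1
        · exact (hC.act x h2 hp).col z h3 c h4 h1
      two := fun z hz a ha b hb c hc h1 h2 h3 => by
        rcases AmN.mem_KU.1 (Finset.mem_coe.1 hz) with ⟨h4, h5⟩ | ⟨h4, h5⟩ | ⟨h4, h5⟩
        · exact (hA.act x h4 hp).two z h5 a (hSA x h4 z h5 a ha h1) b (hSA x h4 z h5 b hb h2) c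
            (hSA x h4 z h5 c hc h3) h1 h2 h3
        · exact (hB.act x h4 hp).two z h5 a (hSB x h4 z h5 a ha h1) b (hSB x h4 z h5 b hb h2) c
            (hSB x h4 z h5 c hc h3) h1 h2 h3
        · exact (hC.act x h4 hp).two z h5 a (hSC x h4 z h5 a ha h1) b (hSC x h4 z h5 b hb h2) c
            (hSC x h4 z h5 c hc h3) h1 h2 h3
      cov := fun z hz w hw hzw => by
        rcases AmN.KU_adj h (Finset.mem_coe.1 hz) (Finset.mem_coe.1 hw) hzw with
          ⟨h4, h5, h6⟩ | ⟨h4, h5, h6⟩ | ⟨h4, h5, h6⟩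
        · rcases (hA.act x h4 hp).cov z h5 w h6 hzw with ⟨c, k1, k2, k3⟩ | ⟨c, k1, k2, k3⟩
          · exact Or.inl ⟨c, Finset.mem_coe.2 (sA k1), k2, k3⟩
          · exact Or.inr ⟨c, Finset.mem_coe.2 (sA k1), k2, k3⟩
        · rcases (hB.act x h4 hp).cov z h5 w h6 hzw with ⟨c, k1, k2, k3⟩ | ⟨c, k1, k2, k3⟩
          · exact Or.inl ⟨c, Finset.mem_coe.2 (sB k1), k2, k3⟩
          · exact Or.inr ⟨c, Finset.mem_coe.2 (sB k1), k2, k3⟩
        · rcases (hC.act x h4 hp).cov z h5 w h6 hzw with ⟨c, k1, k2, k3⟩ | ⟨c, k1, k2, k3⟩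
          · exact Or.inl ⟨c, Finset.mem_coe.2 (sC k1), k2, k3⟩
          · exact Or.inr ⟨c, Finset.mem_coe.2 (sC k1), k2, k3⟩ })
  have hoA : ∀ x ∈ A, ∀ z ∈ A, ∀ c ∈ A ∪ B ∪ C, (o x z c ↔ r.S x z c) := by
    intro x hx z hz c hc
    by_cases hp : r.P x
    · exact ho2 x (sA hx) hp z (AmN.mem_KU.2 (Or.inl ⟨hx, hz⟩)) c hc
    · exact ⟨fun h4 => absurd (ho1.SP x (sA hx) z (sA hz) c hc h4) hp,
        fun h4 => absurd (hA.SP x hx z hz c (hSA x hx z hz c hc h4) h4) hp⟩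
  have hoB : ∀ x ∈ B, ∀ z ∈ B, ∀ c ∈ A ∪ B ∪ C, (o x z c ↔ r.S x z c) := by
    intro x hx z hz c hc
    by_cases hp : r.P x
    · exact ho2 x (sB hx) hp z (AmN.mem_KU.2 (Or.inr (Or.inl ⟨hx, hz⟩))) c hc
    · exact ⟨fun h4 => absurd (ho1.SP x (sB hx) z (sB hz) c hc h4) hp,
        fun h4 => absurd (hB.SP x hx z hz c (hSB x hx z hz c hc h4) h4) hp⟩
  have hoC : ∀ x ∈ C, ∀ z ∈ C, ∀ c ∈ A ∪ B ∪ C, (o x z c ↔ r.S x z c) := by
    intro x hx z hz c hc
    by_cases hp : r.P x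
    · exact ho2 x (sC hx) hp z (AmN.mem_KU.2 (Or.inr (Or.inr ⟨hx, hz⟩))) c hc
    · exact ⟨fun h4 => absurd (ho1.SP x (sC hx) z (sC hz) c hc h4) hp,
        fun h4 => absurd (hC.SP x hx z hz c (hSC x hx z hz c hc h4) h4) hp⟩
  have clA : Cl r.G A ((A ∪ B ∪ C : Finset V) : Set V) := h.closed
  have clB : Cl r.G B ((A ∪ B ∪ C : Finset V) : Set V) := by
    have e : A ∪ B ∪ C = B ∪ A ∪ C := by
      ext x; simp only [Finset.mem_union]; tauto
    rw [e]
    exact h.s1.closed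
  have clC : Cl r.G C ((A ∪ B ∪ C : Finset V) : Set V) := by
    have e : A ∪ B ∪ C = C ∪ A ∪ B := by
      ext x; simp only [Finset.mem_union]; tauto
    rw [e]
    exact h.s2.s1.closed
  refine ⟨o, ho1, fun x hx z hz c hc => hoA x hx z hz c (sA hc),
    fun x hx z hz c hc => hoB x hx z hz c (sB hc),
    fun x hx z hz c hc => hoC x hx z hz c (sC hc), ⟨clA, ?_, ?_⟩, ⟨clB, ?_, ?_⟩, ⟨clC, ?_, ?_⟩⟩
  · intro z hz w hw c hc h1
    exact hKA z hz w hw c (Finset.mem_coe.1 hc) h1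
  · intro z hz w hw c hc h1
    exact hSA z hz w hw c (Finset.mem_coe.1 hc) ((hoA z hz w hw c (Finset.mem_coe.1 hc)).1 h1)
  · intro z hz w hw c hc h1
    exact hKB z hz w hw c (Finset.mem_coe.1 hc) h1
  · intro z hz w hw c hc h1
    exact hSB z hz w hw c (Finset.mem_coe.1 hc) ((hoB z hz w hw c (Finset.mem_coe.1 hc)).1 h1)
  · intro z hz w hw c hc h1
    exact hKC z hz w hw c (Finset.mem_coe.1 hc) h1
  · intro z hz w hw c hc h1
    exact hSC z hz w hw c (Finset.mem_coe.1 hc) ((hoC z hz w hw c (Finset.mem_coe.1 hc)).1 h1)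

end H968F
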