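import Pool.Agent.helper968_nsop1.AmalN
import Pool.Agent.helper968_nsop1.Tri

/-!
Independent amalgamation in the generic structure (by helper734).
-/

namespace H968F

open Classical Finset

namespace AmN

/-- three copies of a type (without computable equality) -/
structure FF (M : Type) : Type where
  i : Fin 3
  x : M

section Glue

variable {M F : Type} (r : Rels M) (D : Fin 3 → Finset M) (e : Fin 3 → M → F)

/-- compatibility of the three pieces -/
structure Comp : Prop where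
  inj : ∀ i, Set.InjOn (e i) (D i : Set M)
  P : ∀ i j, ∀ x ∈ D i, ∀ y ∈ D j, e i x = e j y → (r.P x ↔ r.P y)
  C : ∀ i j, ∀ x ∈ D i, ∀ y ∈ D j, e i x = e j y → (r.C x ↔ r.C y)
  G : ∀ i j, ∀ x ∈ D i, ∀ y ∈ D j, ∀ x' ∈ D i, ∀ y' ∈ D j, e i x = e j y → e i x' = e j y' →
    (r.G.Adj x x' ↔ r.G.Adj y y')
  K : ∀ i j, ∀ x ∈ D i, ∀ y ∈ D j, ∀ x' ∈ D i, ∀ y' ∈ D j, ∀ x'' ∈ D i, ∀ y'' ∈ D j,
    e i x = e j y → e i x' = e j y' → e i x'' = e j y'' → (r.K x x' x'' ↔ r.K y y' y'')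
  S : ∀ i j, ∀ x ∈ D i, ∀ y ∈ D j, ∀ x' ∈ D i, ∀ y' ∈ D j, ∀ x'' ∈ D i, ∀ y'' ∈ D j,
    e i x = e j y → e i x' = e j y' → e i x'' = e j y'' → (r.S x x' x'' ↔ r.S y y' y'')

/-- the glued structure -/
def glue (h : Comp r D e) : Rels F where
  G :=
    { Adj := fun u v => ∃ i, ∃ x ∈ D i, ∃ y ∈ D i, e i x = u ∧ e i y = v ∧ r.G.Adj x y
      symm := ⟨by
        rintro u v ⟨i, x, hx, y, hy, h1, h2, h3⟩
        exact ⟨i, y, hy, x, hx, h2, h1, h3.symm⟩⟩
      loopless := ⟨by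
        rintro u ⟨i, x, hx, y, hy, h1, h2, h3⟩
        have := h.inj i hx hy (h1.trans h2.symm)
        rw [this] at h3
        exact r.G.loopless.irrefl _ h3⟩ }
  P := fun u => ∃ i, ∃ x ∈ D i, e i x = u ∧ r.P x
  C := fun u => ∃ i, ∃ x ∈ D i, e i x = u ∧ r.C x
  K := fun u v w => ∃ i, ∃ x ∈ D i, ∃ y ∈ D i, ∃ z ∈ D i, e i x = u ∧ e i y = v ∧ e i z = w ∧
    r.K x y z
  S := fun u v w => ∃ i, ∃ x ∈ D i, ∃ y ∈ D i, ∃ z ∈ D i, e i x = u ∧ e i y = v ∧ e i z = w ∧
    r.S x y z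

theorem ref_glue (h : Comp r D e) (i : Fin 3) : RefOn r (glue r D e h) (D i : Set M) (e i) where
  inj := h.inj i
  P x hx := ⟨by
    rintro ⟨j, y, hy, h1, h2⟩
    exact (h.P i j x hx y hy h1.symm).2 h2, fun h1 => ⟨i, x, hx, rfl, h1⟩⟩
  C x hx := ⟨by
    rintro ⟨j, y, hy, h1, h2⟩
    exact (h.C i j x hx y hy h1.symm).2 h2, fun h1 => ⟨i, x, hx, rfl, h1⟩⟩
  G x hx x' hx' := ⟨by
    rintro ⟨j, y, hy, y', hy', h1, h2, h3⟩
    exact (h.G i j x hx y hy x' hx' y' hy' h1.symm h2.symm).2 h3,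
    fun h1 => ⟨i, x, hx, x', hx', rfl, rfl, h1⟩⟩
  K x hx x' hx' x'' hx'' := ⟨by
    rintro ⟨j, y, hy, y', hy', y'', hy'', h1, h2, h3, h4⟩
    exact (h.K i j x hx y hy x' hx' y' hy' x'' hx'' y'' hy'' h1.symm h2.symm h3.symm).2 h4,
    fun h1 => ⟨i, x, hx, x', hx', x'', hx'', rfl, rfl, rfl, h1⟩⟩
  S x hx x' hx' x'' hx'' := ⟨by
    rintro ⟨j, y, hy, y', hy', y'', hy'', h1, h2, h3, h4⟩
    exact (h.S i j x hx y hy x' hx' y' hy' x'' hx'' y'' hy'' h1.symm h2.symm h3.symm).2 h4,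
    fun h1 => ⟨i, x, hx, x', hx', x'', hx'', rfl, rfl, rfl, h1⟩⟩

/-- compatibility from maps between the pieces -/
theorem comp_of (inj : ∀ i, Set.InjOn (e i) (D i : Set M))
    (h : ∀ i j, i < j → ∃ (E : Finset M) (f : M → M), RefOn r r (E : Set M) f ∧
      ∀ x ∈ D i, ∀ y ∈ D j, e i x = e j y → x ∈ E ∧ y = f x) : Comp r D e := by
  have key : ∀ i j, (∃ (E : Finset M) (f : M → M), RefOn r r (E : Set M) f ∧
      ∀ x ∈ D i, ∀ y ∈ D j, e i x = e j y → x ∈ E ∧ y = f x) ∨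
      ∃ (E : Finset M) (f : M → M), RefOn r r (E : Set M) f ∧
      ∀ x ∈ D i, ∀ y ∈ D j, e i x = e j y → y ∈ E ∧ x = f y := by
    intro i j
    rcases lt_trichotomy i j with h1 | h1 | h1
    · exact Or.inl (h i j h1)
    · subst h1
      refine Or.inl ⟨D i, id, ⟨Set.injOn_id _, fun _ _ => Iff.rfl, fun _ _ => Iff.rfl,
        fun _ _ _ _ => Iff.rfl, fun _ _ _ _ _ _ => Iff.rfl, fun _ _ _ _ _ _ => Iff.rfl⟩, ?_⟩
      intro x hx y hy hxy
      exact ⟨hx, (inj i hx hy hxy).symm⟩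
    · obtain ⟨E, f, h2, h3⟩ := h j i h1
      exact Or.inr ⟨E, f, h2, fun x hx y hy hxy => h3 y hy x hx hxy.symm⟩
  constructor
  · exact inj
  · intro i j x hx y hy hxy
    rcases key i j with ⟨E, f, h1, h2⟩ | ⟨E, f, h1, h2⟩
    · obtain ⟨h3, rfl⟩ := h2 x hx y hy hxy
      exact (h1.P x h3).symm
    · obtain ⟨h3, rfl⟩ := h2 x hx y hy hxy
      exact h1.P y h3
  · intro i j x hx y hy hxy
    rcases key i j with ⟨E, f, h1, h2⟩ | ⟨E, f, h1, h2⟩
    · obtain ⟨h3, rfl⟩ := h2 x hx y hy hxy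
      exact (h1.C x h3).symm
    · obtain ⟨h3, rfl⟩ := h2 x hx y hy hxy
      exact h1.C y h3
  · intro i j x hx y hy x' hx' y' hy' hxy hxy'
    rcases key i j with ⟨E, f, h1, h2⟩ | ⟨E, f, h1, h2⟩
    · obtain ⟨h3, rfl⟩ := h2 x hx y hy hxy
      obtain ⟨h3', rfl⟩ := h2 x' hx' y' hy' hxy'
      exact (h1.G x h3 x' h3').symm
    · obtain ⟨h3, rfl⟩ := h2 x hx y hy hxy
      obtain ⟨h3', rfl⟩ := h2 x' hx' y' hy' hxy'
      exact h1.G y h3 y' h3'
  · intro i j x hx y hy x' hx' y' hy' x'' hx'' y'' hy'' hxy hxy' hxy''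
    rcases key i j with ⟨E, f, h1, h2⟩ | ⟨E, f, h1, h2⟩
    · obtain ⟨h3, rfl⟩ := h2 x hx y hy hxy
      obtain ⟨h3', rfl⟩ := h2 x' hx' y' hy' hxy'
      obtain ⟨h3'', rfl⟩ := h2 x'' hx'' y'' hy'' hxy''
      exact (h1.K x h3 x' h3' x'' h3'').symm
    · obtain ⟨h3, rfl⟩ := h2 x hx y hy hxy
      obtain ⟨h3', rfl⟩ := h2 x' hx' y' hy' hxy'
      obtain ⟨h3'', rfl⟩ := h2 x'' hx'' y'' hy'' hxy''
      exact h1.K y h3 y' h3' y'' h3''
  · intro i j x hx y hy x' hx' y' hy' x'' hx'' y'' hy'' hxy hxy' hxy''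
    rcases key i j with ⟨E, f, h1, h2⟩ | ⟨E, f, h1, h2⟩
    · obtain ⟨h3, rfl⟩ := h2 x hx y hy hxy
      obtain ⟨h3', rfl⟩ := h2 x' hx' y' hy' hxy'
      obtain ⟨h3'', rfl⟩ := h2 x'' hx'' y'' hy'' hxy''
      exact (h1.S x h3 x' h3' x'' h3'').symm
    · obtain ⟨h3, rfl⟩ := h2 x hx y hy hxy
      obtain ⟨h3', rfl⟩ := h2 x' hx' y' hy' hxy'
      obtain ⟨h3'', rfl⟩ := h2 x'' hx'' y'' hy'' hxy''
      exact h1.S y h3 y' h3' y'' h3''

/-- replacing the choices preserves the embeddings of pieces on which they agree -/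
theorem ref_setS {Q : Rels M} {R : Rels F} {A : Finset M} {g : M → F}
    (h : RefOn Q R (A : Set M) g) (o : F → F → F → Prop)
    (ho : ∀ x ∈ A.image g, ∀ z ∈ A.image g, ∀ c ∈ A.image g, (o x z c ↔ R.S x z c)) :
    RefOn Q (R.setS o) (A : Set M) g where
  inj := h.inj
  P := h.P
  C := h.C
  G := h.G
  K := h.K
  S x hx y hy z hz := (ho _ (Finset.mem_image_of_mem g hx) _ (Finset.mem_image_of_mem g hy) _
    (Finset.mem_image_of_mem g hz)).trans (h.S x hx y hy z hz)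

/-- independence is invariant -/
theorem ind_image {Q : Rels M} {R : Rels F} {A B E : Finset M} {g : M → F}
    (h : RefOn Q R (E : Set M) g) (hA : A ⊆ E) (hB : B ⊆ E) (hAB : Ind Q.G A B) :
    ∀ Z : Finset F, A.image g ∪ B.image g ⊆ Z → Z ⊆ E.image g →
      dl R.G (A.image g) + dl R.G (B.image g) ≤ dl R.G Z + dl R.G ((A ∩ B).image g) := by
  intro Z h1 h2
  obtain ⟨Y, hY, rfl⟩ := Finset.subset_image_iff.1 h2
  have hY' : Y ⊆ E := by exact_mod_cast hY
  have h3 : A ∪ B ⊆ Y := by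
    intro x hx
    have h4 : g x ∈ Y.image g := by
      rw [← Finset.image_union] at h1
      exact h1 (Finset.mem_image_of_mem g hx)
    obtain ⟨y, hy, hxy⟩ := Finset.mem_image.1 h4
    have hxE : x ∈ E := by
      rcases Finset.mem_union.1 hx with h5 | h5
      · exact hA h5
      · exact hB h5
    have := h.inj (hY' hy) hxE hxy
    exact this ▸ hy
  rw [h.dl (by exact_mod_cast hA), h.dl (by exact_mod_cast hB), h.dl (by exact_mod_cast hY'),
    h.dl (by exact_mod_cast Finset.inter_subset_left.trans hA)]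
  exact hAB Y h3

end Glue

end AmN

theorem indep_amalg {M : Type} (r : Rels M) (hax : Ax r Set.univ) (hEP : EP r)
    (D0 D1 D2 D2' D3 D12 D13 D23 : Finset M) (f : M → M)
    (c1 : ClR r D1 Set.univ) (c2 : ClR r D2 Set.univ) (c2' : ClR r D2' Set.univ)
    (c3 : ClR r D3 Set.univ) (c12 : ClR r D12 Set.univ) (c13 : ClR r D13 Set.univ)
    (c23 : ClR r D23 Set.univ)
    (s12 : D1 ∪ D2 ⊆ D12) (s13 : D1 ∪ D3 ⊆ D13) (s23 : D2' ∪ D3 ⊆ D23)
    (i12 : D1 ∩ D2 = D0) (i13 : D1 ∩ D3 = D0) (i23 : D2' ∩ D3 = D0)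
    (hf : RefOn r r (D2 : Set M) f) (hfi : D2.image f = D2') (hf0 : ∀ x ∈ D0, f x = x)
    (h12 : Ind r.G D1 D2) (h13 : Ind r.G D1 D3) (h23 : Ind r.G D2' D3) :
    ∃ k12 k13 : M → M, RefOn r r (D12 : Set M) k12 ∧ ClR r (D12.image k12) Set.univ ∧
      RefOn r r (D13 : Set M) k13 ∧ ClR r (D13.image k13) Set.univ ∧
      (∀ x ∈ D1, k12 x = k13 x) ∧ (∀ x ∈ D2, k12 x = f x) ∧ (∀ x ∈ D3, k13 x = x) := by
  have s1 : D1 ⊆ D12 := Finset.subset_union_left.trans s12
  have s2 : D2 ⊆ D12 := Finset.subset_union_right.trans s12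
  have t1 : D1 ⊆ D13 := Finset.subset_union_left.trans s13
  have t3 : D3 ⊆ D13 := Finset.subset_union_right.trans s13
  have u2 : D2' ⊆ D23 := Finset.subset_union_left.trans s23
  have u3 : D3 ⊆ D23 := Finset.subset_union_right.trans s23
  have z1 : D0 ⊆ D1 := i12 ▸ Finset.inter_subset_left
  have z2 : D0 ⊆ D2 := i12 ▸ Finset.inter_subset_right
  have z3 : D0 ⊆ D3 := i13 ▸ Finset.inter_subset_right
  have z2' : D0 ⊆ D2' := i23 ▸ Finset.inter_subset_left
  have m12 : ∀ x, x ∈ D1 → x ∈ D2 → x ∈ D0 := fun x a b => i12 ▸ Finset.mem_inter.2 ⟨a, b⟩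
  have m13 : ∀ x, x ∈ D1 → x ∈ D3 → x ∈ D0 := fun x a b => i13 ▸ Finset.mem_inter.2 ⟨a, b⟩
  have m23 : ∀ x, x ∈ D2' → x ∈ D3 → x ∈ D0 := fun x a b => i23 ▸ Finset.mem_inter.2 ⟨a, b⟩
  have mf : ∀ x ∈ D2, f x ∈ D2' := fun x hx => hfi ▸ Finset.mem_image_of_mem f hx
  have ff : ∀ x ∈ D2, f x ∈ D0 → f x = x := fun x hx h0 =>
    hf.inj (z2 h0) hx (hf0 _ h0)
  let F := AmN.FF M
  let e23 : M → F := fun z => ⟨0, z⟩
  let e13 : M → F := fun z => if z ∈ D3 then ⟨0, z⟩ else ⟨1, z⟩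
  let e12 : M → F := fun z => if z ∈ D2 then ⟨0, f z⟩ else if z ∈ D1 then ⟨1, z⟩ else ⟨2, z⟩
  have e13a : ∀ z ∈ D3, e13 z = ⟨0, z⟩ := fun z hz => if_pos hz
  have e13b : ∀ z, z ∉ D3 → e13 z = ⟨1, z⟩ := fun z hz => if_neg hz
  have e12a : ∀ z ∈ D2, e12 z = ⟨0, f z⟩ := fun z hz => if_pos hz
  have e12b : ∀ z, z ∉ D2 → z ∈ D1 → e12 z = ⟨1, z⟩ := fun z hz hz' => by
    simp only [e12, if_neg hz, if_pos hz']
  have e12c : ∀ z, z ∉ D2 → z ∉ D1 → e12 z = ⟨2, z⟩ := fun z hz hz' => by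
    simp only [e12, if_neg hz, if_neg hz']
  have inj23 : Set.InjOn e23 (D23 : Set M) := fun x _ y _ h => congrArg AmN.FF.x h
  have inj13 : Set.InjOn e13 (D13 : Set M) := by
    intro x _ y _ h
    by_cases hx : x ∈ D3 <;> by_cases hy : y ∈ D3
    · rw [e13a x hx, e13a y hy] at h
      exact congrArg AmN.FF.x h
    · rw [e13a x hx, e13b y hy] at h
      exact congrArg AmN.FF.x h
    · rw [e13b x hx, e13a y hy] at h
      exact congrArg AmN.FF.x h
    · rw [e13b x hx, e13b y hy] at h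
      exact congrArg AmN.FF.x h
  have inj12 : Set.InjOn e12 (D12 : Set M) := by
    intro x _ y _ h
    by_cases hx : x ∈ D2
    · by_cases hy : y ∈ D2
      · rw [e12a x hx, e12a y hy] at h
        exact hf.inj hx hy (congrArg AmN.FF.x h)
      · by_cases hy' : y ∈ D1
        · rw [e12a x hx, e12b y hy hy'] at h
          exact absurd (congrArg AmN.FF.i h) (by simp [e23])
        · rw [e12a x hx, e12c y hy hy'] at h
          exact absurd (congrArg AmN.FF.i h) (by simp [e23])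
    · by_cases hx' : x ∈ D1
      · by_cases hy : y ∈ D2
        · rw [e12b x hx hx', e12a y hy] at h
          exact absurd (congrArg AmN.FF.i h) (by simp [e23])
        · by_cases hy' : y ∈ D1
          · rw [e12b x hx hx', e12b y hy hy'] at h
            exact congrArg AmN.FF.x h
          · rw [e12b x hx hx', e12c y hy hy'] at h
            exact congrArg AmN.FF.x h
      · by_cases hy : y ∈ D2
        · rw [e12c x hx hx', e12a y hy] at h
          exact absurd (congrArg AmN.FF.i h) (by simp [e23])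
        · by_cases hy' : y ∈ D1
          · rw [e12c x hx hx', e12b y hy hy'] at h
            exact congrArg AmN.FF.x h
          · rw [e12c x hx hx', e12c y hy hy'] at h
            exact congrArg AmN.FF.x h
  -- the overlaps
  have o13 : ∀ y, ∀ x, e13 y = e23 x → y ∈ D3 ∧ x = y := by
    intro y x h
    by_cases hy : y ∈ D3
    · rw [e13a y hy] at h
      exact ⟨hy, (congrArg AmN.FF.x h).symm⟩
    · rw [e13b y hy] at h
      exact absurd (congrArg AmN.FF.i h) (by simp [e23])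
  have o12 : ∀ y, ∀ x, e12 y = e23 x → y ∈ D2 ∧ x = f y := by
    intro y x h
    by_cases hy : y ∈ D2
    · rw [e12a y hy] at h
      exact ⟨hy, (congrArg AmN.FF.x h).symm⟩
    · by_cases hy' : y ∈ D1
      · rw [e12b y hy hy'] at h
        exact absurd (congrArg AmN.FF.i h) (by simp [e23])
      · rw [e12c y hy hy'] at h
        exact absurd (congrArg AmN.FF.i h) (by simp [e23])
  have o11 : ∀ y, ∀ x, e12 y = e13 x → y ∈ D1 ∧ x = y := by
    intro y x h
    by_cases hy : y ∈ D2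
    · rw [e12a y hy] at h
      by_cases hx : x ∈ D3
      · rw [e13a x hx] at h
        have h1 : f y = x := congrArg AmN.FF.x h
        have h2 : f y ∈ D0 := m23 _ (mf y hy) (h1 ▸ hx)
        have h3 := ff y hy h2
        exact ⟨z1 (h3 ▸ h2), by rw [← h1, h3]⟩
      · rw [e13b x hx] at h
        exact absurd (congrArg AmN.FF.i h) (by simp [e23])
    · by_cases hy' : y ∈ D1
      · rw [e12b y hy hy'] at h
        by_cases hx : x ∈ D3
        · rw [e13a x hx] at h
          exact absurd (congrArg AmN.FF.i h) (by simp [e23])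
        · rw [e13b x hx] at h
          exact ⟨hy', (congrArg AmN.FF.x h).symm⟩
      · rw [e12c y hy hy'] at h
        by_cases hx : x ∈ D3
        · rw [e13a x hx] at h
          exact absurd (congrArg AmN.FF.i h) (by simp [e23])
        · rw [e13b x hx] at h
          exact absurd (congrArg AmN.FF.i h) (by simp [e23])
  have a1 : ∀ x ∈ D1, e12 x = e13 x := by
    intro x hx
    by_cases h2 : x ∈ D2
    · have h0 := m12 x hx h2
      rw [e12a x h2, e13a x (z3 h0), hf0 x h0]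
    · have h3 : x ∉ D3 := fun h3 => h2 (z2 (m13 x hx h3))
      rw [e12b x h2 hx, e13b x h3]
  have a2 : ∀ x ∈ D2, e12 x = e23 (f x) := fun x hx => e12a x hx
  have a3 : ∀ x ∈ D3, e13 x = e23 x := fun x hx => e13a x hx
  have rid : ∀ E : Finset M, RefOn r r (E : Set M) id := fun E =>
    ⟨Set.injOn_id _, fun _ _ => Iff.rfl, fun _ _ => Iff.rfl,
        fun _ _ _ _ => Iff.rfl, fun _ _ _ _ _ _ => Iff.rfl, fun _ _ _ _ _ _ => Iff.rfl⟩
  let D : Fin 3 → Finset M := fun i => if i = 0 then D12 else if i = 1 then D13 else D23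
  let e : Fin 3 → M → F := fun i => if i = 0 then e12 else if i = 1 then e13 else e23
  have Dz : D 0 = D12 := rfl
  have Do : D 1 = D13 := rfl
  have Dt : D 2 = D23 := rfl
  have ez : e 0 = e12 := rfl
  have eo : e 1 = e13 := rfl
  have et : e 2 = e23 := rfl
  have hcomp : AmN.Comp r D e := by
    refine AmN.comp_of r D e ?_ ?_
    · intro i
      fin_cases i
      · exact inj12
      · exact inj13
      · exact inj23
    · intro i j hij
      have : (i = 0 ∧ j = 1) ∨ (i = 0 ∧ j = 2) ∨ (i = 1 ∧ j = 2) := by omega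
      rcases this with ⟨rfl, rfl⟩ | ⟨rfl, rfl⟩ | ⟨rfl, rfl⟩
      · exact ⟨D1, id, rid _, fun x _ y _ h => o11 x y h⟩
      · exact ⟨D2, f, hf, fun x _ y _ h => o12 x y h⟩
      · exact ⟨D3, id, rid _, fun x _ y _ h => o13 x y h⟩
  set R := AmN.glue r D e hcomp with hR
  have R12 : RefOn r R (D12 : Set M) e12 := AmN.ref_glue r D e hcomp 0
  have R13 : RefOn r R (D13 : Set M) e13 := AmN.ref_glue r D e hcomp 1
  have R23 : RefOn r R (D23 : Set M) e23 := AmN.ref_glue r D e hcomp 2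
  set A := D12.image e12 with hA
  set B := D13.image e13 with hB
  set C := D23.image e23 with hC
  have iAB : A ∩ B = D1.image e12 := by
    ext u
    simp only [hA, hB, Finset.mem_inter, Finset.mem_image]
    constructor
    · rintro ⟨⟨x, hx, rfl⟩, ⟨y, hy, hxy⟩⟩
      exact ⟨x, (o11 x y hxy.symm).1, rfl⟩
    · rintro ⟨x, hx, rfl⟩
      exact ⟨⟨x, s1 hx, rfl⟩, ⟨x, t1 hx, (a1 x hx).symm⟩⟩
  have iAC : A ∩ C = D2.image e12 := by
    ext u
    simp only [hA, hC, Finset.mem_inter, Finset.mem_image]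
    constructor
    · rintro ⟨⟨x, hx, rfl⟩, ⟨y, hy, hxy⟩⟩
      exact ⟨x, (o12 x y hxy.symm).1, rfl⟩
    · rintro ⟨x, hx, rfl⟩
      exact ⟨⟨x, s2 hx, rfl⟩, ⟨f x, u2 (mf x hx), (a2 x hx).symm⟩⟩
  have iBC : B ∩ C = D3.image e13 := by
    ext u
    simp only [hB, hC, Finset.mem_inter, Finset.mem_image]
    constructor
    · rintro ⟨⟨x, hx, rfl⟩, ⟨y, hy, hxy⟩⟩
      exact ⟨x, (o13 x y hxy.symm).1, rfl⟩
    · rintro ⟨x, hx, rfl⟩
      exact ⟨⟨x, t3 hx, rfl⟩, ⟨x, u3 hx, (a3 x hx).symm⟩⟩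
  have iAB' : D1.image e12 = D1.image e13 := Finset.image_congr fun x hx => a1 x hx
  have iAC' : D2.image e12 = D2'.image e23 := by
    rw [← hfi, Finset.image_image]
    exact Finset.image_congr fun x hx => a2 x hx
  have iBC' : D3.image e13 = D3.image e23 := Finset.image_congr fun x hx => a3 x hx
  have iABC : A ∩ B ∩ C = D0.image e12 := by
    have : A ∩ B ∩ C = (A ∩ B) ∩ (A ∩ C) := by
      ext u
      simp only [Finset.mem_inter]
      tauto
    rw [this, iAB, iAC, ← Finset.image_inter_of_injOn _ _ (inj12.mono (by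
      rw [← Finset.coe_union]
      exact_mod_cast s12)), i12]
  have iABC1 : D0.image e12 = D0.image e13 := Finset.image_congr fun x hx => a1 x (z1 hx)
  have iABC2 : D0.image e13 = D0.image e23 := Finset.image_congr fun x hx => a3 x (z3 hx)
  have axA : Ax R (A : Set F) := R12.ax (hax.sub c12)
  have axB : Ax R (B : Set F) := R13.ax (hax.sub c13)
  have axC : Ax R (C : Set F) := R23.ax (hax.sub c23)
  have cABA : ClR R (A ∩ B) (A : Set F) := by
    rw [iAB]
    exact R12.clR (c1.mono (by exact_mod_cast s1) (Set.subset_univ _))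
  have cABB : ClR R (A ∩ B) (B : Set F) := by
    rw [iAB, iAB']
    exact R13.clR (c1.mono (by exact_mod_cast t1) (Set.subset_univ _))
  have cACA : ClR R (A ∩ C) (A : Set F) := by
    rw [iAC]
    exact R12.clR (c2.mono (by exact_mod_cast s2) (Set.subset_univ _))
  have cACC : ClR R (A ∩ C) (C : Set F) := by
    rw [iAC, iAC']
    exact R23.clR (c2'.mono (by exact_mod_cast u2) (Set.subset_univ _))
  have cBCB : ClR R (B ∩ C) (B : Set F) := by
    rw [iBC]
    exact R13.clR (c3.mono (by exact_mod_cast t3) (Set.subset_univ _))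
  have cBCC : ClR R (B ∩ C) (C : Set F) := by
    rw [iBC, iBC']
    exact R23.clR (c3.mono (by exact_mod_cast u3) (Set.subset_univ _))
  have c0 : ClR r D0 Set.univ := i12 ▸ c1.inter c2
  have memABC : ∀ i, ∀ x ∈ D i, e i x ∈ (if i = 0 then A else if i = 1 then B else C) := by
    intro i x hx
    fin_cases i
    · exact Finset.mem_image_of_mem e12 hx
    · exact Finset.mem_image_of_mem e13 hx
    · exact Finset.mem_image_of_mem e23 hx
  have tri : Tri R.G A B C := by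
    constructor
    · rintro u _ v _ ⟨i, x, hx, y, hy, rfl, rfl, _⟩
      have p1 := memABC i x hx
      have p2 := memABC i y hy
      fin_cases i
      · exact Or.inl ⟨p1, p2⟩
      · exact Or.inr (Or.inl ⟨p1, p2⟩)
      · exact Or.inr (Or.inr ⟨p1, p2⟩)
    · intro Z hZ hZA
      rw [iABC, iAB, iAC, ← i12]
      rw [iAB, iAC] at hZ
      exact AmN.ind_image R12 s1 s2 h12 Z hZ hZA
    · intro Z hZ hZA
      rw [iABC, iABC1, iAB, iAB', iBC, ← i13]
      rw [iAB, iAB', iBC] at hZ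
      exact AmN.ind_image R13 t1 t3 h13 Z hZ hZA
    · intro Z hZ hZA
      rw [iABC, iABC1, iABC2, iAC, iAC', iBC, iBC', ← i23]
      rw [iAC, iAC', iBC, iBC'] at hZ
      exact AmN.ind_image R23 u2 u3 h23 Z hZ hZA
    · rw [iABC, iAB]
      exact (R12.mono (A := (D1 : Set M)) (by exact_mod_cast s1)).cl
        (c0.cl.mono (by exact_mod_cast z1) (Set.subset_univ _))
    · rw [iABC, iAC]
      exact (R12.mono (A := (D2 : Set M)) (by exact_mod_cast s2)).cl
        (c0.cl.mono (by exact_mod_cast z2) (Set.subset_univ _))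
    · rw [iABC, iABC1, iBC]
      exact (R13.mono (A := (D3 : Set M)) (by exact_mod_cast t3)).cl
        (c0.cl.mono (by exact_mod_cast z3) (Set.subset_univ _))
    · exact cABA.cl
    · exact cABB.cl
    · exact cACA.cl
    · exact cACC.cl
    · exact cBCB.cl
    · exact cBCC.cl
  obtain ⟨o, ho, oA, oB, oC, clA, clB, clC⟩ := amalg3 R A B C tri axA axB axC cABA cABB cACA cACC
    cBCB cBCC (by
      rintro u _ v _ w _ ⟨i, x, hx, y, hy, z, hz, rfl, rfl, rfl, _⟩
      have p1 := memABC i x hx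
      have p2 := memABC i y hy
      have p3 := memABC i z hz
      fin_cases i
      · exact Or.inl ⟨p1, p2, p3⟩
      · exact Or.inr (Or.inl ⟨p1, p2, p3⟩)
      · exact Or.inr (Or.inr ⟨p1, p2, p3⟩)) (by
      rintro u _ v _ w _ ⟨i, x, hx, y, hy, z, hz, rfl, rfl, rfl, _⟩
      have p1 := memABC i x hx
      have p2 := memABC i y hy
      have p3 := memABC i z hz
      fin_cases i
      · exact Or.inl ⟨p1, p2, p3⟩
      · exact Or.inr (Or.inl ⟨p1, p2, p3⟩)
      · exact Or.inr (Or.inr ⟨p1, p2, p3⟩))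
  have Q12 : RefOn r (R.setS o) (D12 : Set M) e12 := AmN.ref_setS R12 o oA
  have Q13 : RefOn r (R.setS o) (D13 : Set M) e13 := AmN.ref_setS R13 o oB
  have Q23 : RefOn r (R.setS o) (D23 : Set M) e23 := AmN.ref_setS R23 o oC
  have hg : RefOn (R.setS o) r (C : Set F) AmN.FF.x := by
    have := Q23.of_inv (g := AmN.FF.x) fun x _ => rfl
    rw [hC, Finset.coe_image]
    exact this
  have hCi : C.image AmN.FF.x = D23 := by
    rw [hC, Finset.image_image]
    have : (AmN.FF.x ∘ e23 : M → M) = id := rfl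
    rw [this, Finset.image_id]
  obtain ⟨g', hg1, hg2, hg3⟩ := hEP F (R.setS o) C (A ∪ B ∪ C) AmN.FF.x ho clC hg
    (by rw [hCi]; exact c23)
  have subA : (A : Set F) ⊆ ((A ∪ B ∪ C : Finset F) : Set F) := by
    exact_mod_cast Finset.subset_union_left.trans Finset.subset_union_left
  have subB : (B : Set F) ⊆ ((A ∪ B ∪ C : Finset F) : Set F) := by
    exact_mod_cast Finset.subset_union_right.trans Finset.subset_union_left
  refine ⟨g' ∘ e12, g' ∘ e13, ?_, ?_, ?_, ?_, ?_, ?_, ?_⟩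
  · refine Q12.comp (hg1.mono ?_)
    rw [← Finset.coe_image]
    exact subA
  · have h1 := (hg1.clR clA).trans hg3
    rw [hA, Finset.image_image] at h1
    exact h1
  · refine Q13.comp (hg1.mono ?_)
    rw [← Finset.coe_image]
    exact subB
  · have h1 := (hg1.clR clB).trans hg3
    rw [hB, Finset.image_image] at h1
    exact h1
  · intro x hx
    simp only [Function.comp_apply, a1 x hx]
  · intro x hx
    have h1 : e23 (f x) ∈ C := Finset.mem_image_of_mem e23 (u2 (mf x hx))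
    simp only [Function.comp_apply, a2 x hx]
    rw [hg2 _ h1]
  · intro x hx
    have h1 : e23 x ∈ C := Finset.mem_image_of_mem e23 (u3 hx)
    simp only [Function.comp_apply, a3 x hx]
    rw [hg2 _ h1]

end H968F
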