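import Pool.Agent.helper968_nsop1.Rel

/-!
The language, homogeneity of the generic structure, finitely many types.
-/

namespace H968F

open FirstOrder FirstOrder.Language Finset

/-- The relation symbols. -/
inductive Sy : ℕ → Type
  | P : Sy 1
  | C : Sy 1
  | E : Sy 2
  | K : Sy 3
  | S : Sy 3

/-- The language. -/
def LC : FirstOrder.Language.{0, 0} := ⟨fun _ => Empty, Sy⟩

instance : Countable (Σ n, LC.Functions n) := by
  haveI : IsEmpty (Σ n, LC.Functions n) := ⟨fun x => Empty.elim x.2⟩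
  infer_instance

instance : Countable (Σ n, LC.Relations n) := by
  refine Function.Surjective.countable (α := Fin 5)
    (f := ![⟨1, Sy.P⟩, ⟨1, Sy.C⟩, ⟨2, Sy.E⟩, ⟨3, Sy.K⟩, ⟨3, Sy.S⟩]) ?_
  rintro ⟨n, f⟩
  have : ∀ n (f : Sy n), ∃ i : Fin 5,
      (![⟨1, Sy.P⟩, ⟨1, Sy.C⟩, ⟨2, Sy.E⟩, ⟨3, Sy.K⟩, ⟨3, Sy.S⟩] : Fin 5 → Σ n, Sy n) i =
        ⟨n, f⟩ := by
    intro n f
    cases f
    · exact ⟨0, rfl⟩
    · exact ⟨1, rfl⟩
    · exact ⟨2, rfl⟩
    · exact ⟨3, rfl⟩
    · exact ⟨4, rfl⟩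
  exact this n f

/-- The structure attached to relations. -/
@[reducible] def str {V : Type} (r : Rels V) : LC.Structure V where
  funMap := fun {_} f => Empty.elim f
  RelMap := fun {n} (s : Sy n) =>
    match n, s with
    | 1, Sy.P => fun v => r.P (v 0)
    | 1, Sy.C => fun v => r.C (v 0)
    | 2, Sy.E => fun v => r.G.Adj (v 0) (v 1)
    | 3, Sy.K => fun v => r.K (v 0) (v 1) (v 2)
    | 3, Sy.S => fun v => r.S (v 0) (v 1) (v 2)

/-- The structure on `M` is the one given by `r`. -/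
structure Rep (M : Type) [LC.Structure M] (r : Rels M) : Prop where
  P : ∀ v : Fin 1 → M, Structure.RelMap (L := LC) Sy.P v ↔ r.P (v 0)
  C : ∀ v : Fin 1 → M, Structure.RelMap (L := LC) Sy.C v ↔ r.C (v 0)
  E : ∀ v : Fin 2 → M, Structure.RelMap (L := LC) Sy.E v ↔ r.G.Adj (v 0) (v 1)
  K : ∀ v : Fin 3 → M, Structure.RelMap (L := LC) Sy.K v ↔ r.K (v 0) (v 1) (v 2)
  S : ∀ v : Fin 3 → M, Structure.RelMap (L := LC) Sy.S v ↔ r.S (v 0) (v 1) (v 2)

theorem rep_str {V : Type} (r : Rels V) : @Rep V (str r) r :=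
  @Rep.mk V (str r) r (fun _ => Iff.rfl) (fun _ => Iff.rfl) (fun _ => Iff.rfl) (fun _ => Iff.rfl)
    (fun _ => Iff.rfl)

theorem term_var {β : Type} (t : LC.Term β) : ∃ b, t = Term.var b := by
  cases t with
  | var b => exact ⟨b, rfl⟩
  | func f _ => exact Empty.elim f

section

variable {M : Type} [LC.Structure M] {r : Rels M}

open Classical in
theorem homog_aux (hr : Rep M r) (hax : Ax r Set.univ)
    (hcl : ∀ X : Finset M, ∃ Y, X ⊆ Y ∧ ClR r Y Set.univ) (hEP : EP r) {α : Type} {n : ℕ}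
    (φ : LC.BoundedFormula α n) :
    ∀ (A : Finset M) (f : M → M), ClR r A Set.univ → ClR r (A.image f) Set.univ →
      RefOn r r (A : Set M) f → ∀ (v : α → M) (xs : Fin n → M), (∀ i, v i ∈ A) →
      (∀ i, xs i ∈ A) → (φ.Realize v xs ↔ φ.Realize (f ∘ v) (f ∘ xs)) := by
  have hterm : ∀ {n : ℕ} (t : LC.Term (α ⊕ Fin n)) (A : Finset M) (f : M → M) (v : α → M)
      (xs : Fin n → M), (∀ i, v i ∈ A) → (∀ i, xs i ∈ A) →
      t.realize (Sum.elim v xs) ∈ A ∧
        t.realize (Sum.elim (f ∘ v) (f ∘ xs)) = f (t.realize (Sum.elim v xs)) := by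
    intro n t A f v xs hv hx
    obtain ⟨b, rfl⟩ := term_var t
    rcases b with b | b
    · exact ⟨hv b, rfl⟩
    · exact ⟨hx b, rfl⟩
  induction φ with
  | falsum => intros; rfl
  | equal t₁ t₂ =>
    intro A f _ _ hf v xs hv hx
    simp only [BoundedFormula.Realize]
    rw [(hterm t₁ A f v xs hv hx).2, (hterm t₂ A f v xs hv hx).2]
    constructor
    · intro h
      rw [h]
    · intro h
      exact hf.inj (hterm t₁ A f v xs hv hx).1 (hterm t₂ A f v xs hv hx).1 h
  | @rel n k R ts =>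
    intro A f _ _ hf v xs hv hx
    simp only [BoundedFormula.Realize]
    have e1 : (fun i => (ts i).realize (Sum.elim (f ∘ v) (f ∘ xs))) =
        fun i => f ((ts i).realize (Sum.elim v xs)) :=
      funext fun i => (hterm (ts i) A f v xs hv hx).2
    rw [e1]
    have hm : ∀ i, (ts i).realize (Sum.elim v xs) ∈ (A : Set M) :=
      fun i => (hterm (ts i) A f v xs hv hx).1
    match k, R with
    | 1, Sy.P => rw [hr.P, hr.P]; exact (hf.P _ (hm 0)).symm
    | 1, Sy.C => rw [hr.C, hr.C]; exact (hf.C _ (hm 0)).symm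
    | 2, Sy.E => rw [hr.E, hr.E]; exact (hf.G _ (hm 0) _ (hm 1)).symm
    | 3, Sy.K => rw [hr.K, hr.K]; exact (hf.K _ (hm 0) _ (hm 1) _ (hm 2)).symm
    | 3, Sy.S => rw [hr.S, hr.S]; exact (hf.S _ (hm 0) _ (hm 1) _ (hm 2)).symm
  | imp φ₁ φ₂ ih₁ ih₂ =>
    intro A f h1 h2 hf v xs hv hx
    simp only [BoundedFormula.Realize, ih₁ A f h1 h2 hf v xs hv hx,
      ih₂ A f h1 h2 hf v xs hv hx]
  | @all n φ ih =>
    -- one direction
    have key : ∀ (A : Finset M) (f : M → M), ClR r A Set.univ → ClR r (A.image f) Set.univ →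
        RefOn r r (A : Set M) f → ∀ (v : α → M) (xs : Fin n → M), (∀ i, v i ∈ A) →
        (∀ i, xs i ∈ A) → (φ.all).Realize (f ∘ v) (f ∘ xs) → (φ.all).Realize v xs := by
      intro A f h1 h2 hf v xs hv hx hall
      simp only [BoundedFormula.Realize] at hall ⊢
      intro y
      obtain ⟨B, hB1, hB2⟩ := hcl (insert y A)
      have hAB : A ⊆ B := (Finset.subset_insert y A).trans hB1
      have hy : y ∈ B := hB1 (Finset.mem_insert_self y A)
      obtain ⟨f', hf', hff, hc⟩ := hEP M r A B f (hax.sub hB2)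
        (h1.mono (by exact_mod_cast hAB) (Set.subset_univ _)) hf h2
      have h3 := (ih B f' hB2 hc hf' v (Fin.snoc xs y) (fun i => hAB (hv i)) (by
        intro i
        refine Fin.lastCases ?_ (fun j => ?_) i
        · simpa using hy
        · simpa using hAB (hx j)))
      rw [h3]
      have e2 : f' ∘ v = f ∘ v := funext fun i => hff _ (hv i)
      have e3 : f' ∘ (Fin.snoc xs y : Fin (n + 1) → M) = Fin.snoc (f ∘ xs) (f' y) := by
        rw [Fin.comp_snoc]
        congr 1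
        exact funext fun i => hff _ (hx i)
      rw [e2, e3]
      exact hall _
    intro A f h1 h2 hf v xs hv hx
    refine ⟨?_, key A f h1 h2 hf v xs hv hx⟩
    intro h
    rcases isEmpty_or_nonempty M with hM | hM
    · intro y
      exact (hM.false y).elim
    obtain ⟨g, hg1, hg2, hg3⟩ := hf.inv
    refine key (A.image f) g h2 (by rw [hg3]; exact h1) hg2 (f ∘ v) (f ∘ xs)
      (fun i => Finset.mem_image_of_mem f (hv i)) (fun i => Finset.mem_image_of_mem f (hx i)) ?_
    have e2 : g ∘ f ∘ v = v := funext fun i => hg1 _ (hv i)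
    have e3 : g ∘ f ∘ xs = xs := funext fun i => hg1 _ (hx i)
    rw [e2, e3]
    exact h

open Classical in
/-- Isomorphisms between finite closed sets preserve all formulas. -/
theorem homog (hr : Rep M r) (hax : Ax r Set.univ)
    (hcl : ∀ X : Finset M, ∃ Y, X ⊆ Y ∧ ClR r Y Set.univ) (hEP : EP r) {α : Type}
    (φ : LC.Formula α)
    {A : Finset M} {f : M → M} (h1 : ClR r A Set.univ) (h2 : ClR r (A.image f) Set.univ)
    (hf : RefOn r r (A : Set M) f) {v : α → M} (hv : ∀ i, v i ∈ A) :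
    φ.Realize v ↔ φ.Realize (f ∘ v) := by
  have h := homog_aux hr hax hcl hEP φ A f h1 h2 hf v default hv (fun i => i.elim0)
  have e1 : (f ∘ (default : Fin 0 → M)) = (default : Fin 0 → M) := Subsingleton.elim _ _
  rw [e1] at h
  exact h

end

end H968F
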