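import Pool.Agent.helper968_nsop1.IA
import Pool.Agent.helper968_nsop1.Code
import Pool.Agent.helper968_nsop1.FC
import Pool.Agent.helper968_nsop1.Cnt
import Pool.Agent.helper968_nsop1.Arr

/-!
The theory is NSOP₁.
-/

namespace H968F

open FirstOrder FirstOrder.Language

section Rank

variable {M : Type} {d : Finset M → ℤ}

open Classical Finset

theorem rank_half (hd_mono : ∀ X Y, X ⊆ Y → d X ≤ d Y)
    (hd_sub : ∀ X Y, d (X ∪ Y) + d (X ∩ Y) ≤ d X + d Y) {Y X X' W : Finset M} (hX : X' ⊆ X)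
    (h : d (Y ∪ X ∪ W) + d Y = d (Y ∪ X) + d (Y ∪ W)) :
    d (Y ∪ X' ∪ W) + d Y = d (Y ∪ X') + d (Y ∪ W) := by
  have h1 := hd_sub (Y ∪ X') (Y ∪ W)
  have h2 := hd_mono Y ((Y ∪ X') ∩ (Y ∪ W))
    (Finset.subset_inter Finset.subset_union_left Finset.subset_union_left)
  have e1 : (Y ∪ X') ∪ (Y ∪ W) = Y ∪ X' ∪ W := by
    ext v
    simp only [Finset.mem_union]
    tauto
  have h3 := hd_sub (Y ∪ X' ∪ W) (Y ∪ X)
  have h4 := hd_mono (Y ∪ X') ((Y ∪ X' ∪ W) ∩ (Y ∪ X))
    (Finset.subset_inter Finset.subset_union_left (Finset.union_subset_union_right hX))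
  have e2 : (Y ∪ X' ∪ W) ∪ (Y ∪ X) = Y ∪ X ∪ W := by
    ext v
    simp only [Finset.mem_union]
    constructor
    · rintro (((h | h) | h) | h | h)
      · exact Or.inl (Or.inl h)
      · exact Or.inl (Or.inr (hX h))
      · exact Or.inr h
      · exact Or.inl (Or.inl h)
      · exact Or.inl (Or.inr h)
    · rintro ((h | h) | h)
      · exact Or.inr (Or.inl h)
      · exact Or.inr (Or.inr h)
      · exact Or.inl (Or.inr h)
  rw [e1] at h1
  rw [e2] at h3
  omega

theorem rank_swap {Y X W : Finset M}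
    (h : d (Y ∪ X ∪ W) + d Y = d (Y ∪ X) + d (Y ∪ W)) :
    d (Y ∪ W ∪ X) + d Y = d (Y ∪ W) + d (Y ∪ X) := by
  rw [Finset.union_right_comm, h, add_comm]

theorem rank_sub (hd_mono : ∀ X Y, X ⊆ Y → d X ≤ d Y)
    (hd_sub : ∀ X Y, d (X ∪ Y) + d (X ∩ Y) ≤ d X + d Y) {Y X X' W W' : Finset M} (hX : X' ⊆ X)
    (hW : W' ⊆ W) (h : d (Y ∪ X ∪ W) + d Y = d (Y ∪ X) + d (Y ∪ W)) :
    d (Y ∪ X' ∪ W') + d Y = d (Y ∪ X') + d (Y ∪ W') :=
  rank_swap (rank_half hd_mono hd_sub hW (rank_swap (rank_half hd_mono hd_sub hX h)))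

end Rank

section Config

variable {M : Type} {r : Rels M} {gc fc : Finset M → Finset M}

open Classical Finset

/-- Closures with common colours added. -/
theorem inter_add (hC : Clos r gc fc) {Y X1 X2 Γ : Finset M}
    (hY : ClR r Y Set.univ)
    (he : dl r.G (gc (Y ∪ X1 ∪ X2)) + dl r.G (gc Y) = dl r.G (gc (Y ∪ X1)) + dl r.G (gc (Y ∪ X2)))
    (hΓ : ∀ v ∈ Γ, r.C v) (hG : ∀ v ∈ fc (Y ∪ X1), v ∈ fc (Y ∪ X2) → r.C v → v ∈ Γ)
    (hax : Ax r Set.univ) :
    (fc (Y ∪ X1) ∪ Γ) ∩ (fc (Y ∪ X2) ∪ Γ) = Y ∪ Γ ∧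
      Ind r.G (fc (Y ∪ X1) ∪ Γ) (fc (Y ∪ X2) ∪ Γ) := by
  have hgY : gc Y = Y := Finset.Subset.antisymm (hC.gc_min Y Y hY.cl subset_rfl) (hC.gc_sub Y)
  rw [hgY] at he
  obtain ⟨h1, h2⟩ := ind_rank hC hY.cl he
  have hYX1 : Y ⊆ fc (Y ∪ X1) := Finset.subset_union_left.trans (hC.fc_sub _)
  have hYX2 : Y ⊆ fc (Y ∪ X2) := Finset.subset_union_left.trans (hC.fc_sub _)
  constructor
  · ext v
    simp only [Finset.mem_inter, Finset.mem_union]
    constructor
    · rintro ⟨h3 | h3, h4 | h4⟩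
      · by_cases h5 : v ∈ gc (Y ∪ X1)
        · by_cases h6 : v ∈ gc (Y ∪ X2)
          · left
            rw [← h1]
            exact Finset.mem_inter.2 ⟨h5, h6⟩
          · exact Or.inr (hG v h3 h4 (hC.fc_col _ v h4 h6))
        · exact Or.inr (hG v h3 h4 (hC.fc_col _ v h3 h5))
      · exact Or.inr h4
      · exact Or.inr h3
      · exact Or.inr h3
    · rintro (h3 | h3)
      · exact ⟨Or.inl (hYX1 h3), Or.inl (hYX2 h3)⟩
      · exact ⟨Or.inr h3, Or.inr h3⟩
  · have key : ∀ X : Finset M, ∃ E : Finset M, (∀ v ∈ E, r.C v) ∧ gc (Y ∪ X) ∪ E = fc (Y ∪ X) ∪ Γ := by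
      intro X
      have h3 : gc (Y ∪ X) ⊆ fc (Y ∪ X) := hC.gc_min _ _ (hC.fc_cl _).cl (hC.fc_sub _)
      refine ⟨(fc (Y ∪ X) ∪ Γ) \ gc (Y ∪ X), ?_, ?_⟩
      · intro v hv
        obtain ⟨h4, h5⟩ := Finset.mem_sdiff.1 hv
        rcases Finset.mem_union.1 h4 with h6 | h6
        · exact hC.fc_col _ v h6 h5
        · exact hΓ v h6
      · exact Finset.union_sdiff_of_subset (h3.trans Finset.subset_union_left)
    obtain ⟨E, hE, hE'⟩ := key X1
    obtain ⟨F, hF, hF'⟩ := key X2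
    have := ind_iso hax h2 hE hF
    rw [hE', hF'] at this
    exact this

end Config

open Classical in
/-- Enumeration of a finite set by a bounded index set. -/
noncomputable def en {M : Type} [Nonempty M] (N : ℕ) (Y : Finset M) : Fin N → M := fun i =>
  if hi : (i : ℕ) < Y.card then (Y.equivFin.symm ⟨i, hi⟩ : M) else Classical.arbitrary M

theorem en_surj {M : Type} [Nonempty M] {N : ℕ} {Y : Finset M} (h : Y.card ≤ N) {y : M}
    (hy : y ∈ Y) : ∃ i, en N Y i = y := by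
  classical
  refine ⟨⟨Y.equivFin ⟨y, hy⟩, lt_of_lt_of_le (Fin.is_lt _) h⟩, ?_⟩
  simp [en]

theorem ofFn_getD (ρ ν : List Bool) (h : ν <+: ρ) :
    ν = List.ofFn fun t : Fin ν.length => ρ.getD t false := by
  apply List.ext_getElem
  · simp
  · intro i h1 h2
    simp only [List.getElem_ofFn]
    obtain ⟨s, rfl⟩ := h
    rw [List.getD_eq_getElem _ _ (by simp; omega)]
    simp [h1]

open Classical in
theorem no_sop1 {M : Type} [LC.Structure M] [Nonempty M] {r : Rels M} (hr : Rep M r)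
    (hax : Ax r Set.univ) (hEP : EP r) {k l : ℕ} (φ : LC.Formula (Fin k ⊕ Fin l))
    (b : List Bool → Fin l → M)
    (hσ : ∀ (σ : ℕ → Bool) (m : ℕ), ∃ a : Fin k → M, ∀ i < m,
      φ.Realize (Sum.elim a (b (List.ofFn fun t : Fin i => σ t))))
    (hinc : ∀ η ν : List Bool, (η ++ [false]) <+: ν →
      ¬ ∃ a : Fin k → M, φ.Realize (Sum.elim a (b (η ++ [true]))) ∧
        φ.Realize (Sum.elim a (b ν))) : False := by
  obtain ⟨gc, fc, hC⟩ := exists_clos r hax
  -- rows
  let row : (ℕ → Bool → Fin l → M) → ℕ → Finset M := fun c i =>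
    Finset.univ.image (c i false) ∪ Finset.univ.image (c i true)
  have hrow : ∀ c i, (row c i).card ≤ 2 * l := by
    intro c i
    have h1 : (Finset.univ.image (c i false)).card ≤ l :=
      Finset.card_image_le.trans (by simp)
    have h2 : (Finset.univ.image (c i true)).card ≤ l :=
      Finset.card_image_le.trans (by simp)
    have h3 := Finset.card_union_le (Finset.univ.image (c i false))
      (Finset.univ.image (c i true))
    show (Finset.univ.image (c i false) ∪ Finset.univ.image (c i true)).card ≤ 2 * l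
    omega
  have hpre : ∀ c i, ((Finset.range i).biUnion (row c)).card ≤ 2 * l * i := by
    intro c i
    refine (Finset.card_biUnion_le_card_mul _ _ (2 * l) fun j _ => hrow c j).trans ?_
    rw [Finset.card_range, mul_comm]
  let N : ℕ → ℕ := fun i => bd (2 * l * i)
  have hN : ∀ c i, (fc ((Finset.range i).biUnion (row c))).card ≤ N i := fun c i =>
    (hC.fc_card _).trans (bd_mono (hpre c i))
  choose T idx hT hidx using fun (i : ℕ) (t : (Fin (N i) ⊕ Fin l) → M) => exists_cl_enum hC t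
  let tup : ∀ i : ℕ, (ℕ → Bool → Fin l → M) → (Fin l → M) → (Fin (N i) ⊕ Fin l) → M :=
    fun i c x => Sum.elim (en (N i) (fc ((Finset.range i).biUnion (row c)))) x
  haveI hfin : ∀ i : ℕ, Finite
      (CodeT (Fin (bd (Fintype.card (Fin (N i) ⊕ Fin l) + 1))) ×
        ((Fin (N i) ⊕ Fin l) → Fin (bd (Fintype.card (Fin (N i) ⊕ Fin l) + 1)))) := by
    intro i
    haveI := finite_codeT (Fin (bd (Fintype.card (Fin (N i) ⊕ Fin l) + 1)))
    infer_instance
  obtain ⟨c, η, h1, h2, h3, h4⟩ := exists_array'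
    (C := fun i => CodeT (Fin (bd (Fintype.card (Fin (N i) ⊕ Fin l) + 1))) ×
      ((Fin (N i) ⊕ Fin l) → Fin (bd (Fintype.card (Fin (N i) ⊕ Fin l) + 1)))) b
    (fun i c x => (code r (T i (tup i c x)), idx i (tup i c x))) (by
      intro i c c' x hcc
      have hpre : (Finset.range i).biUnion (row c) = (Finset.range i).biUnion (row c') := by
        apply Finset.biUnion_congr rfl
        intro j hj
        simp only [row, hcc j (Finset.mem_range.1 hj)]
      have : tup i c x = tup i c' x := by simp only [tup, hpre]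
      simp only [this])
  -- the isomorphisms
  have hiso : ∀ i, ∃ (W : Finset M) (f : M → M), ClR r W Set.univ ∧
      RefOn r r (W : Set M) f ∧ ClR r (W.image f) Set.univ ∧
      fc ((Finset.range i).biUnion (row c)) ⊆ W ∧ (∀ s, c i false s ∈ W) ∧
      (∀ y ∈ fc ((Finset.range i).biUnion (row c)), f y = y) ∧
      ∀ s, f (c i false s) = c i true s := by
    intro i
    have h5 := (h4 i).symm
    simp only [Prod.mk.injEq] at h5
    obtain ⟨f, hf, hfi, hfc⟩ := of_enum h5.1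
    have hft : ∀ u, f (tup i c (c i false) u) = tup i c (c i true) u := by
      intro u
      rw [hidx i (tup i c (c i false)) u, hfc, h5.2, ← hidx i (tup i c (c i true)) u]
    have hmem : ∀ u, tup i c (c i false) u ∈ Finset.univ.image (T i (tup i c (c i false))) := by
      intro u
      rw [hidx i (tup i c (c i false)) u]
      exact Finset.mem_image_of_mem _ (Finset.mem_univ _)
    refine ⟨Finset.univ.image (T i (tup i c (c i false))), f, hT i _, hf,
      by rw [hfi]; exact hT i _, ?_, ?_, ?_, ?_⟩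
    · intro y hy
      obtain ⟨u, hu⟩ := en_surj (hN c i) hy
      have := hmem (Sum.inl u)
      simp only [tup, Sum.elim_inl, hu] at this
      exact this
    · intro s
      exact hmem (Sum.inr s)
    · intro y hy
      obtain ⟨u, hu⟩ := en_surj (hN c i) hy
      have := hft (Sum.inl u)
      simp only [tup, Sum.elim_inl, hu] at this
      exact this
    · intro s
      exact hft (Sum.inr s)
  -- realisations of the path
  have ha : ∀ n : ℕ, ∃ a : Fin k → M, ∀ i < n, φ.Realize (Sum.elim a (c i false)) := by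
    intro n
    obtain ⟨a, ha⟩ := hσ (fun t => (η n).getD t false) ((η n).length + 1)
    refine ⟨a, fun i hi => ?_⟩
    have hpre : η (i + 1) <+: η n := h2 (i + 1) n hi
    have h5 := ofFn_getD (η n) (η (i + 1)) hpre
    rw [h1 i, h5]
    exact ha _ (by have := hpre.length_le; omega)
  choose a ha using ha
  have hdm : ∀ X Y : Finset M, X ⊆ Y → dl r.G (gc X) ≤ dl r.G (gc Y) :=
    fun X Y h => hC.gc_le X _ (h.trans (hC.gc_sub Y))
  have hds : ∀ X Y : Finset M, dl r.G (gc (X ∪ Y)) + dl r.G (gc (X ∩ Y)) ≤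
      dl r.G (gc X) + dl r.G (gc Y) := by
    intro X Y
    have h5 := hC.gc_le (X ∪ Y) (gc X ∪ gc Y)
      (Finset.union_subset_union (hC.gc_sub X) (hC.gc_sub Y))
    have h6 := hC.gc_le (X ∩ Y) (gc X ∩ gc Y)
      (Finset.inter_subset_inter (hC.gc_sub X) (hC.gc_sub Y))
    have h7 := dl_submod (G := r.G) (gc X) (gc Y)
    omega
  obtain ⟨n, j, p, q, hjp, hpq, hqn, g1, g2, g3, g4⟩ := exists_config fc
    (fun X => dl r.G (gc X)) bd (2 * l) k bd_mono hC.fc_sub
    (fun X Y h => hC.fc_min X _ (hC.fc_cl Y) h) hC.fc_card hdm hds (by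
      intro X Y
      have h5 := hC.gc_le (X ∪ Y) (gc X ∪ Y)
        (Finset.union_subset_union (hC.gc_sub X) subset_rfl)
      have h6 := dl_submod (G := r.G) (gc X) Y
      have h7 : 0 ≤ dl r.G (gc X ∩ Y) := by
        rcases (gc X ∩ Y).eq_empty_or_nonempty with h8 | h8
        · rw [h8, dl_empty]
        · have := hax.gr.two_le (Set.subset_univ _) h8
          omega
      have h8 : dl r.G Y ≤ 2 * (Y.card : ℤ) := by
        simp only [dl]
        omega
      show dl r.G (gc (X ∪ Y)) ≤ dl r.G (gc X) + 2 * (Y.card : ℤ)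
      omega) (row c) (hrow c) (fun n => Finset.univ.image (a n)) (by
      intro n
      exact Finset.card_image_le.trans (by simp))
  set Y : Finset M := fc ((Finset.range j).biUnion (row c)) with hY
  have hYcl : ClR r Y Set.univ := hC.fc_cl _
  set A : Finset M := Finset.univ.image (a n) with hA
  set P0 : Finset M := Finset.univ.image (c p false) with hP0
  set P1 : Finset M := Finset.univ.image (c p true) with hP1
  set Q0 : Finset M := Finset.univ.image (c q false) with hQ0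
  have sP0 : P0 ⊆ row c p := Finset.subset_union_left
  have sP1 : P1 ⊆ row c p := Finset.subset_union_right
  have sQ0 : Q0 ⊆ row c q := Finset.subset_union_left
  have r1 := rank_sub hdm hds (subset_refl A) sP0 g1
  have r2 := rank_sub hdm hds (subset_refl A) sQ0 g2
  have r3 := rank_sub hdm hds sP1 sQ0 g3
  -- monotonicity of closures
  have fm : ∀ X X' : Finset M, X ⊆ X' → fc X ⊆ fc X' :=
    fun X X' h => hC.fc_min X _ (hC.fc_cl X') (h.trans (hC.fc_sub X'))
  have fP0 : fc (Y ∪ P0) ⊆ fc (Y ∪ row c p) := fm _ _ (Finset.union_subset_union_right sP0)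
  have fP1 : fc (Y ∪ P1) ⊆ fc (Y ∪ row c p) := fm _ _ (Finset.union_subset_union_right sP1)
  have fQ0 : fc (Y ∪ Q0) ⊆ fc (Y ∪ row c q) := fm _ _ (Finset.union_subset_union_right sQ0)
  -- the common colours
  set Γ : Finset M := ((fc (Y ∪ A) ∩ fc (Y ∪ row c p)) ∪ (fc (Y ∪ A) ∩ fc (Y ∪ row c q)) ∪
    (fc (Y ∪ row c p) ∩ fc (Y ∪ row c q))).filter (fun v => r.C v) with hΓdef
  have hΓ : ∀ v ∈ Γ, r.C v := fun v hv => (Finset.mem_filter.1 hv).2
  have hΓp : ∀ v ∈ Γ, v ∈ fc (Y ∪ row c p) → v ∈ fc ((Finset.range p).biUnion (row c)) := by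
    intro v hv hvp
    apply g4 v hvp
    have h5 := (Finset.mem_filter.1 hv).1
    simp only [Finset.mem_union, Finset.mem_inter] at h5
    rcases h5 with (⟨h5, _⟩ | ⟨h5, _⟩) | ⟨_, h5⟩
    · exact Or.inl h5
    · exact Or.inl h5
    · exact Or.inr h5
  obtain ⟨i12, I12⟩ := inter_add hC hYcl r1 hΓ (by
    intro v hv hv' hcv
    refine Finset.mem_filter.2 ⟨?_, hcv⟩
    simp only [Finset.mem_union, Finset.mem_inter]
    exact Or.inl (Or.inl ⟨hv, fP0 hv'⟩)) hax
  obtain ⟨i13, I13⟩ := inter_add hC hYcl r2 hΓ (by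
    intro v hv hv' hcv
    refine Finset.mem_filter.2 ⟨?_, hcv⟩
    simp only [Finset.mem_union, Finset.mem_inter]
    exact Or.inl (Or.inr ⟨hv, fQ0 hv'⟩)) hax
  obtain ⟨i23, I23⟩ := inter_add hC hYcl r3 hΓ (by
    intro v hv hv' hcv
    refine Finset.mem_filter.2 ⟨?_, hcv⟩
    simp only [Finset.mem_union, Finset.mem_inter]
    exact Or.inr ⟨fP1 hv, fQ0 hv'⟩) hax
  -- the isomorphism
  obtain ⟨W, f, hW, hf, hWf, hpW, hcW, hfy, hfc⟩ := hiso p
  have hYp : Y ⊆ fc ((Finset.range p).biUnion (row c)) := by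
    apply fm
    exact Finset.biUnion_subset_biUnion_of_subset_left _ (Finset.range_subset_range.2 hjp)
  have hfY : ∀ y ∈ Y, f y = y := fun y hy => hfy y (hYp hy)
  set U0 : Finset M := fc (Y ∪ P0) with hU0
  set U1 : Finset M := fc (Y ∪ P1) with hU1
  have hU0W : U0 ⊆ W := by
    apply hC.fc_min _ _ hW
    apply Finset.union_subset (hYp.trans hpW)
    intro x hx
    obtain ⟨s, -, rfl⟩ := Finset.mem_image.1 hx
    exact hcW s
  have hU0cl : ClR r U0 Set.univ := hC.fc_cl _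
  have hU1cl : ClR r U1 Set.univ := hC.fc_cl _
  have him0 : ClR r (U0.image f) Set.univ :=
    (hf.clR (hU0cl.mono (by exact_mod_cast hU0W) (Set.subset_univ _))).trans hWf
  have hYU0 : Y ⊆ U0 := Finset.subset_union_left.trans (hC.fc_sub _)
  have hPU0 : P0 ⊆ U0 := Finset.subset_union_right.trans (hC.fc_sub _)
  have hYU1 : Y ⊆ U1 := Finset.subset_union_left.trans (hC.fc_sub _)
  have hPU1 : P1 ⊆ U1 := Finset.subset_union_right.trans (hC.fc_sub _)
  have hsub1 : U1 ⊆ U0.image f := by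
    apply hC.fc_min _ _ him0
    apply Finset.union_subset
    · intro y hy
      rw [← hfY y hy]
      exact Finset.mem_image_of_mem f (hYU0 hy)
    · intro x hx
      obtain ⟨s, -, rfl⟩ := Finset.mem_image.1 hx
      rw [← hfc s]
      exact Finset.mem_image_of_mem f (hPU0 (Finset.mem_image_of_mem _ (Finset.mem_univ s)))
  have hU01 : U0.image f = U1 := by
    apply Finset.Subset.antisymm _ hsub1
    obtain ⟨g, hg1, hg2, hg3⟩ := hf.inv
    have hU1W : U1 ⊆ W.image f := hsub1.trans (Finset.image_subset_image hU0W)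
    have h5 : ClR r (U1.image g) Set.univ := by
      have h6 := hg2.clR (hU1cl.mono (by exact_mod_cast hU1W) (Set.subset_univ _))
      rw [hg3] at h6
      exact h6.trans hW
    have h6 : U0 ⊆ U1.image g := by
      apply hC.fc_min _ _ h5
      apply Finset.union_subset
      · intro y hy
        have h7 := hg1 y (hU0W (hYU0 hy))
        rw [hfY y hy] at h7
        rw [← h7]
        exact Finset.mem_image_of_mem g (hYU1 hy)
      · intro x hx
        obtain ⟨s, -, rfl⟩ := Finset.mem_image.1 hx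
        have h7 := hg1 _ (hcW s)
        rw [hfc s] at h7
        rw [← h7]
        exact Finset.mem_image_of_mem g (hPU1 (Finset.mem_image_of_mem _ (Finset.mem_univ s)))
    intro y hy
    obtain ⟨x, hx, rfl⟩ := Finset.mem_image.1 hy
    obtain ⟨u, hu, hux⟩ := Finset.mem_image.1 (h6 hx)
    obtain ⟨w, hw, hwu⟩ := Finset.mem_image.1 (hU1W hu)
    have h7 : x = w := by
      rw [← hux, ← hwu]
      exact hg1 w hw
    rw [h7, hwu]
    exact hu
  obtain ⟨f', hf'1, hf'2, hf'3, hf'4⟩ := ref_add hax hU0cl hU1cl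
    (hf.mono (by exact_mod_cast hU0W)) hU01 hΓ
    (fun v hv hvU => hfy v (hΓp v hv (fP0 hvU)))
    (fun v hv hvU => by
      have h5 := hΓp v hv (fP1 hvU)
      have h6 := hfy v h5
      rw [← hU01] at hvU
      obtain ⟨u, hu, huv⟩ := Finset.mem_image.1 hvU
      have h7 : u = v := hf.inj (hU0W hu) (hpW h5) (huv.trans h6.symm)
      exact h7 ▸ hu)
  -- closedness
  have cl1 : ClR r (fc (Y ∪ A) ∪ Γ) Set.univ := clR_add hax (hC.fc_cl _) hΓ
  have cl2 : ClR r (U0 ∪ Γ) Set.univ := clR_add hax hU0cl hΓ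
  have cl2' : ClR r (U1 ∪ Γ) Set.univ := clR_add hax hU1cl hΓ
  have cl3 : ClR r (fc (Y ∪ Q0) ∪ Γ) Set.univ := clR_add hax (hC.fc_cl _) hΓ
  obtain ⟨k12, k13, k1, k2, k3, k4, k5, k6, k7⟩ := indep_amalg r hax hEP (Y ∪ Γ)
    (fc (Y ∪ A) ∪ Γ) (U0 ∪ Γ) (U1 ∪ Γ) (fc (Y ∪ Q0) ∪ Γ)
    (fc ((fc (Y ∪ A) ∪ Γ) ∪ (U0 ∪ Γ))) (fc ((fc (Y ∪ A) ∪ Γ) ∪ (fc (Y ∪ Q0) ∪ Γ)))
    (fc ((U1 ∪ Γ) ∪ (fc (Y ∪ Q0) ∪ Γ))) f' cl1 cl2 cl2' cl3 (hC.fc_cl _) (hC.fc_cl _)
    (hC.fc_cl _) (hC.fc_sub _) (hC.fc_sub _) (hC.fc_sub _) i12 i13 i23 hf'1 hf'2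
    (by
      intro x hx
      rcases Finset.mem_union.1 hx with h5 | h5
      · rw [hf'3 x (hYU0 h5), hfY x h5]
      · exact hf'4 x h5) I12 I13 I23
  have haD1 : ∀ t, a n t ∈ fc (Y ∪ A) ∪ Γ := fun t =>
    Finset.mem_union_left _ (hC.fc_sub _ (Finset.mem_union_right _
      (Finset.mem_image_of_mem _ (Finset.mem_univ t))))
  have hcD2 : ∀ s, c p false s ∈ U0 := fun s =>
    hPU0 (Finset.mem_image_of_mem _ (Finset.mem_univ s))
  have hcD3 : ∀ s, c q false s ∈ fc (Y ∪ Q0) ∪ Γ := fun s =>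
    Finset.mem_union_left _ (hC.fc_sub _ (Finset.mem_union_right _
      (Finset.mem_image_of_mem _ (Finset.mem_univ s))))
  have t1 := (homog hr hax hC.ex hEP φ (hC.fc_cl _) k2 k1 (v := Sum.elim (a n) (c p false)) (by
    rintro (t | s)
    · exact hC.fc_sub _ (Finset.mem_union_left _ (haD1 t))
    · exact hC.fc_sub _ (Finset.mem_union_right _ (Finset.mem_union_left _ (hcD2 s))))).1
    (ha n p (by omega))
  have t2 := (homog hr hax hC.ex hEP φ (hC.fc_cl _) k4 k3 (v := Sum.elim (a n) (c q false)) (by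
    rintro (t | s)
    · exact hC.fc_sub _ (Finset.mem_union_left _ (haD1 t))
    · exact hC.fc_sub _ (Finset.mem_union_right _ (hcD3 s)))).1
    (ha n q (by omega))
  have e1 : k12 ∘ Sum.elim (a n) (c p false) = Sum.elim (k12 ∘ a n) (c p true) := by
    funext u
    rcases u with t | s
    · rfl
    · show k12 (c p false s) = c p true s
      rw [k6 _ (Finset.mem_union_left _ (hcD2 s)), hf'3 _ (hcD2 s), hfc s]
  have e2 : k13 ∘ Sum.elim (a n) (c q false) = Sum.elim (k12 ∘ a n) (c q false) := by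
    funext u
    rcases u with t | s
    · exact (k5 _ (haD1 t)).symm
    · exact k7 _ (hcD3 s)
  rw [e1] at t1
  rw [e2] at t2
  obtain ⟨μ, hμ1, hμ2⟩ := h3 p
  refine hinc μ (η (q + 1)) (hμ2.trans (h2 (p + 1) (q + 1) (by omega))) ⟨k12 ∘ a n, ?_, ?_⟩
  · rw [← hμ1]
    exact t1
  · rw [← h1 q]
    exact t2

end H968F
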