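import Pool.Agent.helper968_nsop1.Sparse

/-!
Sparse graphs with coloured edges and points choosing colours.
-/

namespace H968F

open Classical Finset

/-- A graph `G`, predicates `P` (points) and `C` (colours), a relation `K z w c` (the colour of
the edge `zw` at `z` is `c`) and a relation `S x z c` (the point `x` chooses the colour `c` at
`z`). -/
structure Rels (V : Type) where
  G : SimpleGraph V
  P : V → Prop
  C : V → Prop
  K : V → V → V → Prop
  S : V → V → V → Prop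

variable {V : Type}

/-- `s z c` is a choice of colours: at most two colours at each vertex (an element which is neither
a point nor a colour), and each edge is covered. -/
structure Act (r : Rels V) (s : V → V → Prop) (U : Set V) : Prop where
  col : ∀ z ∈ U, ∀ c ∈ U, s z c → r.C c ∧ ¬ r.P z ∧ ¬ r.C z
  two : ∀ z ∈ U, ∀ a ∈ U, ∀ b ∈ U, ∀ c ∈ U, s z a → s z b → s z c → a = b ∨ a = c ∨ b = c
  cov : ∀ z ∈ U, ∀ w ∈ U, r.G.Adj z w →
    (∃ c ∈ U, r.K z w c ∧ s z c) ∨ (∃ c ∈ U, r.K w z c ∧ s w c)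

/-- A choice of colours at the elements of `A`, with colours in `U`. -/
structure PAct (r : Rels V) (s : V → V → Prop) (A : Set V) (U : Set V) : Prop where
  col : ∀ z ∈ A, ∀ c ∈ U, s z c → r.C c ∧ ¬ r.P z ∧ ¬ r.C z
  two : ∀ z ∈ A, ∀ a ∈ U, ∀ b ∈ U, ∀ c ∈ U, s z a → s z b → s z c → a = b ∨ a = c ∨ b = c
  cov : ∀ z ∈ A, ∀ w ∈ A, r.G.Adj z w →
    (∃ c ∈ U, r.K z w c ∧ s z c) ∨ (∃ c ∈ U, r.K w z c ∧ s w c)

/-- The axioms not mentioning `S`. -/
structure Ax0 (r : Rels V) (U : Set V) : Prop where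
  gr : Gr r.G U
  PC : ∀ x ∈ U, r.P x → ¬ r.C x
  iso : ∀ u ∈ U, ∀ v ∈ U, r.G.Adj u v → ¬ r.P u ∧ ¬ r.C u
  KG : ∀ z ∈ U, ∀ w ∈ U, ∀ c ∈ U, r.K z w c → r.G.Adj z w ∧ r.C c
  Kex : ∀ z ∈ U, ∀ w ∈ U, r.G.Adj z w → ∃ c ∈ U, r.K z w c
  Kun : ∀ z ∈ U, ∀ w ∈ U, ∀ c ∈ U, ∀ c' ∈ U, r.K z w c → r.K z w c' → c = c'

/-- The axioms. -/
structure Ax (r : Rels V) (U : Set V) : Prop extends Ax0 r U where
  SP : ∀ x ∈ U, ∀ z ∈ U, ∀ c ∈ U, r.S x z c → r.P x
  act : ∀ x ∈ U, r.P x → Act r (r.S x) U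

/-- `A` is closed in `U`. -/
structure ClR (r : Rels V) (A : Finset V) (U : Set V) : Prop where
  cl : Cl r.G A U
  K : ∀ z ∈ A, ∀ w ∈ A, ∀ c ∈ U, r.K z w c → c ∈ A
  S : ∀ x ∈ A, ∀ z ∈ A, ∀ c ∈ U, r.S x z c → c ∈ A

theorem Act.pact {r : Rels V} {s : V → V → Prop} {U : Set V} (h : Act r s U) : PAct r s U U :=
  ⟨h.col, h.two, h.cov⟩

theorem PAct.act {r : Rels V} {s : V → V → Prop} {U : Set V} (h : PAct r s U U) : Act r s U :=
  ⟨h.col, h.two, h.cov⟩

/-- An action with values in the closed part. -/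
theorem Act.mono {r : Rels V} {s : V → V → Prop} {A U : Set V} (h : Act r s U) (hA : A ⊆ U)
    (hK : ∀ z ∈ A, ∀ w ∈ A, ∀ c ∈ U, r.K z w c → c ∈ A) : Act r s A where
  col z hz c hc := h.col z (hA hz) c (hA hc)
  two z hz a ha b hb c hc := h.two z (hA hz) a (hA ha) b (hA hb) c (hA hc)
  cov z hz w hw hzw := by
    rcases h.cov z (hA hz) w (hA hw) hzw with ⟨c, h1, h2, h3⟩ | ⟨c, h1, h2, h3⟩
    · exact Or.inl ⟨c, hK z hz w hw c h1 h2, h2, h3⟩
    · exact Or.inr ⟨c, hK w hw z hz c h1 h2, h2, h3⟩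

theorem Ax0.sub {r : Rels V} {A U : Set V} (h : Ax0 r U) (hA : A ⊆ U)
    (hK : ∀ z ∈ A, ∀ w ∈ A, ∀ c ∈ U, r.K z w c → c ∈ A) : Ax0 r A where
  gr := h.gr.mono hA
  PC x hx := h.PC x (hA hx)
  iso u hu v hv := h.iso u (hA hu) v (hA hv)
  KG z hz w hw c hc := h.KG z (hA hz) w (hA hw) c (hA hc)
  Kex z hz w hw hzw := by
    obtain ⟨c, h1, h2⟩ := h.Kex z (hA hz) w (hA hw) hzw
    exact ⟨c, hK z hz w hw c h1 h2, h2⟩
  Kun z hz w hw c hc c' hc' := h.Kun z (hA hz) w (hA hw) c (hA hc) c' (hA hc')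

/-- The axioms pass to closed subsets. -/
theorem Ax.sub {r : Rels V} {A : Finset V} {U : Set V} (h : Ax r U) (hA : ClR r A U) :
    Ax r (A : Set V) where
  toAx0 := h.toAx0.sub hA.cl.sub hA.K
  SP x hx z hz c hc := h.SP x (hA.cl.sub hx) z (hA.cl.sub hz) c (hA.cl.sub hc)
  act x hx hp := (h.act x (hA.cl.sub hx) hp).mono hA.cl.sub hA.K

theorem ClR.refl (r : Rels V) (A : Finset V) : ClR r A (A : Set V) where
  cl := Cl.refl A
  K _ _ _ _ _ hc _ := hc
  S _ _ _ _ _ hc _ := hc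

theorem ClR.mono {r : Rels V} {A : Finset V} {S T : Set V} (h : ClR r A T)
    (hA : (A : Set V) ⊆ S) (hS : S ⊆ T) : ClR r A S where
  cl := h.cl.mono hA hS
  K z hz w hw c hc := h.K z hz w hw c (hS hc)
  S z hz w hw c hc := h.S z hz w hw c (hS hc)

theorem ClR.trans {r : Rels V} {A B : Finset V} {S : Set V} (h1 : ClR r A (B : Set V))
    (h2 : ClR r B S) : ClR r A S where
  cl := h1.cl.trans h2.cl
  K z hz w hw c hc h := h1.K z hz w hw c
    (h2.K z (h1.cl.sub hz) w (h1.cl.sub hw) c hc h) h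
  S z hz w hw c hc h := h1.S z hz w hw c
    (h2.S z (h1.cl.sub hz) w (h1.cl.sub hw) c hc h) h

theorem ClR.inter {r : Rels V} {A B : Finset V} {S : Set V} (h1 : ClR r A S)
    (h2 : ClR r B S) : ClR r (A ∩ B) S where
  cl := h1.cl.inter h2.cl
  K z hz w hw c hc h := by
    obtain ⟨a, b⟩ := Finset.mem_inter.1 hz
    obtain ⟨a', b'⟩ := Finset.mem_inter.1 hw
    exact Finset.mem_inter.2 ⟨h1.K z a w a' c hc h, h2.K z b w b' c hc h⟩
  S z hz w hw c hc h := by
    obtain ⟨a, b⟩ := Finset.mem_inter.1 hz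
    obtain ⟨a', b'⟩ := Finset.mem_inter.1 hw
    exact Finset.mem_inter.2 ⟨h1.S z a w a' c hc h, h2.S z b w b' c hc h⟩

theorem Ax.clR_empty {r : Rels V} {S : Set V} (h : Ax r S) : ClR r ∅ S where
  cl := h.gr.cl_empty
  K z hz := absurd hz (Finset.notMem_empty z)
  S z hz := absurd hz (Finset.notMem_empty z)

/-- A choice of colours on a weakly closed subset extends. -/
theorem PAct.extend {r : Rels V} {s : V → V → Prop} {A B : Finset V} (hB : Ax0 r (B : Set V))
    (hc : WC r.G A B) (h : PAct r s (A : Set V) (B : Set V)) :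
    ∃ s' : V → V → Prop, Act r s' (B : Set V) ∧
      ∀ z ∈ A, ∀ c ∈ B, (s' z c ↔ s z c) := by
  obtain ⟨f, hf1, hf2⟩ := hc.exists_assign
  have hmem : ∀ v w (S : Finset V), s(v, w) ∈ es r.G S ↔ (v ∈ S ∧ w ∈ S) ∧ r.G.Adj v w := by
    intro v w S
    rw [mem_es]
    simp
  have hAB : A ⊆ B := hc.sub
  -- the edges assigned to a vertex
  let N : V → Finset (Sym2 V) := fun z => (es r.G B \ es r.G A).filter (fun e => f e = z)
  have hN : ∀ z, (N z).card ≤ 2 := hf2
  refine ⟨fun z c => (z ∈ A ∧ s z c) ∨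
    (z ∉ A ∧ ∃ w ∈ B, s(z, w) ∈ N z ∧ r.K z w c), ⟨?_, ?_, ?_⟩, ?_⟩
  · rintro z hz c hcc (⟨h1, h2⟩ | ⟨h1, w, hw, h2, h3⟩)
    · exact h.col z h1 c hcc h2
    · have h4 := hB.KG z hz w hw c hcc h3
      exact ⟨h4.2, hB.iso z hz w hw h4.1⟩
  · intro z hz a ha b hb c hcc h1 h2 h3
    by_cases hzA : z ∈ A
    · have k1 : s z a := by
        rcases h1 with h1 | h1
        · exact h1.2
        · exact absurd hzA h1.1
      have k2 : s z b := by
        rcases h2 with h1 | h1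
        · exact h1.2
        · exact absurd hzA h1.1
      have k3 : s z c := by
        rcases h3 with h1 | h1
        · exact h1.2
        · exact absurd hzA h1.1
      exact h.two z hzA a ha b hb c hcc k1 k2 k3
    · have key : ∀ d, ((z ∈ A ∧ s z d) ∨ (z ∉ A ∧ ∃ w ∈ B, s(z, w) ∈ N z ∧ r.K z w d)) →
          ∃ w ∈ B, s(z, w) ∈ N z ∧ r.K z w d := by
        rintro d (h1 | h1)
        · exact absurd h1.1 hzA
        · exact h1.2
      obtain ⟨wa, ha1, ha2, ha3⟩ := key a h1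
      obtain ⟨wb, hb1, hb2, hb3⟩ := key b h2
      obtain ⟨wc, hc1, hc2, hc3⟩ := key c h3
      by_contra hcon
      obtain ⟨nab, nac, nbc⟩ : a ≠ b ∧ a ≠ c ∧ b ≠ c :=
        ⟨fun e => hcon (Or.inl e), fun e => hcon (Or.inr (Or.inl e)),
          fun e => hcon (Or.inr (Or.inr e))⟩
      have dab : wa ≠ wb := fun e => nab (hB.Kun z hz wa ha1 a ha b hb ha3 (by rw [e]; exact hb3))
      have dac : wa ≠ wc := fun e => nac (hB.Kun z hz wa ha1 a ha c hcc ha3 (by rw [e]; exact hc3))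
      have dbc : wb ≠ wc := fun e => nbc (hB.Kun z hz wb hb1 b hb c hcc hb3 (by rw [e]; exact hc3))
      have h3 : ({s(z, wa), s(z, wb), s(z, wc)} : Finset (Sym2 V)) ⊆ N z := by
        intro e he
        simp only [Finset.mem_insert, Finset.mem_singleton] at he
        rcases he with rfl | rfl | rfl
        · exact ha2
        · exact hb2
        · exact hc2
      have h4 := Finset.card_le_card h3
      have h5 := hN z
      have h6 : ({s(z, wa), s(z, wb), s(z, wc)} : Finset (Sym2 V)).card = 3 := by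
        rw [Finset.card_eq_three]
        refine ⟨_, _, _, ?_, ?_, ?_, rfl⟩
        · exact fun h => dab (Sym2.congr_right.1 h)
        · exact fun h => dac (Sym2.congr_right.1 h)
        · exact fun h => dbc (Sym2.congr_right.1 h)
      omega
  · intro z hz w hw hzw
    have h1 : s(z, w) ∈ es r.G B := (hmem _ _ _).2 ⟨⟨hz, hw⟩, hzw⟩
    by_cases h2 : s(z, w) ∈ es r.G A
    · have h3 := (hmem _ _ _).1 h2
      rcases h.cov z h3.1.1 w h3.1.2 hzw with ⟨c, k1, k2, k3⟩ | ⟨c, k1, k2, k3⟩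
      · exact Or.inl ⟨c, k1, k2, Or.inl ⟨h3.1.1, k3⟩⟩
      · exact Or.inr ⟨c, k1, k2, Or.inl ⟨h3.1.2, k3⟩⟩
    · have h3 := hf1 _ h1 h2
      rcases Sym2.mem_iff.1 h3.1 with h4 | h4
      · obtain ⟨c, k1, k2⟩ := hB.Kex z hz w hw hzw
        refine Or.inl ⟨c, k1, k2, Or.inr ⟨?_, w, hw, ?_, k2⟩⟩
        · rw [← h4]
          exact h3.2.2
        · exact Finset.mem_filter.2 ⟨Finset.mem_sdiff.2 ⟨h1, h2⟩, h4⟩
      · obtain ⟨c, k1, k2⟩ := hB.Kex w hw z hz hzw.symm
        refine Or.inr ⟨c, k1, k2, Or.inr ⟨?_, z, hz, ?_, k2⟩⟩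
        · rw [← h4]
          exact h3.2.2
        · refine Finset.mem_filter.2 ⟨Finset.mem_sdiff.2 ⟨?_, ?_⟩, ?_⟩
          · rw [Sym2.eq_swap]; exact h1
          · rw [Sym2.eq_swap]; exact h2
          · rw [Sym2.eq_swap]; exact h4
  · intro z hz c hcc
    constructor
    · rintro (⟨_, h1⟩ | ⟨h1, _⟩)
      · exact h1
      · exact absurd hz h1
    · intro h1
      exact Or.inl ⟨hz, h1⟩

/-- On the set `A` the map `g` is injective and preserves and reflects the relations. -/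
structure RefOn {F V : Type} (Q : Rels F) (r : Rels V) (A : Set F) (g : F → V) : Prop where
  inj : Set.InjOn g A
  P : ∀ x ∈ A, (r.P (g x) ↔ Q.P x)
  C : ∀ x ∈ A, (r.C (g x) ↔ Q.C x)
  G : ∀ x ∈ A, ∀ y ∈ A, (r.G.Adj (g x) (g y) ↔ Q.G.Adj x y)
  K : ∀ x ∈ A, ∀ v ∈ A, ∀ w ∈ A, (r.K (g x) (g v) (g w) ↔ Q.K x v w)
  S : ∀ x ∈ A, ∀ v ∈ A, ∀ w ∈ A, (r.S (g x) (g v) (g w) ↔ Q.S x v w)

/-- The extension property. -/
def EP {V : Type} (r : Rels V) : Prop :=
  ∀ (F : Type) (Q : Rels F) (A B : Finset F) (g : F → V), Ax Q (B : Set F) →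
    ClR Q A (B : Set F) → RefOn Q r (A : Set F) g → ClR r (A.image g) Set.univ →
    ∃ g' : F → V, RefOn Q r (B : Set F) g' ∧ (∀ x ∈ A, g' x = g x) ∧
      ClR r (B.image g') Set.univ

theorem RefOn.mono {F : Type} {Q : Rels F} {r : Rels V} {A B : Set F} {g : F → V}
    (h : RefOn Q r B g) (hA : A ⊆ B) : RefOn Q r A g where
  inj := h.inj.mono hA
  P x hx := h.P x (hA hx)
  C x hx := h.C x (hA hx)
  G x hx y hy := h.G x (hA hx) y (hA hy)
  K x hx v hv w hw := h.K x (hA hx) v (hA hv) w (hA hw)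
  S x hx v hv w hw := h.S x (hA hx) v (hA hv) w (hA hw)

/-- The predimension is invariant. -/
theorem dl_image {F V : Type} {H : SimpleGraph F} {G : SimpleGraph V} {X : Finset F} {g : F → V}
    (hi : Set.InjOn g (X : Set F)) (hG : ∀ x ∈ X, ∀ y ∈ X, (G.Adj (g x) (g y) ↔ H.Adj x y)) :
    dl G (X.image g) = dl H X := by
  have h1 : (X.image g).card = X.card := Finset.card_image_of_injOn hi
  have h2 : es G (X.image g) = (es H X).image (Sym2.map g) := by
    ext e
    induction e using Sym2.inductionOn with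
    | _ u v =>
      rw [mem_es]
      simp only [Sym2.mem_iff, SimpleGraph.mem_edgeSet, Finset.mem_image, forall_eq_or_imp,
        forall_eq]
      constructor
      · rintro ⟨⟨⟨x, hx, rfl⟩, ⟨y, hy, rfl⟩⟩, h3⟩
        refine ⟨s(x, y), ?_, by simp⟩
        rw [mem_es]
        simp only [Sym2.mem_iff, SimpleGraph.mem_edgeSet, forall_eq_or_imp, forall_eq]
        exact ⟨⟨hx, hy⟩, (hG x hx y hy).1 h3⟩
      · rintro ⟨e, he, h3⟩
        induction e using Sym2.inductionOn with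
        | _ x y =>
          rw [mem_es] at he
          simp only [Sym2.mem_iff, SimpleGraph.mem_edgeSet, forall_eq_or_imp, forall_eq] at he
          obtain ⟨⟨hx, hy⟩, hxy⟩ := he
          simp only [Sym2.map_mk, Sym2.eq_iff] at h3
          rcases h3 with ⟨rfl, rfl⟩ | ⟨rfl, rfl⟩
          · exact ⟨⟨⟨x, hx, rfl⟩, ⟨y, hy, rfl⟩⟩, (hG x hx y hy).2 hxy⟩
          · exact ⟨⟨⟨y, hy, rfl⟩, ⟨x, hx, rfl⟩⟩, ((hG x hx y hy).2 hxy).symm⟩
  have h3 : (es G (X.image g)).card = (es H X).card := by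
    rw [h2]
    apply Finset.card_image_of_injOn
    intro e he e' he' heq
    induction e using Sym2.inductionOn with
    | _ x y =>
      induction e' using Sym2.inductionOn with
      | _ x' y' =>
        rw [Finset.mem_coe, mem_es] at he he'
        simp only [Sym2.mem_iff, SimpleGraph.mem_edgeSet, forall_eq_or_imp, forall_eq] at he he'
        simp only [Sym2.map_mk, Sym2.eq_iff] at heq ⊢
        rcases heq with ⟨h4, h5⟩ | ⟨h4, h5⟩
        · exact Or.inl ⟨hi he.1.1 he'.1.1 h4, hi he.1.2 he'.1.2 h5⟩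
        · exact Or.inr ⟨hi he.1.1 he'.1.2 h4, hi he.1.2 he'.1.1 h5⟩
  simp only [dl, h1, h3]

/-- Agreement of two graphs on a set. -/
theorem dl_congr {G H : SimpleGraph V} {X : Finset V}
    (hG : ∀ x ∈ X, ∀ y ∈ X, (G.Adj x y ↔ H.Adj x y)) : dl G X = dl H X := by
  have := dl_image (g := id) (X := X) (H := H) (G := G) (Set.injOn_id _) hG
  simpa using this

theorem RefOn.dl {F : Type} {Q : Rels F} {r : Rels V} {A : Set F} {g : F → V}
    (h : RefOn Q r A g) {X : Finset F} (hX : (X : Set F) ⊆ A) :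
    dl r.G (X.image g) = dl Q.G X :=
  dl_image (h.inj.mono hX) fun x hx y hy => h.G x (hX hx) y (hX hy)

/-- Closedness is invariant. -/
theorem RefOn.cl {F : Type} {Q : Rels F} {r : Rels V} {B : Finset F} {g : F → V}
    (h : RefOn Q r (B : Set F) g) {A : Finset F} (hA : Cl Q.G A (B : Set F)) :
    Cl r.G (A.image g) ((B.image g : Finset V) : Set V) where
  sub := by
    have : A ⊆ B := by exact_mod_cast hA.sub
    exact_mod_cast Finset.image_subset_image this
  lt X hX hAX := by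
    have hX' : X ⊆ B.image g := by exact_mod_cast hX
    obtain ⟨Y, hY, rfl⟩ := Finset.subset_image_iff.1 hX'
    have hAB : A ⊆ B := by exact_mod_cast hA.sub
    have hAY : A ⊂ Y := by
      refine Finset.ssubset_iff_subset_ne.2 ⟨?_, ?_⟩
      · intro x hx
        have h1 := hAX.1 (Finset.mem_image_of_mem g hx)
        obtain ⟨y, hy, hxy⟩ := Finset.mem_image.1 h1
        have := h.inj (hY hy) (hAB hx) hxy
        exact this ▸ hy
      · rintro rfl
        exact lt_irrefl _ hAX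
    rw [h.dl (by exact_mod_cast hAB), h.dl (by exact_mod_cast hY)]
    exact hA.lt Y (by exact_mod_cast hY) hAY

theorem RefOn.clR {F : Type} {Q : Rels F} {r : Rels V} {B : Finset F} {g : F → V}
    (h : RefOn Q r (B : Set F) g) {A : Finset F} (hA : ClR Q A (B : Set F)) :
    ClR r (A.image g) ((B.image g : Finset V) : Set V) where
  cl := h.cl hA.cl
  K z' hz' w' hw' c' hc' h1 := by
    obtain ⟨z, hz, rfl⟩ := Finset.mem_image.1 hz'
    obtain ⟨w, hw, rfl⟩ := Finset.mem_image.1 hw'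
    obtain ⟨c, hc, rfl⟩ := Finset.mem_image.1 (Finset.mem_coe.1 hc')
    exact Finset.mem_image_of_mem g (hA.K z hz w hw c hc
      ((h.K z (hA.cl.sub hz) w (hA.cl.sub hw) c hc).1 h1))
  S z' hz' w' hw' c' hc' h1 := by
    obtain ⟨z, hz, rfl⟩ := Finset.mem_image.1 hz'
    obtain ⟨w, hw, rfl⟩ := Finset.mem_image.1 hw'
    obtain ⟨c, hc, rfl⟩ := Finset.mem_image.1 (Finset.mem_coe.1 hc')
    exact Finset.mem_image_of_mem g (hA.S z hz w hw c hc
      ((h.S z (hA.cl.sub hz) w (hA.cl.sub hw) c hc).1 h1))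

theorem RefOn.comp {F W : Type} {Q : Rels F} {r : Rels V} {s : Rels W} {A : Set F} {g : F → V}
    {k : V → W} (h : RefOn Q r A g) (h' : RefOn r s (g '' A) k) : RefOn Q s A (k ∘ g) where
  inj := h'.inj.comp h.inj (fun x hx => Set.mem_image_of_mem g hx)
  P x hx := (h'.P _ (Set.mem_image_of_mem g hx)).trans (h.P x hx)
  C x hx := (h'.C _ (Set.mem_image_of_mem g hx)).trans (h.C x hx)
  G x hx y hy := (h'.G _ (Set.mem_image_of_mem g hx) _ (Set.mem_image_of_mem g hy)).trans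
    (h.G x hx y hy)
  K x hx v hv w hw := (h'.K _ (Set.mem_image_of_mem g hx) _ (Set.mem_image_of_mem g hv) _
    (Set.mem_image_of_mem g hw)).trans (h.K x hx v hv w hw)
  S x hx v hv w hw := (h'.S _ (Set.mem_image_of_mem g hx) _ (Set.mem_image_of_mem g hv) _
    (Set.mem_image_of_mem g hw)).trans (h.S x hx v hv w hw)

theorem RefOn.of_inv {F V : Type} {Q : Rels F} {r : Rels V} {A : Set F} {f : F → V} {g : V → F}
    (h : RefOn Q r A f) (hg : ∀ x ∈ A, g (f x) = x) : RefOn r Q (f '' A) g where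
  inj := by
    rintro _ ⟨x, hx, rfl⟩ _ ⟨y, hy, rfl⟩ h1
    rw [hg x hx, hg y hy] at h1
    rw [h1]
  P := by
    rintro _ ⟨x, hx, rfl⟩
    rw [hg x hx, h.P x hx]
  C := by
    rintro _ ⟨x, hx, rfl⟩
    rw [hg x hx, h.C x hx]
  G := by
    rintro _ ⟨x, hx, rfl⟩ _ ⟨y, hy, rfl⟩
    rw [hg x hx, hg y hy, h.G x hx y hy]
  K := by
    rintro _ ⟨x, hx, rfl⟩ _ ⟨y, hy, rfl⟩ _ ⟨z, hz, rfl⟩
    rw [hg x hx, hg y hy, hg z hz, h.K x hx y hy z hz]
  S := by
    rintro _ ⟨x, hx, rfl⟩ _ ⟨y, hy, rfl⟩ _ ⟨z, hz, rfl⟩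
    rw [hg x hx, hg y hy, hg z hz, h.S x hx y hy z hz]

/-- The inverse of a map on a finite set. -/
theorem RefOn.inv {F V : Type} {Q : Rels F} {r : Rels V} {A : Finset F} [Nonempty F] {f : F → V}
    (h : RefOn Q r (A : Set F) f) :
    ∃ g : V → F, (∀ x ∈ A, g (f x) = x) ∧ RefOn r Q ((A.image f : Finset V) : Set V) g ∧
      (A.image f).image g = A := by
  have hg := h.inj.leftInvOn_invFunOn
  refine ⟨Function.invFunOn f A, fun x hx => hg hx, ?_, ?_⟩
  · have := h.of_inv (g := Function.invFunOn f A) fun x hx => hg hx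
    simpa using this
  · rw [Finset.image_image]
    ext x
    simp only [Finset.mem_image, Function.comp_apply]
    constructor
    · rintro ⟨y, hy, rfl⟩
      rw [hg hy]
      exact hy
    · intro hx
      exact ⟨x, hx, hg hx⟩

theorem img_eq {α : Type} (X : Finset α) (h : α → ℕ) :
    @Finset.image α ℕ (fun a b => propDecidable (a = b)) h X =
      @Finset.image α ℕ instDecidableEqNat h X := by
  have : (fun a b : ℕ => propDecidable (a = b)) = instDecidableEqNat := Subsingleton.elim _ _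
  rw [this]

end H968F
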